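import Pool.Agent.Helper6.RC.Defs

/-! Corestriction to the kernels of the characters; the commutator subgroup of a right-angled
Coxeter group. -/

namespace RC
open SH

section gen

variable {W A : Type} [Group W] [CommGroup A] (π : W →* A) (r : A → W) (hr : ∀ a, π (r a) = a)

/-- the Schreier cocycle of a section -/
def sc (g : W) (b : A) : π.ker := ⟨(r (π g * b))⁻¹ * g * r b, by
  rw [MonoidHom.mem_ker, map_mul, map_mul, map_inv, hr, hr, mul_inv_rev, mul_assoc, mul_assoc,
    inv_mul_cancel_left, inv_mul_cancel]⟩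

lemma sc_mul (g h : W) (b : A) :
    sc π r hr (g * h) b = sc π r hr g (π h * b) * sc π r hr h b := by
  apply Subtype.ext
  simp only [sc, Subgroup.coe_mul, map_mul, mul_assoc, mul_inv_cancel_left]

/-- the corestriction -/
def dJ (s : Finset A) (c : π.ker → π.ker → ℚ) (g h : W) : ℚ :=
  ∑ b ∈ s, c (sc π r hr g (π h * b)) (sc π r hr h b)

lemma dJ_coc (s : Finset A) (c : π.ker → π.ker → ℚ) (hc : IsCoc c) (g h k : W)
    (hk : ∀ b, b ∈ s ↔ π k * b ∈ s) :
    dJ π r hr s c h k - dJ π r hr s c (g * h) k + dJ π r hr s c g (h * k) - dJ π r hr s c g h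
      = 0 := by
  have h1 : dJ π r hr s c g h
      = ∑ b ∈ s, c (sc π r hr g (π h * (π k * b))) (sc π r hr h (π k * b)) := by
    unfold dJ
    symm
    refine Finset.sum_equiv (Equiv.mulLeft (π k)) (fun b => ?_) (fun b _ => ?_)
    · exact hk b
    · rfl
  rw [h1]
  unfold dJ
  rw [← Finset.sum_sub_distrib, ← Finset.sum_add_distrib, ← Finset.sum_sub_distrib]
  refine Finset.sum_eq_zero fun b _ => ?_
  rw [sc_mul π r hr g h, sc_mul π r hr h k, map_mul, mul_assoc (π h) (π k) b]
  exact hc _ _ _

end gen

section cob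

variable {G : Type*} [Group G]

lemma isCob_sum {ι : Type*} (s : Finset ι) (D : ι → G → G → ℚ) (h : ∀ i ∈ s, IsCob (D i)) :
    IsCob (fun x y => ∑ i ∈ s, D i x y) := by
  classical
  choose! u hu using h
  refine ⟨fun x => ∑ i ∈ s, u i x, fun x y => ?_⟩
  rw [← Finset.sum_sub_distrib, ← Finset.sum_add_distrib]
  exact Finset.sum_congr rfl fun i hi => hu i hi x y

lemma isCob_lin {D E : G → G → ℚ} (p q : ℚ) (hD : IsCob D) (hE : IsCob E) :
    IsCob (fun x y => p * D x y + q * E x y) := by
  obtain ⟨u, hu⟩ := hD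
  obtain ⟨v, hv⟩ := hE
  refine ⟨fun x => p * u x + q * v x, fun x y => ?_⟩
  show p * D x y + q * E x y = _
  rw [hu, hv]
  ring

end cob

section cor

variable {W : Type} [Group W] {V : Type} [Fintype V] [DecidableEq V]

/-- the character with sign `-1` exactly on `J` -/
def chi (J : Finset V) : Multiplicative (V → ZMod 2) →* Multiplicative (ZMod 2) where
  toFun x := Multiplicative.ofAdd (∑ v ∈ J, (Multiplicative.toAdd x) v)
  map_one' := by simp
  map_mul' x y := by simp [Finset.sum_add_distrib]

/-- the sign of an element of `Z/2` -/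
def sgq (x : ZMod 2) : ℚ := if x = 0 then 1 else -1

lemma sgq_add (x y : ZMod 2) : sgq (x + y) = sgq x * sgq y := by
  fin_cases x <;> fin_cases y <;> simp [sgq] <;> decide

omit [Fintype V] in
lemma sgq_sum (J : Finset V) (f : V → ZMod 2) : sgq (∑ v ∈ J, f v) = ∏ v ∈ J, sgq (f v) := by
  induction J using Finset.induction_on with
  | empty => simp [sgq]
  | insert a s ha ih => rw [Finset.sum_insert ha, Finset.prod_insert ha, sgq_add, ih]

omit [Fintype V] in
lemma ind_eq (J : Finset V) (b : Multiplicative (V → ZMod 2)) :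
    (if chi J b = 1 then (1 : ℚ) else 0)
      = (1 + ∏ v ∈ J, sgq ((Multiplicative.toAdd b) v)) / 2 := by
  rw [← sgq_sum]
  have : chi J b = 1 ↔ ∑ v ∈ J, (Multiplicative.toAdd b) v = 0 := Iff.rfl
  by_cases h : ∑ v ∈ J, (Multiplicative.toAdd b) v = 0
  · rw [if_pos (this.2 h), sgq, if_pos h]; norm_num
  · rw [if_neg (fun h' => h (this.1 h')), sgq, if_neg h]; norm_num

/-- orthogonality -/
lemma sum_ind (b : Multiplicative (V → ZMod 2)) :
    ∑ J : Finset V, (if chi J b = 1 then (1 : ℚ) else 0)
      = (2 : ℚ) ^ Fintype.card V / 2 * (1 + if b = 1 then 1 else 0) := by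
  have h1 : ∑ J : Finset V, ∏ v ∈ J, sgq ((Multiplicative.toAdd b) v)
      = ∏ v, (1 + sgq ((Multiplicative.toAdd b) v)) := by
    rw [Finset.prod_one_add, Finset.powerset_univ]
  simp_rw [ind_eq]
  rw [← Finset.sum_div, Finset.sum_add_distrib, h1]
  simp only [Finset.sum_const, Finset.card_univ, Fintype.card_finset, nsmul_eq_mul, mul_one,
    Nat.cast_pow, Nat.cast_ofNat]
  by_cases hb : b = 1
  · subst hb
    simp [sgq]
    norm_num
  · rw [if_neg hb]
    have : ∃ v, (Multiplicative.toAdd b) v ≠ 0 := by
      by_contra hcon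
      push Not at hcon
      exact hb (Multiplicative.toAdd.injective (funext hcon))
    obtain ⟨v, hv⟩ := this
    rw [Finset.prod_eq_zero (Finset.mem_univ v) (by rw [sgq, if_neg hv]; norm_num)]
    ring

/-- R5: a cocycle on the kernel `N` of `π : W → (Z/2)^V` is a coboundary as soon as, for a section
`r` of `π` with `r 1 = 1` and for every `J`, every cocycle `d` on the kernel of `χ_J ∘ π` whose restriction to
`N` is the sum of the conjugates of `c` by the `r b`, `χ_J b = 1`, is a coboundary. -/
theorem cob_of_index_two (π : W →* Multiplicative (V → ZMod 2)) (r : Multiplicative (V → ZMod 2) → W)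
    (hr : ∀ a, π (r a) = a) (hr1 : r 1 = 1) (c : π.ker → π.ker → ℚ) (hc : IsCoc c)
    (H : ∀ (J : Finset V) (d : ((chi J).comp π).ker → ((chi J).comp π).ker → ℚ), IsCoc d →
      (∀ (g h : π.ker) (hg : (g : W) ∈ ((chi J).comp π).ker) (hh : (h : W) ∈ ((chi J).comp π).ker),
        d ⟨g, hg⟩ ⟨h, hh⟩ = ∑ b ∈ Finset.univ.filter (fun b => chi J b = 1),
          c ⟨(r b)⁻¹ * g * r b, by
              rw [MonoidHom.mem_ker, map_mul, map_mul, MonoidHom.mem_ker.1 g.2, mul_one, ← map_mul,
                inv_mul_cancel, map_one]⟩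
            ⟨(r b)⁻¹ * h * r b, by
              rw [MonoidHom.mem_ker, map_mul, map_mul, MonoidHom.mem_ker.1 h.2, mul_one, ← map_mul,
                inv_mul_cancel, map_one]⟩) → IsCob d) :
    IsCob c := by
  classical
  set F : Multiplicative (V → ZMod 2) → π.ker → π.ker → ℚ := fun b g h =>
    c ⟨(r b)⁻¹ * g * r b, by
        rw [MonoidHom.mem_ker, map_mul, map_mul, MonoidHom.mem_ker.1 g.2, mul_one, ← map_mul,
          inv_mul_cancel, map_one]⟩
      ⟨(r b)⁻¹ * h * r b, by
        rw [MonoidHom.mem_ker, map_mul, map_mul, MonoidHom.mem_ker.1 h.2, mul_one, ← map_mul,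
          inv_mul_cancel, map_one]⟩ with hF
  have hle : ∀ (J : Finset V) (g : π.ker), (g : W) ∈ ((chi J).comp π).ker := by
    intro J g
    rw [MonoidHom.mem_ker, MonoidHom.comp_apply, MonoidHom.mem_ker.1 g.2, map_one]
  have hr1' : ∀ (x : π.ker) (a : Multiplicative (V → ZMod 2)), sc π r hr (x : W) a
      = ⟨(r a)⁻¹ * x * r a, by
        rw [MonoidHom.mem_ker, map_mul, map_mul, MonoidHom.mem_ker.1 x.2, mul_one, ← map_mul,
          inv_mul_cancel, map_one]⟩ := by
    intro x a
    apply Subtype.ext
    simp only [sc, MonoidHom.mem_ker.1 x.2, one_mul]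
  have key : ∀ (s : Finset (Multiplicative (V → ZMod 2))) (g h : π.ker),
      dJ π r hr s c g h = ∑ b ∈ s, F b g h := by
    intro s g h
    unfold dJ
    refine Finset.sum_congr rfl fun b _ => ?_
    have h2 : π (h : W) * b = b := by rw [MonoidHom.mem_ker.1 h.2, one_mul]
    rw [h2, hr1', hr1']
  have hD : ∀ J : Finset V, IsCob (fun g h => ∑ b ∈ Finset.univ.filter (fun b => chi J b = 1),
      F b g h) := by
    intro J
    obtain ⟨u, hu⟩ := H J (fun g h => dJ π r hr
        (Finset.univ.filter (fun b => chi J b = 1)) c g h) (by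
        intro x y z
        refine dJ_coc π r hr _ c hc x y z fun b => ?_
        have hz : chi J (π z) = 1 := z.2
        simp only [Finset.mem_filter, Finset.mem_univ, true_and, map_mul, hz, one_mul])
      (by
        intro g h hg hh
        exact key _ g h)
    refine ⟨fun g => u ⟨g, hle J g⟩, fun g h => ?_⟩
    have h3 := hu ⟨g, hle J g⟩ ⟨h, hle J h⟩
    show ∑ b ∈ Finset.univ.filter (fun b => chi J b = 1), F b g h = _
    rw [← key]
    exact h3
  have hF1 : ∀ g h, F 1 g h = c g h := by
    intro g h
    have h1 : ∀ (x : π.ker) (hx : (r 1)⁻¹ * (x : W) * r 1 ∈ π.ker),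
        (⟨(r 1)⁻¹ * x * r 1, hx⟩ : π.ker) = x := by
      intro x hx
      apply Subtype.ext
      show (r 1)⁻¹ * (x : W) * r 1 = x
      rw [hr1, inv_one, one_mul, mul_one]
    show c _ _ = _
    rw [h1, h1]
  have htot : ∀ g h, ∑ J : Finset V, ∑ b ∈ Finset.univ.filter (fun b => chi J b = 1), F b g h
      = (2 : ℚ) ^ Fintype.card V / 2 * (c g h + ∑ b, F b g h) := by
    intro g h
    have h1 : ∀ J : Finset V, ∑ b ∈ Finset.univ.filter (fun b => chi J b = 1), F b g h
        = ∑ b, (if chi J b = 1 then (1 : ℚ) else 0) * F b g h := by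
      intro J
      rw [Finset.sum_filter]
      refine Finset.sum_congr rfl fun b _ => ?_
      split_ifs <;> simp
    simp_rw [h1]
    rw [Finset.sum_comm]
    simp_rw [← Finset.sum_mul, sum_ind]
    have h2 : ∀ b, (2 : ℚ) ^ Fintype.card V / 2 * (1 + if b = 1 then 1 else 0) * F b g h
        = (2 : ℚ) ^ Fintype.card V / 2 * (F b g h + if b = 1 then F b g h else 0) := by
      intro b
      split_ifs <;> ring
    simp_rw [h2]
    rw [← Finset.mul_sum, Finset.sum_add_distrib, Finset.sum_ite_eq' Finset.univ 1,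
      if_pos (Finset.mem_univ _), hF1]
    ring
  have h0 : IsCob (fun g h => ∑ b, F b g h) := by
    have := hD ∅
    have he : Finset.univ.filter (fun b : Multiplicative (V → ZMod 2) => chi ∅ b = 1)
        = Finset.univ := by
      apply Finset.filter_true_of_mem
      intro b _
      rfl
    rwa [he] at this
  have hsum := isCob_sum (Finset.univ : Finset (Finset V)) (fun J g h =>
    ∑ b ∈ Finset.univ.filter (fun b => chi J b = 1), F b g h) (fun J _ => hD J)
  have hfin := isCob_lin (2 / (2 : ℚ) ^ Fintype.card V) (-1) hsum h0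
  have hceq : c = fun g h => 2 / (2 : ℚ) ^ Fintype.card V * (∑ J : Finset V,
      ∑ b ∈ Finset.univ.filter (fun b => chi J b = 1), F b g h) + (-1) * ∑ b, F b g h := by
    funext g h
    rw [htot]
    have h2 : (2 : ℚ) ^ Fintype.card V ≠ 0 := by positivity
    field_simp
    ring
  rw [hceq]
  exact hfin

end cor

section ab

variable {V : Type} [Fintype V] [DecidableEq V] (Γ : SimpleGraph V)

/-- R6: the commutator subgroup is the kernel of the map to `(Z/2)^V` -/
theorem commutator_eq (π : RAC Γ →* Multiplicative (V → ZMod 2))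
    (hπ : ∀ v, π (PresentedGroup.of v) = Multiplicative.ofAdd (Pi.single v 1)) :
    commutator (RAC Γ) = π.ker := by
  apply le_antisymm
  · exact Abelianization.commutator_subset_ker π
  · intro w hw
    have ha : ∀ v, (2 : ℤ) • Additive.ofMul (Abelianization.of (PresentedGroup.of v : RAC Γ)) = 0 := by
      intro v
      have h1 : (PresentedGroup.of v : RAC Γ) * PresentedGroup.of v = 1 := by
        have h0 := PresentedGroup.one_of_mem (rels := racRels Γ)
          (x := FreeGroup.of v * FreeGroup.of v) (Or.inl ⟨v, rfl⟩)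
        rw [map_mul] at h0
        exact h0
      rw [two_zsmul, ← ofMul_mul, ← map_mul, h1, map_one, ofMul_one]
    let f : V → (ZMod 2 →+ Additive (Abelianization (RAC Γ))) := fun v =>
      ZMod.lift 2 ⟨zmultiplesHom _ (Additive.ofMul (Abelianization.of (PresentedGroup.of v))), by
        simpa using ha v⟩
    let Ψ : Multiplicative (V → ZMod 2) →* Abelianization (RAC Γ) :=
      { toFun := fun x => Additive.toMul (∑ v, f v (Multiplicative.toAdd x v))
        map_one' := by simp
        map_mul' := fun x y => by simp [Finset.sum_add_distrib] }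
    have h : (Abelianization.of : RAC Γ →* Abelianization (RAC Γ)) = Ψ.comp π := by
      apply PresentedGroup.ext
      intro v
      rw [MonoidHom.comp_apply, hπ]
      show _ = Additive.toMul (∑ x, f x ((Pi.single v 1 : V → ZMod 2) x))
      rw [Finset.sum_eq_single v]
      · rw [Pi.single_eq_same]
        have h2 : f v 1 = Additive.ofMul (Abelianization.of (PresentedGroup.of v)) := by
          have := ZMod.lift_coe 2 ⟨zmultiplesHom _ (Additive.ofMul
            (Abelianization.of (PresentedGroup.of v : RAC Γ))), by simpa using ha v⟩ (1 : ℤ)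
          simpa using this
        rw [h2, toMul_ofMul]
      · intro x _ hx
        rw [Pi.single_eq_of_ne hx, map_zero]
      · intro hv
        exact absurd (Finset.mem_univ v) hv
    have h3 : (Abelianization.of : RAC Γ →* Abelianization (RAC Γ)) w = 1 := by
      rw [h, MonoidHom.comp_apply, MonoidHom.mem_ker.1 hw, map_one]
    exact (QuotientGroup.eq_one_iff w).1 h3

end ab

end RC
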