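import Pool.Agent.Helper6.RC.Defs

/-!
# Double covers of handle systems

`cover`: for a handle system `L` with the lifting property of the subgroup generated by its
entries, and a homomorphism `θ` to `Z/2`, there is a handle system with the lifting property
inside the kernel of `θ` with `k > 0` times the Euler number of `L`, for every cocycle.
-/

namespace RC

open SH

section basic

variable {G K : Type*} [Group G] [Group K]

/-- apply a homomorphism to both entries -/
def mp (φ : G →* K) (p : G × G) : K × K := (φ p.1, φ p.2)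

@[simp] lemma mp_fst (φ : G →* K) (p : G × G) : (mp φ p).1 = φ p.1 := rfl
@[simp] lemma mp_snd (φ : G →* K) (p : G × G) : (mp φ p).2 = φ p.2 := rfl

@[simp] lemma cp_nil : cp ([] : List (G × G)) = 1 := rfl
@[simp] lemma cp_cons (p : G × G) (L : List (G × G)) : cp (p :: L) = cm p.1 p.2 * cp L := by
  simp [cp]
@[simp] lemma cp_append (L M : List (G × G)) : cp (L ++ M) = cp L * cp M := by
  simp [cp]

lemma cp_map (φ : G →* K) (L : List (G × G)) : cp (L.map (mp φ)) = φ (cp L) := by
  induction L with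
  | nil => simp
  | cons p L ih => simp [ih, map_cm]

/-- the subgroup generated by the entries of the handles -/
def gen (L : List (G × G)) : Subgroup G := Subgroup.closure {x | ∃ p ∈ L, x = p.1 ∨ x = p.2}

lemma gen_le {L : List (G × G)} {H : Subgroup G} : gen L ≤ H ↔ ∀ p ∈ L, p.1 ∈ H ∧ p.2 ∈ H := by
  unfold gen
  rw [Subgroup.closure_le]
  constructor
  · intro h p hp
    exact ⟨h ⟨p, hp, Or.inl rfl⟩, h ⟨p, hp, Or.inr rfl⟩⟩
  · rintro h x ⟨p, hp, rfl | rfl⟩
    · exact (h p hp).1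
    · exact (h p hp).2

lemma mem_gen {L : List (G × G)} : ∀ p ∈ L, p.1 ∈ gen L ∧ p.2 ∈ gen L := gen_le.1 le_rfl

/-- two homomorphisms agreeing on the entries of `L` agree on `gen L` -/
lemma gen_hom_ext {L : List (G × G)} {f g : gen L →* K}
    (h : ∀ p (hp : p ∈ L), f ⟨p.1, (mem_gen p hp).1⟩ = g ⟨p.1, (mem_gen p hp).1⟩ ∧
      f ⟨p.2, (mem_gen p hp).2⟩ = g ⟨p.2, (mem_gen p hp).2⟩) : f = g := by
  apply MonoidHom.ext
  rintro ⟨x, hx⟩
  refine Subgroup.closure_induction (p := fun x hx => f ⟨x, hx⟩ = g ⟨x, hx⟩) ?_ ?_ ?_ ?_ hx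
  · rintro x ⟨p, hp, rfl | rfl⟩
    · exact (h p hp).1
    · exact (h p hp).2
  · have e : (⟨1, (gen L).one_mem⟩ : gen L) = 1 := rfl
    exact (map_one f).trans (map_one g).symm
  · intro x y hx hy h1 h2
    have e : (⟨x * y, (gen L).mul_mem hx hy⟩ : gen L) = ⟨x, hx⟩ * ⟨y, hy⟩ := rfl
    change f (⟨x, hx⟩ * ⟨y, hy⟩) = g (⟨x, hx⟩ * ⟨y, hy⟩)
    rw [map_mul, map_mul]
    exact congrArg₂ (· * ·) h1 h2
  · intro x hx h1
    change f (⟨x, hx⟩⁻¹) = g (⟨x, hx⟩⁻¹)
    rw [map_inv, map_inv]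
    exact congrArg (·⁻¹) h1

/-- related lists come from a list over the subgroup -/
lemma rel_iff {H : Subgroup G} {φ : H →* K} {L : List (G × G)} {M : List (K × K)} :
    List.Forall₂ (Rel H φ) L M ↔
      ∃ T : List (H × H), T.map (mp H.subtype) = L ∧ T.map (mp φ) = M := by
  constructor
  · intro h
    induction h with
    | nil => exact ⟨[], rfl, rfl⟩
    | @cons p m L M h _ ih =>
      obtain ⟨T, h1, h2⟩ := ih
      obtain ⟨a, b, c, d⟩ := h
      exact ⟨(⟨p.1, a⟩, ⟨p.2, b⟩) :: T, by rw [List.map_cons, h1]; rfl, by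
        rw [List.map_cons, h2]
        congr 1
        exact Prod.ext c d⟩
  · rintro ⟨T, rfl, rfl⟩
    induction T with
    | nil => exact List.Forall₂.nil
    | cons t T ih => exact List.Forall₂.cons ⟨t.1.2, t.2.2, rfl, rfl⟩ ih

/-- restriction of the homomorphism -/
lemma rel_restrict {H H' : Subgroup G} (h : H' ≤ H) {φ : H →* K} {L : List (G × G)}
    {M : List (K × K)} (hL : ∀ p ∈ L, p.1 ∈ H' ∧ p.2 ∈ H') (hr : List.Forall₂ (Rel H φ) L M) :
    List.Forall₂ (Rel H' (φ.comp (Subgroup.inclusion h))) L M := by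
  induction hr with
  | nil => exact List.Forall₂.nil
  | @cons p m L M h0 _ ih =>
    refine List.Forall₂.cons ?_ (ih fun q hq => hL q (List.mem_cons_of_mem _ hq))
    obtain ⟨a, b, c, d⟩ := h0
    exact ⟨(hL p List.mem_cons_self).1, (hL p List.mem_cons_self).2, c, d⟩

end basic


section moves

/-- a natural, length preserving transformation of handle lists, with a right inverse, which does
not change the product of commutators -/
structure Mv where
  /-- the transformation -/
  f : ∀ (G : Type) [Group G], List (G × G) → List (G × G)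
  /-- a right inverse -/
  b : ∀ (G : Type) [Group G], List (G × G) → List (G × G)
  nat : ∀ (G K : Type) [Group G] [Group K] (φ : G →* K) (L : List (G × G)),
    f K (L.map (mp φ)) = (f G L).map (mp φ)
  len : ∀ (G : Type) [Group G] (L : List (G × G)), (f G L).length = L.length
  cpf : ∀ (G : Type) [Group G] (L : List (G × G)), cp (f G L) = cp L
  fb : ∀ (G : Type) [Group G] (L : List (G × G)), f G (b G L) = L

namespace Mv

/-- nothing -/
def nil : Mv where
  f _ _ L := L
  b _ _ L := L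
  nat _ _ _ _ _ _ := rfl
  len _ _ _ := rfl
  cpf _ _ _ := rfl
  fb _ _ _ := rfl

/-- composition -/
def comp (m n : Mv) : Mv where
  f G _ L := m.f G (n.f G L)
  b G _ L := n.b G (m.b G L)
  nat G K _ _ φ L := by rw [n.nat, m.nat]
  len G _ L := by rw [m.len, n.len]
  cpf G _ L := by rw [m.cpf, n.cpf]
  fb G _ L := by rw [n.fb, m.fb]

/-- apply a move to the tail -/
def tl (m : Mv) : Mv where
  f G _ L := match L with
    | [] => []
    | p :: T => p :: m.f G T
  b G _ L := match L with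
    | [] => []
    | p :: T => p :: m.b G T
  nat G K _ _ φ L := by
    cases L with
    | nil => rfl
    | cons p T => simp [m.nat]
  len G _ L := by
    cases L with
    | nil => rfl
    | cons p T => simp [m.len]
  cpf G _ L := by
    cases L with
    | nil => rfl
    | cons p T => simp [m.cpf]
  fb G _ L := by
    cases L with
    | nil => rfl
    | cons p T => simp [m.fb]

/-- `(a, b) ↦ (a, b a)` -/
def m1 : Mv where
  f G _ L := match L with
    | [] => []
    | p :: T => (p.1, p.2 * p.1) :: T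
  b G _ L := match L with
    | [] => []
    | p :: T => (p.1, p.2 * p.1⁻¹) :: T
  nat G K _ _ φ L := by
    cases L with
    | nil => rfl
    | cons p T => simp [mp]
  len G _ L := by
    cases L with
    | nil => rfl
    | cons p T => rfl
  cpf G _ L := by
    cases L with
    | nil => rfl
    | cons p T => simp [cm, mul_assoc]
  fb G _ L := by
    cases L with
    | nil => rfl
    | cons p T => simp

/-- `(a, b) ↦ (a b, b)` -/
def m2 : Mv where
  f G _ L := match L with
    | [] => []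
    | p :: T => (p.1 * p.2, p.2) :: T
  b G _ L := match L with
    | [] => []
    | p :: T => (p.1 * p.2⁻¹, p.2) :: T
  nat G K _ _ φ L := by
    cases L with
    | nil => rfl
    | cons p T => simp [mp]
  len G _ L := by
    cases L with
    | nil => rfl
    | cons p T => rfl
  cpf G _ L := by
    cases L with
    | nil => rfl
    | cons p T => simp [cm, mul_assoc]
  fb G _ L := by
    cases L with
    | nil => rfl
    | cons p T => simp

/-- exchange of the first two handles -/
def sw : Mv where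
  f G _ L := match L with
    | [] => []
    | [p] => [p]
    | p :: q :: T => (cm p.1 p.2 * q.1 * (cm p.1 p.2)⁻¹, cm p.1 p.2 * q.2 * (cm p.1 p.2)⁻¹) ::
        p :: T
  b G _ L := match L with
    | [] => []
    | [p] => [p]
    | q :: p :: T => p :: ((cm p.1 p.2)⁻¹ * q.1 * cm p.1 p.2, (cm p.1 p.2)⁻¹ * q.2 * cm p.1 p.2) ::
        T
  nat G K _ _ φ L := by
    rcases L with _ | ⟨p, _ | ⟨q, T⟩⟩
    · rfl
    · rfl
    · simp [mp, map_cm]
  len G _ L := by
    rcases L with _ | ⟨p, _ | ⟨q, T⟩⟩ <;> rfl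
  cpf G _ L := by
    rcases L with _ | ⟨p, _ | ⟨q, T⟩⟩
    · rfl
    · rfl
    · simp only [cp_cons, cm]
      group
  fb G _ L := by
    rcases L with _ | ⟨p, _ | ⟨q, T⟩⟩
    · rfl
    · rfl
    · simp [mul_assoc]

/-- slide -/
def sl : Mv where
  f G _ L := match L with
    | [] => []
    | [p] => [p]
    | p :: q :: T =>
      (p.1 * q.1, (p.2⁻¹ * q.1)⁻¹ * p.1⁻¹ * (p.2⁻¹ * q.1) * q.2) ::
      ((p.2⁻¹ * q.1)⁻¹ * p.1⁻¹ * (p.2⁻¹ * q.1), q.2 * (p.2⁻¹ * q.1)) :: T
  b G _ L := match L with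
    | [] => []
    | [p] => [p]
    | p :: q :: T =>
      ((p.2⁻¹ * q.1 * q.2) * q.1⁻¹ * (p.2⁻¹ * q.1 * q.2)⁻¹,
        (p.2⁻¹ * q.1 * q.2) * q.1 * (p.2⁻¹ * q.1 * q.2)⁻¹ * p.1 * (p.2⁻¹ * q.1 * q.2)⁻¹) ::
      ((p.2⁻¹ * q.1 * q.2) * q.1 * (p.2⁻¹ * q.1 * q.2)⁻¹ * p.1, q.1⁻¹ * p.2) :: T
  nat G K _ _ φ L := by
    rcases L with _ | ⟨p, _ | ⟨q, T⟩⟩
    · rfl
    · rfl
    · simp [mp]
  len G _ L := by
    rcases L with _ | ⟨p, _ | ⟨q, T⟩⟩ <;> rfl
  cpf G _ L := by
    rcases L with _ | ⟨p, _ | ⟨q, T⟩⟩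
    · rfl
    · rfl
    · simp only [cp_cons, cm]
      group
  fb G _ L := by
    rcases L with _ | ⟨p, _ | ⟨q, T⟩⟩
    · rfl
    · rfl
    · simp only [List.cons.injEq, and_true]
      refine ⟨Prod.ext ?_ ?_, Prod.ext ?_ ?_⟩ <;> simp only <;> group

end Mv

/-- entries in the kernel -/
def Triv {G : Type} [Group G] (θ : G →* Multiplicative (ZMod 2)) (L : List (G × G)) : Prop :=
  ∀ p ∈ L, θ p.1 = 1 ∧ θ p.2 = 1

lemma z2_cases (z : Multiplicative (ZMod 2)) : z = 1 ∨ z = Multiplicative.ofAdd 1 := by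
  revert z; decide

/-- normal form: `θ` is nontrivial on the first entry only -/
theorem normal {G : Type} [Group G] (θ : G →* Multiplicative (ZMod 2)) (L : List (G × G)) :
    Triv θ L ∨ ∃ (m : Mv) (a b : G) (L0 : List (G × G)), m.f G L = (a, b) :: L0 ∧
      θ a = Multiplicative.ofAdd 1 ∧ θ b = 1 ∧ Triv θ L0 := by
  set t : Multiplicative (ZMod 2) := Multiplicative.ofAdd 1 with ht
  have htt : t * t = 1 := by decide
  have hti : t⁻¹ = t := by decide
  have hone : (1 : Multiplicative (ZMod 2))⁻¹ = 1 := by decide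
  -- normalisation of the first handle
  have N1 : ∀ (p : G × G) (T : List (G × G)), ¬ (θ p.1 = 1 ∧ θ p.2 = 1) →
      ∃ (m : Mv) (a b : G), m.f G (p :: T) = (a, b) :: T ∧ θ a = t ∧ θ b = 1 := by
    intro p T hp
    rcases z2_cases (θ p.1) with h1 | h1 <;> rcases z2_cases (θ p.2) with h2 | h2
    · exact absurd ⟨h1, h2⟩ hp
    · refine ⟨Mv.comp Mv.m1 Mv.m2, _, _, rfl, ?_, ?_⟩
      · rw [map_mul, h1, h2, one_mul]
      · rw [map_mul, map_mul, h1, h2, one_mul]; exact htt
    · exact ⟨Mv.nil, p.1, p.2, rfl, h1, h2⟩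
    · refine ⟨Mv.m1, _, _, rfl, h1, ?_⟩
      rw [map_mul, h1, h2]; exact htt
  have N2 : ∀ (p : G × G) (T : List (G × G)), ¬ (θ p.1 = 1 ∧ θ p.2 = 1) →
      ∃ (m : Mv) (a b : G), m.f G (p :: T) = (a, b) :: T ∧ θ a = 1 ∧ θ b = t := by
    intro p T hp
    rcases z2_cases (θ p.1) with h1 | h1 <;> rcases z2_cases (θ p.2) with h2 | h2
    · exact absurd ⟨h1, h2⟩ hp
    · exact ⟨Mv.nil, p.1, p.2, rfl, h1, h2⟩
    · refine ⟨Mv.comp Mv.m2 Mv.m1, _, _, rfl, ?_, ?_⟩
      · rw [map_mul, map_mul, h1, h2, one_mul]; exact htt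
      · rw [map_mul, h1, h2, one_mul]
    · refine ⟨Mv.m2, _, _, rfl, ?_, h2⟩
      rw [map_mul, h1, h2]; exact htt
  induction L with
  | nil => exact Or.inl (by intro p hp; simp at hp)
  | cons p T ih =>
    rcases ih with hT | ⟨m, a, b, L0, hm, ha, hb, h0⟩
    · by_cases hp : θ p.1 = 1 ∧ θ p.2 = 1
      · left
        intro q hq
        rcases List.mem_cons.1 hq with rfl | hq
        · exact hp
        · exact hT q hq
      · right
        obtain ⟨m, a, b, h1, h2, h3⟩ := N1 p T hp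
        exact ⟨m, a, b, T, h1, h2, h3, hT⟩
    · right
      have hm' : (Mv.tl m).f G (p :: T) = p :: (a, b) :: L0 := by
        change p :: m.f G T = _
        rw [hm]
      by_cases hp : θ p.1 = 1 ∧ θ p.2 = 1
      · refine ⟨Mv.comp Mv.sw (Mv.tl m), cm p.1 p.2 * a * (cm p.1 p.2)⁻¹,
          cm p.1 p.2 * b * (cm p.1 p.2)⁻¹, p :: L0, ?_, ?_, ?_, ?_⟩
        · change Mv.sw.f G ((Mv.tl m).f G (p :: T)) = _
          rw [hm']
          rfl
        · rw [map_mul, map_mul, map_inv, mul_inv_cancel_comm, ha]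
        · rw [map_mul, map_mul, map_inv, mul_inv_cancel_comm, hb]
        · intro q hq
          rcases List.mem_cons.1 hq with rfl | hq
          · exact hp
          · exact h0 q hq
      · obtain ⟨n, a', b', h1, h2, h3⟩ := N2 p ((a, b) :: L0) hp
        refine ⟨Mv.comp Mv.sl (Mv.comp n (Mv.tl m)), a' * a,
          (b'⁻¹ * a)⁻¹ * a'⁻¹ * (b'⁻¹ * a) * b,
          ((b'⁻¹ * a)⁻¹ * a'⁻¹ * (b'⁻¹ * a), b * (b'⁻¹ * a)) :: L0, ?_, ?_, ?_, ?_⟩
        · change Mv.sl.f G (n.f G ((Mv.tl m).f G (p :: T))) = _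
          rw [hm', h1]
          rfl
        · rw [map_mul, h2, ha, one_mul]
        · simp only [map_mul, map_inv, h2, h3, ha, hb, hone, mul_one]
          exact inv_mul_cancel _
        · intro q hq
          rcases List.mem_cons.1 hq with rfl | hq
          · simp only [map_mul, map_inv, h2, h3, ha, hb, hone, mul_one, hti, htt]
            exact ⟨trivial, trivial⟩
          · exact h0 q hq

end moves

section euler

variable {S : Type*} [Group S] {c : S → S → ℚ} {hc : IsCoc c}

/-- commutators of lifts do not depend on the lifts -/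
lemma cm_lift {x y x' y' : Ex c hc} (hx : x.g = x'.g) (hy : y.g = y'.g) : cm x y = cm x' y' := by
  apply Ex.ext
  · simp only [cm, Ex.mul_v, Ex.mul_g, Ex.inv_v, Ex.inv_g, hx, hy]
    ring
  · simp only [cm, Ex.mul_g, Ex.inv_g, hx, hy]

lemma cp_lift {X Y : List (Ex c hc × Ex c hc)}
    (h : X.map (mp (Ex.pr c hc)) = Y.map (mp (Ex.pr c hc))) : cp X = cp Y := by
  induction X generalizing Y with
  | nil =>
    cases Y with
    | nil => rfl
    | cons q Y => simp at h
  | cons p X ih =>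
    cases Y with
    | nil => simp at h
    | cons q Y =>
      rw [List.map_cons, List.map_cons, List.cons.injEq] at h
      rw [cp_cons, cp_cons, ih h.2]
      have h1 : p.1.g = q.1.g := congrArg Prod.fst h.1
      have h2 : p.2.g = q.2.g := congrArg Prod.snd h.1
      rw [cm_lift h1 h2]

/-- the Euler number computed with any lifts -/
lemma ev_eq (L : List (S × S)) (X : List (Ex c hc × Ex c hc))
    (h : X.map (mp (Ex.pr c hc)) = L) : ev c hc L = (cp X).v + c 1 1 := by
  unfold ev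
  congr 2
  apply cp_lift
  rw [h, List.map_map]
  conv_rhs => rw [← List.map_id L]
  rfl

/-- the standard lift -/
def lf (c : S → S → ℚ) (hc : IsCoc c) (L : List (S × S)) : List (Ex c hc × Ex c hc) :=
  L.map fun p => ((⟨0, p.1⟩ : Ex c hc), (⟨0, p.2⟩ : Ex c hc))

lemma lf_pr (L : List (S × S)) : (lf c hc L).map (mp (Ex.pr c hc)) = L := by
  unfold lf
  rw [List.map_map]
  conv_rhs => rw [← List.map_id L]
  rfl

/-- an element over `1` is central -/
lemma central {z : Ex c hc} (hz : z.g = 1) (x : Ex c hc) : z * x = x * z := by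
  apply Ex.ext
  · simp only [Ex.mul_v, hz, hc.one_left, hc.one_right]
    ring
  · simp only [Ex.mul_g, hz, one_mul, mul_one]

end euler

/-- moves preserve Euler numbers -/
lemma ev_mv {S : Type} [Group S] (m : Mv) (c : S → S → ℚ) (hc : IsCoc c) (L : List (S × S)) :
    ev c hc (m.f S L) = ev c hc L := by
  rw [ev_eq (m.f S L) (m.f _ (lf c hc L)) (by rw [← m.nat, lf_pr]), m.cpf,
    ev_eq L (lf c hc L) (lf_pr L)]

/-- moves do not enlarge the generated subgroup -/
lemma gen_mv {S : Type} [Group S] (m : Mv) (L : List (S × S)) : gen (m.f S L) ≤ gen L := by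
  rw [gen_le]
  obtain ⟨T, hT⟩ : ∃ T : List (gen L × gen L), T.map (mp (gen L).subtype) = L := by
    refine ⟨L.attach.map fun p => (⟨p.1.1, (mem_gen p.1 p.2).1⟩, ⟨p.1.2, (mem_gen p.1 p.2).2⟩), ?_⟩
    rw [List.map_map]
    conv_rhs => rw [← List.attach_map_subtype_val L]
    rfl
  intro p hp
  rw [← hT, m.nat] at hp
  obtain ⟨t, _, rfl⟩ := List.mem_map.1 hp
  exact ⟨t.1.2, t.2.2⟩

/-- moves preserve the lifting property -/
lemma sys_mv {S : Type} [Group S] (m : Mv) (L : List (S × S)) (hL : Sys (gen L) L) :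
    Sys (gen (m.f S L)) (m.f S L) := by
  refine ⟨mem_gen, fun K _ M hM hcp => ?_⟩
  obtain ⟨φ, hφ⟩ := hL.2 K (m.b K M) (by
    have h1 := m.len K (m.b K M)
    rw [m.fb, hM, m.len] at h1
    exact h1.symm) (by rw [← m.cpf, m.fb, hcp])
  obtain ⟨T, h1, h2⟩ := rel_iff.1 hφ
  have h3 : List.Forall₂ (Rel (gen L) φ) (m.f S L) M := by
    rw [rel_iff]
    refine ⟨m.f _ T, ?_, ?_⟩
    · rw [← m.nat, h1]
    · rw [← m.nat, h2, m.fb]
  exact ⟨_, rel_restrict (gen_mv m L) mem_gen h3⟩

section wreath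

/-- the wreath product of `K` with `Z/2` -/
@[ext] structure Wr (K : Type) where
  /-- first coordinate -/
  x : K
  /-- second coordinate -/
  y : K
  /-- exchange -/
  s : Bool

namespace Wr

variable {K : Type} [Group K]

instance : Mul (Wr K) := ⟨fun a b => match a.s with
  | false => ⟨a.x * b.x, a.y * b.y, b.s⟩
  | true => ⟨a.x * b.y, a.y * b.x, !b.s⟩⟩
instance : One (Wr K) := ⟨⟨1, 1, false⟩⟩
instance : Inv (Wr K) := ⟨fun a => match a.s with
  | false => ⟨a.x⁻¹, a.y⁻¹, false⟩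
  | true => ⟨a.y⁻¹, a.x⁻¹, true⟩⟩

lemma mk_mul_false (x y : K) (b : Wr K) : (⟨x, y, false⟩ : Wr K) * b = ⟨x * b.x, y * b.y, b.s⟩ :=
  rfl
lemma mk_mul_true (x y : K) (b : Wr K) : (⟨x, y, true⟩ : Wr K) * b = ⟨x * b.y, y * b.x, !b.s⟩ :=
  rfl
lemma one_def : (1 : Wr K) = ⟨1, 1, false⟩ := rfl
lemma inv_false (x y : K) : (⟨x, y, false⟩ : Wr K)⁻¹ = ⟨x⁻¹, y⁻¹, false⟩ := rfl
lemma inv_true (x y : K) : (⟨x, y, true⟩ : Wr K)⁻¹ = ⟨y⁻¹, x⁻¹, true⟩ := rfl

instance : Group (Wr K) :=
  Group.ofLeftAxioms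
    (by
      rintro ⟨x, y, s⟩ ⟨x', y', s'⟩ ⟨x'', y'', s''⟩
      cases s <;> cases s' <;> simp [mk_mul_false, mk_mul_true, mul_assoc])
    (by
      rintro ⟨x, y, s⟩
      simp [one_def, mk_mul_false])
    (by
      rintro ⟨x, y, s⟩
      cases s <;> simp [one_def, mk_mul_false, mk_mul_true, inv_false, inv_true])

/-- the homomorphism to `Z/2` -/
def sgn : Wr K →* Multiplicative (ZMod 2) where
  toFun a := if a.s then Multiplicative.ofAdd 1 else 1
  map_one' := rfl
  map_mul' := by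
    rintro ⟨x, y, s⟩ ⟨x', y', s'⟩
    cases s <;> cases s' <;> (simp [mk_mul_false, mk_mul_true]; try decide)

/-- the base of the wreath product -/
def base : K × K →* Wr K where
  toFun p := ⟨p.1, p.2, false⟩
  map_one' := rfl
  map_mul' _ _ := rfl

end Wr

end wreath

section double

/-- conjugation -/
def cj {G : Type*} [Group G] (a : G) : G →* G := (MulAut.conj a).toMonoidHom

lemma cj_apply {G : Type*} [Group G] (a x : G) : cj a x = a * x * a⁻¹ := rfl

/-- the handles of the double cover -/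
def dbl {G : Type*} [Group G] (a b : G) (L0 : List (G × G)) : List (G × G) :=
  (a * a, b) :: (L0 ++ L0.map (mp (cj a)))

lemma dbl_map {G K : Type*} [Group G] [Group K] (φ : G →* K) (a b : G) (L0 : List (G × G)) :
    (dbl a b L0).map (mp φ) = dbl (φ a) (φ b) (L0.map (mp φ)) := by
  simp [dbl, mp, cj_apply]

lemma cp_dbl {G : Type*} [Group G] (a b : G) (L0 : List (G × G))
    (hz : ∀ x, cp ((a, b) :: L0) * x = x * cp ((a, b) :: L0)) :
    cp (dbl a b L0) = cp ((a, b) :: L0) * cp ((a, b) :: L0) := by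
  have h1 : cp (dbl a b L0) = (a * cm a b * a⁻¹) * cp ((a, b) :: L0) * (a * cp L0 * a⁻¹) := by
    simp only [dbl, cp_cons, cp_append, cp_map, cj_apply, cm]
    group
  have h2 := hz a
  rw [h1, mul_assoc, ← mul_assoc (cp ((a, b) :: L0)), ← mul_assoc (cp ((a, b) :: L0)), h2]
  have h3 : a * cm a b * a⁻¹ * (a * cp ((a, b) :: L0) * cp L0 * a⁻¹) =
      a * (cm a b * (cp ((a, b) :: L0) * cp L0)) * a⁻¹ := by group
  rw [h3, hz (cp L0), ← mul_assoc (cm a b), ← cp_cons (a, b) L0, ← mul_assoc, ← hz a]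
  have h4 : cp ((a, b) :: L0) * a * cp ((a, b) :: L0) * a⁻¹ =
      cp ((a, b) :: L0) * (a * cp ((a, b) :: L0)) * a⁻¹ := by group
  rw [h4, ← hz a]
  group

lemma ev_dbl {S : Type*} [Group S] (c : S → S → ℚ) (hc : IsCoc c) (a b : S) (L0 : List (S × S))
    (h1 : cp ((a, b) :: L0) = 1) :
    ev c hc (dbl a b L0) = 2 * ev c hc ((a, b) :: L0) := by
  set X0 := lf c hc L0
  set a' : Ex c hc := ⟨0, a⟩
  set b' : Ex c hc := ⟨0, b⟩
  have e1 : ((a', b') :: X0).map (mp (Ex.pr c hc)) = (a, b) :: L0 := by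
    rw [List.map_cons, lf_pr]
    rfl
  have e2 : (dbl a' b' X0).map (mp (Ex.pr c hc)) = dbl a b L0 := by
    rw [dbl_map, lf_pr]
    rfl
  set z := cp ((a', b') :: X0) with hz
  have hz1 : z.g = 1 := by
    have := cp_map (Ex.pr c hc) ((a', b') :: X0)
    rw [e1, h1] at this
    exact this.symm
  rw [ev_eq _ _ e2, ev_eq _ _ e1, cp_dbl a' b' X0 (central hz1), ← hz, Ex.mul_v, hz1]
  ring

lemma gen_dbl {S : Type*} [Group S] (a b : S) (L0 : List (S × S)) :
    gen (dbl a b L0) ≤ gen ((a, b) :: L0) := by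
  rw [gen_le]
  have ha := (mem_gen (L := (a, b) :: L0) (a, b) List.mem_cons_self).1
  have hb := (mem_gen (L := (a, b) :: L0) (a, b) List.mem_cons_self).2
  have h0 : ∀ p ∈ L0, p.1 ∈ gen ((a, b) :: L0) ∧ p.2 ∈ gen ((a, b) :: L0) := fun p hp =>
    mem_gen p (List.mem_cons_of_mem _ hp)
  intro p hp
  rcases List.mem_cons.1 hp with rfl | hp
  · exact ⟨Subgroup.mul_mem _ ha ha, hb⟩
  · rcases List.mem_append.1 hp with hp | hp
    · exact h0 p hp
    · obtain ⟨q, hq, rfl⟩ := List.mem_map.1 hp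
      exact ⟨Subgroup.mul_mem _ (Subgroup.mul_mem _ ha (h0 q hq).1) (Subgroup.inv_mem _ ha),
        Subgroup.mul_mem _ (Subgroup.mul_mem _ ha (h0 q hq).2) (Subgroup.inv_mem _ ha)⟩

lemma triv_dbl {S : Type} [Group S] {θ : S →* Multiplicative (ZMod 2)} {a b : S}
    {L0 : List (S × S)} (hb : θ b = 1) (h0 : Triv θ L0) : Triv θ (dbl a b L0) := by
  have hsq : ∀ z : Multiplicative (ZMod 2), z * z = 1 := by decide
  intro p hp
  rcases List.mem_cons.1 hp with rfl | hp
  · exact ⟨by rw [map_mul]; exact hsq _, hb⟩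
  · rcases List.mem_append.1 hp with hp | hp
    · exact h0 p hp
    · obtain ⟨q, hq, rfl⟩ := List.mem_map.1 hp
      simp only [mp_fst, mp_snd, cj_apply, map_mul, map_inv, (h0 q hq).1, (h0 q hq).2, mul_one,
        mul_inv_cancel, and_self]

lemma zip_lists {K : Type*} [Group K] : ∀ (M1 M2 : List (K × K)), M1.length = M2.length →
    ∃ N : List ((K × K) × (K × K)), N.map (mp (MonoidHom.fst K K)) = M1 ∧
      N.map (mp (MonoidHom.snd K K)) = M2
  | [], [], _ => ⟨[], rfl, rfl⟩
  | [], _ :: _, h => by simp at h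
  | _ :: _, [], h => by simp at h
  | p :: M1, q :: M2, h => by
    obtain ⟨N, h1, h2⟩ := zip_lists M1 M2 (by simpa using h)
    exact ⟨((p.1, q.1), (p.2, q.2)) :: N, by rw [List.map_cons, h1]; rfl,
      by rw [List.map_cons, h2]; rfl⟩

lemma Wr.mul_x {K : Type} [Group K] (w w' : Wr K) (h : w.s = false) : (w * w').x = w.x * w'.x := by
  obtain ⟨x, y, s⟩ := w
  obtain rfl : s = false := h
  rfl

theorem sys_dbl {S : Type} [Group S] (a b : S) (L0 : List (S × S))
    (θ : S →* Multiplicative (ZMod 2)) (ha : θ a = Multiplicative.ofAdd 1) (hb : θ b = 1)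
    (h0 : Triv θ L0) (hL : Sys (gen ((a, b) :: L0)) ((a, b) :: L0)) :
    Sys (gen (dbl a b L0)) (dbl a b L0) := by
  refine ⟨mem_gen, fun K _ M hM hcp => ?_⟩
  obtain ⟨u, v, M1, M2, rfl, hl1, hl2⟩ : ∃ (u v : K) (M1 M2 : List (K × K)),
      M = (u, v) :: (M1 ++ M2) ∧ M1.length = L0.length ∧ M2.length = L0.length := by
    rcases M with _ | ⟨m, T⟩
    · simp [dbl] at hM
    · have hT : T.length = L0.length + L0.length := by simpa [dbl] using hM
      refine ⟨m.1, m.2, T.take L0.length, T.drop L0.length, ?_, ?_, ?_⟩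
      · rw [List.take_append_drop]
      · rw [List.length_take]; omega
      · rw [List.length_drop]; omega
  obtain ⟨N, hN1, hN2⟩ := zip_lists M1 M2 (hl1.trans hl2.symm)
  set A : Wr K := ⟨1, u, true⟩ with hA
  set B : Wr K := ⟨v, (cp M1)⁻¹ * v, false⟩ with hB
  have hc1 : (cp N).1 = cp M1 := by
    rw [← hN1, cp_map]; rfl
  have hc2 : (cp N).2 = cp M2 := by
    rw [← hN2, cp_map]; rfl
  have hrel : cp ((A, B) :: N.map (mp Wr.base)) = 1 := by
    rw [cp_cons, cp_map]
    have h1 : (Wr.base (cp N) : Wr K) = ⟨cp M1, cp M2, false⟩ := by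
      rw [← hc1, ← hc2]; rfl
    rw [h1]
    simp only [cp_cons, cp_append, cm] at hcp
    simp only [cm, hA, hB, Wr.mk_mul_true, Wr.mk_mul_false, Wr.inv_true, Wr.inv_false,
      Wr.one_def, Wr.mk.injEq, Bool.not_false, Bool.not_true, and_true]
    constructor
    · group
    · rw [← hcp]
      group
  obtain ⟨Φ, hΦ⟩ := hL.2 (Wr K) ((A, B) :: N.map (mp Wr.base)) (by
    have h1 := congrArg List.length hN1
    rw [List.length_map] at h1
    rw [List.length_cons, List.length_cons, List.length_map, h1, hl1]) hrel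
  obtain ⟨T, hT1, hT2⟩ := rel_iff.1 hΦ
  rcases T with _ | ⟨t, T0⟩
  · simp at hT1
  rw [List.map_cons, List.cons.injEq] at hT1 hT2
  obtain ⟨hT1, hT1'⟩ := hT1
  obtain ⟨hT2, hT2'⟩ := hT2
  have ta : (t.1 : S) = a := congrArg Prod.fst hT1
  have tb : (t.2 : S) = b := congrArg Prod.snd hT1
  have tA : Φ t.1 = A := congrArg Prod.fst hT2
  have tB : Φ t.2 = B := congrArg Prod.snd hT2
  -- the signs
  have hsgn : Wr.sgn.comp Φ = θ.comp (gen ((a, b) :: L0)).subtype := by
    apply gen_hom_ext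
    intro p hp
    rcases List.mem_cons.1 hp with rfl | hp'
    · have e1 : (⟨a, (mem_gen _ hp).1⟩ : gen ((a, b) :: L0)) = t.1 := Subtype.ext ta.symm
      have e2 : (⟨b, (mem_gen _ hp).2⟩ : gen ((a, b) :: L0)) = t.2 := Subtype.ext tb.symm
      constructor
      · change Wr.sgn (Φ _) = θ a
        rw [e1, tA, ha]; rfl
      · change Wr.sgn (Φ _) = θ b
        rw [e2, tB, hb]; rfl
    · have hp2 := hp'
      rw [← hT1'] at hp2
      obtain ⟨r, hr, hr'⟩ := List.mem_map.1 hp2
      have hr2 : mp Φ r ∈ N.map (mp Wr.base) := by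
        rw [← hT2']; exact List.mem_map_of_mem hr
      obtain ⟨n, _, hn⟩ := List.mem_map.1 hr2
      have e1 : (⟨p.1, (mem_gen p hp).1⟩ : gen ((a, b) :: L0)) = r.1 :=
        Subtype.ext (congrArg Prod.fst hr').symm
      have e2 : (⟨p.2, (mem_gen p hp).2⟩ : gen ((a, b) :: L0)) = r.2 :=
        Subtype.ext (congrArg Prod.snd hr').symm
      have f1 : Φ r.1 = Wr.base n.1 := (congrArg Prod.fst hn).symm
      have f2 : Φ r.2 = Wr.base n.2 := (congrArg Prod.snd hn).symm
      constructor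
      · change Wr.sgn (Φ _) = θ p.1
        rw [e1, f1, (h0 p hp').1]; rfl
      · change Wr.sgn (Φ _) = θ p.2
        rw [e2, f2, (h0 p hp').2]; rfl
  have hker : gen (dbl a b L0) ≤ θ.ker := gen_le.2 fun p hp => triv_dbl hb h0 p hp
  have hs : ∀ x : gen (dbl a b L0), (Φ (Subgroup.inclusion (gen_dbl a b L0) x)).s = false := by
    intro x
    have h1 : Wr.sgn (Φ (Subgroup.inclusion (gen_dbl a b L0) x)) = θ x :=
      DFunLike.congr_fun hsgn (Subgroup.inclusion (gen_dbl a b L0) x)
    rw [MonoidHom.mem_ker.1 (hker x.2)] at h1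
    by_contra hne
    rw [Bool.not_eq_false] at hne
    change (if (Φ (Subgroup.inclusion (gen_dbl a b L0) x)).s then Multiplicative.ofAdd (1 : ZMod 2)
      else 1) = 1 at h1
    rw [hne, if_pos rfl] at h1
    revert h1
    decide
  let ψ : gen (dbl a b L0) →* K :=
    { toFun := fun x => (Φ (Subgroup.inclusion (gen_dbl a b L0) x)).x
      map_one' := by rw [map_one, map_one]; rfl
      map_mul' := fun x y => by rw [map_mul, map_mul, Wr.mul_x _ _ (hs x)] }
  refine ⟨ψ, ?_⟩
  -- evaluation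
  have key : ∀ D : List (gen ((a, b) :: L0) × gen ((a, b) :: L0)),
      (∀ p ∈ D, (p.1 : S) ∈ gen (dbl a b L0) ∧ (p.2 : S) ∈ gen (dbl a b L0)) →
      List.Forall₂ (Rel (gen (dbl a b L0)) ψ) (D.map (mp (gen ((a, b) :: L0)).subtype))
        (D.map fun p => ((Φ p.1).x, (Φ p.2).x)) := by
    intro D hD
    induction D with
    | nil => exact List.Forall₂.nil
    | cons p D ih =>
      refine List.Forall₂.cons ?_ (ih fun q hq => hD q (List.mem_cons_of_mem _ hq))
      exact ⟨(hD p List.mem_cons_self).1, (hD p List.mem_cons_self).2, rfl, rfl⟩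
  have hD1 : (dbl t.1 t.2 T0).map (mp (gen ((a, b) :: L0)).subtype) = dbl a b L0 := by
    rw [dbl_map, hT1']
    change dbl (t.1 : S) (t.2 : S) L0 = _
    rw [ta, tb]
  have hD2 : ((dbl t.1 t.2 T0).map fun p => ((Φ p.1).x, (Φ p.2).x)) = (u, v) :: (M1 ++ M2) := by
    have e1 : ((dbl t.1 t.2 T0).map fun p => ((Φ p.1).x, (Φ p.2).x)) =
        ((dbl t.1 t.2 T0).map (mp Φ)).map fun w => (w.1.x, w.2.x) := by
      rw [List.map_map]; rfl
    rw [e1, dbl_map, hT2', tA, tB]
    simp only [dbl, List.map_cons, List.map_append, List.map_map, List.cons.injEq, Prod.mk.injEq]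
    refine ⟨⟨?_, rfl⟩, ?_⟩
    · change 1 * u = u
      exact one_mul u
    · rw [← hN1, ← hN2]
      congr 1
      apply List.map_congr_left
      intro n _
      have h1 : ∀ w : K × K, (A * Wr.base w * A⁻¹).x = w.2 := by
        intro w
        change (1 * w.2) * (1 : K)⁻¹ = w.2
        simp
      exact Prod.ext (h1 n.1) (h1 n.2)
  rw [← hD2]
  conv => 
    arg 2
    rw [← hD1]
  apply key
  intro p hp
  have hp' : mp (gen ((a, b) :: L0)).subtype p ∈ dbl a b L0 := by
    rw [← hD1]; exact List.mem_map_of_mem hp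
  exact mem_gen _ hp'

end double

/-- **R4, double covers**: for a handle system with the lifting property and a homomorphism
`θ` to `Z/2` there is a handle system with the lifting property in the kernel of `θ`, with `k`
times the Euler number, `k > 0`. -/
theorem cover {S : Type} [Group S] (L : List (S × S)) (hL : Sys (gen L) L)
    (hcp : cp L = 1) (hne : L ≠ []) (θ : S →* Multiplicative (ZMod 2)) :
    ∃ L' : List (S × S), L' ≠ [] ∧ Sys (gen L') L' ∧ cp L' = 1 ∧ gen L' ≤ gen L ∧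
      (∀ p ∈ L', θ p.1 = 1 ∧ θ p.2 = 1) ∧
      ∃ k : ℕ, 0 < k ∧ ∀ (c : S → S → ℚ) (hc : IsCoc c), ev c hc L' = k * ev c hc L := by
  rcases normal θ L with h | ⟨m, a, b, L0, hm, ha, hb, h0⟩
  · exact ⟨L, hne, hL, hcp, le_rfl, h, 1, one_pos, fun c hc => by simp⟩
  · have h1 : cp ((a, b) :: L0) = 1 := by rw [← hm, m.cpf, hcp]
    have h2 := sys_mv m L hL
    rw [hm] at h2
    refine ⟨dbl a b L0, by simp [dbl], sys_dbl a b L0 θ ha hb h0 h2, ?_, ?_, triv_dbl hb h0, 2,
      two_pos, fun c hc => ?_⟩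
    · rw [cp_dbl a b L0 (by intro x; rw [h1, one_mul, mul_one]), h1, one_mul]
    · refine (gen_dbl a b L0).trans ?_
      rw [← hm]
      exact gen_mv m L
    · rw [ev_dbl c hc a b L0 h1, ← hm, ev_mv]
      norm_num

section surface

lemma cprod_get {G : Type*} [Group G] (L : List (G × G)) :
    cprod (fun i : Fin L.length => (L.get i).1) (fun i => (L.get i).2) = cp L := by
  unfold cprod cp
  congr 1
  conv_rhs => rw [← List.ofFn_get L, List.map_ofFn]
  rfl

/-- the surface group of a handle list with product of commutators one -/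
theorem exists_surf {G : Type*} [Group G] (L : List (G × G)) (hcp : cp L = 1) :
    ∃ ρ : SurfGrp L.length →* G, ∀ i, ρ (ga i) = (L.get i).1 ∧ ρ (gb i) = (L.get i).2 := by
  let f : Fin L.length × Bool → G := fun p => if p.2 then (L.get p.1).1 else (L.get p.1).2
  have hf : ∀ r ∈ ({srel L.length} : Set (FreeGroup (Fin L.length × Bool))),
      FreeGroup.lift f r = 1 := by
    intro r hr
    rw [Set.mem_singleton_iff] at hr
    rw [hr]
    unfold srel
    rw [map_cprod]
    simp only [FreeGroup.lift_apply_of]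
    rw [← hcp, ← cprod_get L]
    rfl
  refine ⟨PresentedGroup.toGroup hf, fun i => ⟨?_, ?_⟩⟩
  · change PresentedGroup.toGroup hf (PresentedGroup.of (i, true)) = _
    rw [PresentedGroup.toGroup.of]
    rfl
  · change PresentedGroup.toGroup hf (PresentedGroup.of (i, false)) = _
    rw [PresentedGroup.toGroup.of]
    rfl

/-- **injectivity**: a handle system with the lifting property spans a surface group -/
theorem sys_inj {S : Type} [Group S] {H : Subgroup S} {L : List (S × S)} (hL : Sys H L)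
    (ρ : SurfGrp L.length →* S)
    (hρ : ∀ i, ρ (ga i) = (L.get i).1 ∧ ρ (gb i) = (L.get i).2) : Function.Injective ρ := by
  let M : List (SurfGrp L.length × SurfGrp L.length) :=
    List.ofFn fun i : Fin L.length => (ga i, gb i)
  have hM : M.length = L.length := by simp [M]
  have hcM : cp M = 1 := by
    rw [← surf_rel L.length]
    unfold cp cprod
    congr 1
    rw [List.map_ofFn]
    rfl
  obtain ⟨φ, hφ⟩ := hL.2 _ M hM hcM
  have htop : (⊤ : Subgroup (SurfGrp L.length)) ≤ H.comap ρ := by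
    rw [← PresentedGroup.closure_range_of, Subgroup.closure_le]
    rintro _ ⟨⟨i, s⟩, rfl⟩
    have hp := hL.1 _ (List.get_mem L i)
    cases s
    · change ρ (gb i) ∈ H
      rw [(hρ i).2]; exact hp.2
    · change ρ (ga i) ∈ H
      rw [(hρ i).1]; exact hp.1
  have hr : ∀ x, ρ x ∈ H := fun x => htop (Subgroup.mem_top x)
  let ρ' : SurfGrp L.length →* H := ρ.codRestrict H hr
  have hid : φ.comp ρ' = MonoidHom.id _ := by
    apply PresentedGroup.ext
    rintro ⟨i, s⟩
    rw [List.forall₂_iff_get] at hφ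
    obtain ⟨h1, h2, h3, h4⟩ := hφ.2 i.1 i.2 (by rw [hM]; exact i.2)
    have e : M.get ⟨i.1, by rw [hM]; exact i.2⟩ = (ga i, gb i) := by simp [M]
    rw [e] at h3 h4
    cases s
    · exact (congrArg φ (Subtype.ext (hρ i).2 : ρ' (gb i) = ⟨_, h2⟩)).trans h4
    · exact (congrArg φ (Subtype.ext (hρ i).1 : ρ' (ga i) = ⟨_, h1⟩)).trans h3
  intro x y hxy
  have h1 : ρ' x = ρ' y := Subtype.ext hxy
  have h2 := congrArg φ h1
  exact (DFunLike.congr_fun hid x).symm.trans (h2.trans (DFunLike.congr_fun hid y))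

/-- the standard handles of a surface group -/
def std (g : ℕ) : List (SurfGrp g × SurfGrp g) := List.ofFn fun i : Fin g => (ga i, gb i)

lemma std_length (g : ℕ) : (std g).length = g := by simp [std]

lemma cp_std (g : ℕ) : cp (std g) = 1 := by
  rw [← surf_rel g]
  unfold cp cprod std
  congr 1
  rw [List.map_ofFn]
  rfl

/-- the standard handles have the lifting property -/
theorem sys_std (g : ℕ) (H : Subgroup (SurfGrp g)) (hH : gen (std g) ≤ H) : Sys H (std g) := by
  have hm : ∀ p ∈ std g, p.1 ∈ H ∧ p.2 ∈ H := gen_le.1 hH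
  refine ⟨hm, fun K _ M hM hcp => ?_⟩
  rw [std_length] at hM
  subst hM
  obtain ⟨ρ, hρ⟩ := exists_surf M hcp
  refine ⟨ρ.comp H.subtype, ?_⟩
  rw [List.forall₂_iff_get]
  refine ⟨std_length _, fun i h1 h2 => ?_⟩
  have e : (std M.length).get ⟨i, h1⟩ = (ga ⟨i, h2⟩, gb ⟨i, h2⟩) := by simp [std]
  have h3 := hm _ (List.get_mem (std M.length) ⟨i, h1⟩)
  refine ⟨h3.1, h3.2, ?_, ?_⟩
  · change ρ ((std M.length).get ⟨i, h1⟩).1 = _
    rw [e]; exact (hρ ⟨i, h2⟩).1
  · change ρ ((std M.length).get ⟨i, h1⟩).2 = _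
    rw [e]; exact (hρ ⟨i, h2⟩).2

/-- the lifting property under injective homomorphisms -/
theorem sys_map {G S : Type} [Group G] [Group S] (f : G →* S) (hf : Function.Injective f)
    {L : List (G × G)} (hL : Sys (gen L) L) : Sys (gen (L.map (mp f))) (L.map (mp f)) := by
  refine ⟨mem_gen, fun K _ M hM hcp => ?_⟩
  rw [List.length_map] at hM
  obtain ⟨φ, hφ⟩ := hL.2 K M hM hcp
  have hle : gen (L.map (mp f)) ≤ (gen L).map f := by
    rw [gen_le]
    intro p hp
    obtain ⟨q, hq, rfl⟩ := List.mem_map.1 hp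
    exact ⟨⟨_, (mem_gen q hq).1, rfl⟩, ⟨_, (mem_gen q hq).2, rfl⟩⟩
  let e : gen L ≃* (gen L).map f := (gen L).equivMapOfInjective f hf
  refine ⟨(φ.comp e.symm.toMonoidHom).comp (Subgroup.inclusion hle), ?_⟩
  have key : ∀ (D : List (G × G)) (M : List (K × K)), List.Forall₂ (Rel (gen L) φ) D M →
      (∀ p ∈ D, p ∈ L) →
      List.Forall₂ (Rel (gen (L.map (mp f))) ((φ.comp e.symm.toMonoidHom).comp
        (Subgroup.inclusion hle))) (D.map (mp f)) M := by
    intro D M h hD
    induction h with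
    | nil => exact List.Forall₂.nil
    | @cons p m D M h0 _ ih =>
      refine List.Forall₂.cons ?_ (ih fun q hq => hD q (List.mem_cons_of_mem _ hq))
      obtain ⟨a, b, c, d⟩ := h0
      have hp := mem_gen _ (List.mem_map_of_mem (f := mp f) (hD p List.mem_cons_self))
      refine ⟨hp.1, hp.2, ?_, ?_⟩
      · rw [← c]
        change φ (e.symm ⟨f p.1, _⟩) = _
        congr 1
        rw [MulEquiv.symm_apply_eq]
        rfl
      · rw [← d]
        change φ (e.symm ⟨f p.2, _⟩) = _
        congr 1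
        rw [MulEquiv.symm_apply_eq]
        rfl
  exact key L M hφ fun p hp => hp

/-- Euler numbers in terms of the fundamental bar cycle -/
lemma ev_lin {S : Type*} [Group S] (c : S → S → ℚ) (hc : IsCoc c) (L : List (S × S)) :
    ev c hc L = lin c (sfc (fun i : Fin L.length => (L.get i).1) (fun i => (L.get i).2)) := by
  have h := cprod_lift (c := c) (hc := hc) (fun i : Fin L.length => (⟨0, (L.get i).1⟩ : Ex c hc))
    (fun i => ⟨0, (L.get i).2⟩)
  have h2 : cprod (fun i : Fin L.length => (⟨0, (L.get i).1⟩ : Ex c hc))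
      (fun i => (⟨0, (L.get i).2⟩ : Ex c hc)) = cp (lf c hc L) := by
    unfold cprod cp lf
    congr 1
    rw [List.map_map]
    conv_rhs => rw [← List.ofFn_get L, List.map_ofFn]
    rfl
  rw [ev_eq L (lf c hc L) (lf_pr L), ← h2, h]
  ring

/-- Euler numbers and homomorphisms -/
lemma ev_map {G S : Type*} [Group G] [Group S] (f : G →* S) (c : S → S → ℚ) (hc : IsCoc c)
    (hc' : IsCoc fun x y : G => c (f x) (f y)) (L : List (G × G)) :
    ev c hc (L.map (mp f)) = ev (fun x y => c (f x) (f y)) hc' L := by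
  let F : Ex (fun x y : G => c (f x) (f y)) hc' →* Ex c hc :=
    { toFun := fun z => ⟨z.v, f z.g⟩
      map_one' := by
        apply Ex.ext
        · simp
        · simp
      map_mul' := fun x y => by
        apply Ex.ext
        · simp
        · simp }
  rw [ev_eq (L.map (mp f)) ((lf _ hc' L).map (mp F)) ?_, cp_map, ev_eq L (lf _ hc' L) (lf_pr L)]
  · have h1 : (F (cp (lf _ hc' L))).v = (cp (lf _ hc' L)).v := rfl
    rw [h1, map_one]
  · rw [List.map_map, lf, List.map_map]
    rfl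

end surface

end RC
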