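import Pool.Agent.Helper66.SH.Clo

/-! Right-angled Coxeter groups, induced cycles, handle lists. -/

namespace RC

open SH

section rag

variable {V : Type}

/-- relators of the right-angled Coxeter group of a graph: `v²`, and `(uv)²` for edges `uv` -/
def racRels (Γ : SimpleGraph V) : Set (FreeGroup V) :=
  {r | (∃ v, r = FreeGroup.of v * FreeGroup.of v) ∨
    ∃ u v, Γ.Adj u v ∧ r = (FreeGroup.of u * FreeGroup.of v) * (FreeGroup.of u * FreeGroup.of v)}

/-- the right-angled Coxeter group of a graph -/
abbrev RAC (Γ : SimpleGraph V) : Type := PresentedGroup (racRels Γ)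

/-- an induced cycle of length `n`, indexed by the natural numbers below `n`, with `c n = c 0` -/
structure IndCyc (Γ : SimpleGraph V) (n : ℕ) (c : ℕ → V) : Prop where
  closed : c n = c 0
  inj : ∀ i j, i < n → j < n → c i = c j → i = j
  adj : ∀ i, i < n → Γ.Adj (c i) (c (i + 1))
  ind : ∀ i j, i < n → j < n → Γ.Adj (c i) (c j) →
    j = i + 1 ∨ i = j + 1 ∨ (i = 0 ∧ j + 1 = n) ∨ (j = 0 ∧ i + 1 = n)

end rag

section handles

variable {G : Type*} [Group G]

/-- product of the commutators of a list of handles -/
def cp (L : List (G × G)) : G := (L.map fun p => cm p.1 p.2).prod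

/-- both entries of the pairs are related by a homomorphism defined on `H` -/
def Rel {S : Type*} [Group S] (H : Subgroup S) (φ : H →* G) (p : S × S) (m : G × G) : Prop :=
  ∃ (h1 : p.1 ∈ H) (h2 : p.2 ∈ H), φ ⟨p.1, h1⟩ = m.1 ∧ φ ⟨p.2, h2⟩ = m.2

/-- `L` is a handle system of `H` with the lifting property: every list of handles `M` of the
same length with product of commutators `1`, in any group `K`, is the image of `L` under a
homomorphism `H → K` -/
def Sys {S : Type} [Group S] (H : Subgroup S) (L : List (S × S)) : Prop :=
  (∀ p ∈ L, p.1 ∈ H ∧ p.2 ∈ H) ∧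
  ∀ (K : Type) [Group K] (M : List (K × K)), M.length = L.length → cp M = 1 →
    ∃ φ : H →* K, List.Forall₂ (Rel H φ) L M

/-- Euler number of a list of handles: central coordinate of the product of commutators of
lifts to the central extension -/
noncomputable def ev {S : Type*} [Group S] (c : S → S → ℚ) (hc : IsCoc c) (L : List (S × S)) : ℚ :=
  (cp (L.map fun p => ((⟨0, p.1⟩ : Ex c hc), (⟨0, p.2⟩ : Ex c hc)))).v + c 1 1

end handles

end RC
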