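import Pool.Agent.Helper6.RC.Defs

set_option autoImplicit false

/-! Row 8: Q1 from the vanishing criterion for cocycles, and passage to finite overgroups. -/

namespace RC
open SH

/-- if every cocycle of `N` which vanishes on all surface subgroups of positive genus is a
coboundary, then every rational class of `N` is virtually a sum of surface subgroups -/
theorem Q1_of_dual {N : Type} [Group N]
    (hcob : ∀ c : N → N → ℚ, IsCoc c →
      (∀ (g : ℕ), 1 ≤ g → ∀ ρ : SurfGrp g →* N, Function.Injective ρ →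
        lin c (sfc (fun i => ρ (ga i)) (fun i => ρ (gb i))) = 0) → IsCob c) : Q1 N := by
  apply Q1_of_span (J := {x : (g : ℕ) × (SurfGrp g →* N) // 1 ≤ x.1 ∧ Function.Injective x.2})
    (fun j => j.1.1) (fun j => j.1.2) (fun j => j.2.2)
  apply span_of_dual
  intro c hc h
  apply hcob c hc
  intro g hg ρ hρ
  have h1 := h (z2 ρ ⟨sfc (fun i => ga i) (fun i => gb i), sfc_cycle _ _ (surf_rel g)⟩)
    ⟨⟨⟨g, ρ⟩, hg, hρ⟩, rfl⟩
  rw [z2_val] at h1
  rw [← c2_sfc]
  exact h1

/-- Q1 passes to overgroups of finite index -/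
theorem Q1_of_range {N G : Type*} [Group N] [Group G] (ι : N →* G) (hι : Function.Injective ι)
    (hf : ι.range.FiniteIndex) (hQ : Q1 N) : Q1 G :=
  haveI := hf
  Q1_of_finiteIndex ι.range (Q1_of_equiv (MonoidHom.ofInjective hι) hQ)

/-- both steps together -/
theorem Q1_of_dual_range {N : Type} {G : Type*} [Group N] [Group G] (ι : N →* G)
    (hι : Function.Injective ι) (hf : ι.range.FiniteIndex)
    (hcob : ∀ c : N → N → ℚ, IsCoc c →
      (∀ (g : ℕ), 1 ≤ g → ∀ ρ : SurfGrp g →* N, Function.Injective ρ →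
        lin c (sfc (fun i => ρ (ga i)) (fun i => ρ (gb i))) = 0) → IsCob c) : Q1 G :=
  Q1_of_range ι hι hf (Q1_of_dual hcob)

end RC
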