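import Pool.Agent.Helper6.RC.Poly

/-! Evaluation of the handles of the doubled polygon in a central extension. -/

namespace RC

open SH

section

variable {E : Type*} [Group E]

/-- the doubled sequence -/
def dblT (n : ℕ) (T : ℕ → E) (i : ℕ) : E :=
  if i + 1 < n then T i else T (n - 1) * (T (2 * n - 4 - i))⁻¹ * T (n - 1)

lemma sum_Q (m : ℕ) (hm : 2 ≤ m) (q : ℕ → ℚ) :
    ∑ i ∈ Finset.range (2 * m), (if i < m then q i
      else q (2 * m - 1 - i) + (if i = m then 2 * q m else 0))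
      = 2 * ∑ i ∈ Finset.range m, q i + 2 * q m := by
  rw [two_mul m, Finset.sum_range_add]
  have h1 : ∑ i ∈ Finset.range m, (if i < m then q i
      else q (m + m - 1 - i) + (if i = m then 2 * q m else 0)) = ∑ i ∈ Finset.range m, q i := by
    apply Finset.sum_congr rfl
    intro i hi
    rw [if_pos (Finset.mem_range.1 hi)]
  have h2 : ∑ i ∈ Finset.range m, (if m + i < m then q (m + i)
      else q (m + m - 1 - (m + i)) + (if m + i = m then 2 * q m else 0))
      = ∑ i ∈ Finset.range m, (q (m - 1 - i) + (if i = 0 then 2 * q m else 0)) := by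
    apply Finset.sum_congr rfl
    intro i hi
    rw [if_neg (by omega), show m + m - 1 - (m + i) = m - 1 - i by omega]
    congr 1
    by_cases h : i = 0
    · rw [if_pos h, if_pos (by omega)]
    · rw [if_neg h, if_neg (by omega)]
  rw [h1, h2, Finset.sum_add_distrib, Finset.sum_range_reflect, Finset.sum_ite_eq' ,
    if_pos (Finset.mem_range.2 (by omega))]
  ring

variable (z : ℚ → E) (hadd : ∀ x y, z (x + y) = z x * z y) (hz : ∀ v x, z v * x = x * z v)

include hadd in
lemma z_zero : z 0 = 1 := by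
  have := hadd 0 0
  rw [add_zero] at this
  exact left_eq_mul.1 this

include hadd in
lemma z_neg (x : ℚ) : z (-x) = (z x)⁻¹ := by
  rw [eq_inv_iff_mul_eq_one, ← hadd, neg_add_cancel, z_zero z hadd]

include hadd in
lemma zP_z (Q : ℕ → ℚ) (j : ℕ) : zP (fun i => z (Q i)) j
    = z (-∑ i ∈ Finset.range (2 * j), Q (i + 1)) := by
  induction j with
  | zero => simp [zP, z_zero z hadd]
  | succ j ih =>
    rw [zP, ih, show 2 * (j + 1) = 2 * j + 1 + 1 by ring, Finset.sum_range_succ,
      Finset.sum_range_succ, ← z_neg z hadd, ← z_neg z hadd, ← hadd, ← hadd]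
    congr 1
    ring

include hz in
lemma z_mid (v : ℚ) (x y : E) : x * z v * y = z v * (x * y) := by
  rw [← hz, mul_assoc]

include hz in
lemma z_two (v w : ℚ) (x y : E) : x * z v * (y * z w) = z v * z w * (x * y) := by
  rw [z_mid z hz, ← hz w y, ← mul_assoc x, z_mid z hz, mul_assoc]

include hadd hz in
lemma dblT_step (m : ℕ) (hm : 2 ≤ m) (T : ℕ → E) (q : ℕ → ℚ)
    (h : ∀ i, i ≤ m → (T i)⁻¹ * T (i + 1) * ((T i)⁻¹ * T (i + 1)) = z (q i))
    (i : ℕ) (hi : i < 2 * m) :
    (dblT (m + 2) T i)⁻¹ * dblT (m + 2) T (i + 1) * ((dblT (m + 2) T i)⁻¹ * dblT (m + 2) T (i + 1))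
      = z (if i < m then q i
          else q (2 * m - 1 - i) + (if i = m then 2 * q m else 0)) := by
  rcases Nat.lt_or_ge i m with h1 | h1
  · rw [if_pos h1]
    unfold dblT
    rw [if_pos (by omega), if_pos (by omega)]
    exact h i (by omega)
  · rw [if_neg (by omega)]
    rcases Nat.eq_or_lt_of_le h1 with h2 | h2
    · subst h2
      rw [if_pos rfl]
      unfold dblT
      rw [if_pos (by omega), if_neg (by omega), show m + 2 - 1 = m + 1 by omega,
        show 2 * (m + 2) - 4 - (m + 1) = m - 1 by omega, show 2 * m - 1 - m = m - 1 by omega]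
      have e1 := h m le_rfl
      have e2 := h (m - 1) (by omega)
      rw [show m - 1 + 1 = m by omega] at e2
      have e3 : (T m)⁻¹ * (T (m + 1) * (T (m - 1))⁻¹ * T (m + 1))
          = ((T m)⁻¹ * T (m + 1)) * ((T (m - 1))⁻¹ * T m) * ((T m)⁻¹ * T (m + 1)) := by group
      rw [e3]
      generalize (T m)⁻¹ * T (m + 1) = f at e1 ⊢
      generalize (T (m - 1))⁻¹ * T m = k at e2 ⊢
      calc f * k * f * (f * k * f) = f * k * (f * f) * (k * f) := by simp only [mul_assoc]
        _ = z (q m) * (f * (k * k) * f) := by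
            rw [e1, z_mid z hz]
            simp only [mul_assoc]
        _ = z (q m) * (z (q (m - 1)) * (f * f)) := by
            rw [e2, z_mid z hz]
        _ = _ := by
            rw [e1, ← hadd, ← hadd]
            congr 1
            ring
    · rw [if_neg (by omega), add_zero]
      unfold dblT
      rw [if_neg (by omega), if_neg (by omega), show m + 2 - 1 = m + 1 by omega,
        show 2 * (m + 2) - 4 - i = 2 * m - 1 - i + 1 by omega,
        show 2 * (m + 2) - 4 - (i + 1) = 2 * m - 1 - i by omega]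
      have e := h (2 * m - 1 - i) (by omega)
      generalize T (2 * m - 1 - i) = a at e ⊢
      generalize T (2 * m - 1 - i + 1) = b at e ⊢
      generalize T (m + 1) = l
      have e4 : (l * b⁻¹ * l)⁻¹ * (l * a⁻¹ * l) * ((l * b⁻¹ * l)⁻¹ * (l * a⁻¹ * l))
          = (l⁻¹ * a) * (a⁻¹ * b * (a⁻¹ * b)) * (l⁻¹ * a)⁻¹ := by group
      rw [e4, e, ← hz, mul_assoc, mul_inv_cancel, mul_one]

include hadd hz in
/-- the product of the commutators of the handles of the doubled polygon -/
theorem Rp_dblT (n : ℕ) (hn : 4 ≤ n) (T : ℕ → E) (q : ℕ → ℚ)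
    (h : ∀ i, i + 1 < n → (T i)⁻¹ * T (i + 1) * ((T i)⁻¹ * T (i + 1)) = z (q i))
    (h0 : (T (n - 1))⁻¹ * T 0 * ((T (n - 1))⁻¹ * T 0) = z (q (n - 1))) :
    Rp (hA (dblT n T)) (hB (dblT n T)) (n - 3) = z (-2 * ∑ i ∈ Finset.range n, q i) := by
  obtain ⟨m, rfl⟩ : ∃ m, n = m + 2 := ⟨n - 2, by omega⟩
  have hm : 2 ≤ m := by omega
  rw [show m + 2 - 3 = m - 1 by omega]
  rw [show m + 2 - 1 = m + 1 by omega] at h0
  have hs := dblT_step z hadd hz m hm T q (fun i hi => h i (by omega))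
  have hsum := sum_Q m hm q
  set Q : ℕ → ℚ := fun i => if i < m then q i
    else q (2 * m - 1 - i) + (if i = m then 2 * q m else 0) with hQ
  have hR := Rp_handles (m - 1) (dblT (m + 2) T) (fun i => z (Q i))
    (fun i x => hz _ x) (fun i hi1 hi2 => hs i (by omega)) (m - 1) le_rfl
  rw [hR, zP_z z hadd Q, hs 0 (by omega)]
  have hlast := hs (2 * m - 1) (by omega)
  rw [show 2 * m - 1 + 1 = 2 * m by omega] at hlast
  have hN : dblT (m + 2) T (2 * m) = T 0 * z (-q (m + 1)) := by
    unfold dblT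
    rw [if_neg (by omega), show m + 2 - 1 = m + 1 by omega,
      show 2 * (m + 2) - 4 - 2 * m = 0 by omega]
    have : T (m + 1) * (T 0)⁻¹ * T (m + 1)
        = T 0 * ((T (m + 1))⁻¹ * T 0 * ((T (m + 1))⁻¹ * T 0))⁻¹ := by group
    rw [this, h0, z_neg z hadd]
  have h00 : dblT (m + 2) T 0 = T 0 := by
    unfold dblT
    rw [if_pos (by omega)]
  rw [hN] at hlast
  rw [show 2 * (m - 1) + 1 = 2 * m - 1 by omega, h00]
  have hD : (T 0)⁻¹ * dblT (m + 2) T (2 * m - 1) * ((T 0)⁻¹ * dblT (m + 2) T (2 * m - 1))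
      = z (-Q (2 * m - 1) - 2 * q (m + 1)) := by
    change _ = z (Q (2 * m - 1)) at hlast
    generalize Q (2 * m - 1) = w at hlast ⊢
    generalize dblT (m + 2) T (2 * m - 1) = d at hlast
    have e1 : (T 0)⁻¹ * d * ((T 0)⁻¹ * d) = (d⁻¹ * T 0 * (d⁻¹ * T 0))⁻¹ := by group
    have e3 : d⁻¹ * (T 0 * z (-q (m + 1))) = d⁻¹ * T 0 * z (-q (m + 1)) := by rw [mul_assoc]
    rw [e3, z_two z hz, ← hadd, ← eq_inv_mul_iff_mul_eq, ← z_neg z hadd, ← hadd] at hlast
    rw [e1, hlast, ← z_neg z hadd]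
    congr 1
    ring
  rw [hD, ← z_neg z hadd, ← hadd, ← hadd]
  congr 1
  have hr : ∑ i ∈ Finset.range (2 * m), Q i
      = Q 0 + ∑ i ∈ Finset.range (2 * (m - 1)), Q (i + 1) + Q (2 * m - 1) := by
    rw [show 2 * m = 2 * (m - 1) + 1 + 1 by omega, Finset.sum_range_succ,
      Finset.sum_range_succ', show 2 * (m - 1) + 1 + 1 - 1 = 2 * (m - 1) + 1 by omega]
    ring
  rw [hr] at hsum
  rw [Finset.sum_range_succ, Finset.sum_range_succ]
  show -∑ i ∈ Finset.range (2 * (m - 1)), Q (i + 1) + (-Q 0 + (-Q (2 * m - 1) - 2 * q (m + 1))) = _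
  linarith

end

end RC
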