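import Pool.Agent.Helper6.RC.Cover

/-!
# Iterated double covers and restriction to the kernel of a homomorphism to `(Z/2)^V`
-/

namespace RC
open SH

/-- iteration of `cover` -/
theorem cover_iter {S : Type} [Group S] {ι : Type} (T : Finset ι)
    (θ : ι → S →* Multiplicative (ZMod 2)) (L : List (S × S)) (hL : Sys (gen L) L)
    (hcp : cp L = 1) (hne : L ≠ []) :
    ∃ L' : List (S × S), L' ≠ [] ∧ Sys (gen L') L' ∧ cp L' = 1 ∧ gen L' ≤ gen L ∧
      (∀ v ∈ T, gen L' ≤ (θ v).ker) ∧
      ∃ k : ℕ, 0 < k ∧ ∀ (c : S → S → ℚ) (hc : IsCoc c), ev c hc L' = k * ev c hc L := by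
  classical
  induction T using Finset.induction_on with
  | empty => exact ⟨L, hne, hL, hcp, le_rfl, by simp, 1, one_pos, fun c hc => by simp⟩
  | insert v T _ ih =>
    obtain ⟨L1, h1, h2, h3, h4, h5, k, hk, h6⟩ := ih
    obtain ⟨L2, g1, g2, g3, g4, g5, l, hl, g6⟩ := cover L1 h2 h3 h1 (θ v)
    refine ⟨L2, g1, g2, g3, g4.trans h4, ?_, l * k, Nat.mul_pos hl hk, fun c hc => ?_⟩
    · intro w hw
      rcases Finset.mem_insert.1 hw with rfl | hw
      · exact gen_le.2 fun p hp => ⟨MonoidHom.mem_ker.2 (g5 p hp).1, MonoidHom.mem_ker.2 (g5 p hp).2⟩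
      · exact g4.trans (h5 w hw)
    · rw [g6, h6]
      push_cast
      ring

/-- Euler number of a family of handles -/
lemma ev_ofFn {S : Type*} [Group S] (c : S → S → ℚ) (hc : IsCoc c) {g : ℕ} (x y : Fin g → S) :
    ev c hc (List.ofFn fun i => (x i, y i)) = lin c (sfc x y) := by
  have h := cprod_lift (c := c) (hc := hc) (fun i : Fin g => (⟨0, x i⟩ : Ex c hc))
    (fun i => ⟨0, y i⟩)
  have h2 : cprod (fun i : Fin g => (⟨0, x i⟩ : Ex c hc))
      (fun i => (⟨0, y i⟩ : Ex c hc)) = cp (lf c hc (List.ofFn fun i => (x i, y i))) := by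
    unfold cprod cp lf
    congr 1
    rw [List.map_ofFn, List.map_ofFn]
    rfl
  rw [ev_eq _ (lf c hc (List.ofFn fun i => (x i, y i))) (lf_pr _), ← h2, h]
  ring

section row7

/-- R7, strong form: let `N` be the kernel of a homomorphism to `(Z/2)^V`, `d` a cocycle on a
subgroup `K ⊇ N` whose restriction to `N` is a sum of conjugates of a cocycle `c` on `N`, `f` an
injective surface group in `K`; if `c` vanishes on all injective surface groups of `N` which are
conjugate to subgroups of the image of `f`, then `d` vanishes on `f`. -/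
theorem lin_zero_of_sum' {W : Type} [Group W] {V : Type} [Fintype V]
    (π : W →* Multiplicative (V → ZMod 2)) (c : π.ker → π.ker → ℚ) (_hc : IsCoc c)
    (K : Subgroup W) (_hK : π.ker ≤ K) (d : K → K → ℚ) (hd : IsCoc d)
    {ι : Type} (s : Finset ι) (r : ι → W)
    (hres : ∀ (g h : π.ker) (hg : (g : W) ∈ K) (hh : (h : W) ∈ K),
      d ⟨g, hg⟩ ⟨h, hh⟩ = ∑ b ∈ s,
        c ⟨(r b)⁻¹ * g * r b, by
            rw [MonoidHom.mem_ker, map_mul, map_mul, MonoidHom.mem_ker.1 g.2, mul_one, ← map_mul,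
              inv_mul_cancel, map_one]⟩
          ⟨(r b)⁻¹ * h * r b, by
            rw [MonoidHom.mem_ker, map_mul, map_mul, MonoidHom.mem_ker.1 h.2, mul_one, ← map_mul,
              inv_mul_cancel, map_one]⟩)
    (g : ℕ) (hg : 1 ≤ g) (f : SurfGrp g →* K) (hf : Function.Injective f)
    (hz : ∀ (g : ℕ) (ρ : SurfGrp g →* π.ker), 1 ≤ g → Function.Injective ρ →
      (∃ w : W, ∀ x, w * (ρ x : W) * w⁻¹ ∈ (K.subtype.comp f).range) →
      lin c (sfc (fun i => ρ (ga i)) (fun i => ρ (gb i))) = 0) :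
    lin d (sfc (fun i => f (ga i)) (fun i => f (gb i))) = 0 := by
  classical
  -- the handles of `f`
  have h0 := sys_map f hf (sys_std g (gen (std g)) le_rfl)
  have h1 : cp ((std g).map (mp f)) = 1 := by rw [cp_map, cp_std, map_one]
  have h2 : (std g).map (mp f) ≠ [] := by
    intro h
    have h3 := congrArg List.length h
    rw [List.length_map, std_length, List.length_nil] at h3
    omega
  have h3 : (std g).map (mp f) = List.ofFn fun i => (f (ga i), f (gb i)) := by
    rw [std, List.map_ofFn]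
    rfl
  -- the coordinates
  let e : V → Multiplicative (V → ZMod 2) →* Multiplicative (ZMod 2) := fun v =>
    AddMonoidHom.toMultiplicative (Pi.evalAddMonoidHom (fun _ : V => ZMod 2) v)
  obtain ⟨L, a1, a2, a3, a4, a5, k, hk, a6⟩ := cover_iter (Finset.univ : Finset V)
    (fun v => (e v).comp (π.comp K.subtype)) _ h0 h1 h2
  have hker : ∀ x ∈ gen L, (x : W) ∈ π.ker := by
    intro x hx
    rw [MonoidHom.mem_ker]
    apply Multiplicative.toAdd.injective
    funext v
    exact congrArg Multiplicative.toAdd (MonoidHom.mem_ker.1 (a5 v (Finset.mem_univ v) hx))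
  obtain ⟨ρ, hρ⟩ := exists_surf L a3
  have hρi : Function.Injective ρ := sys_inj a2 ρ hρ
  have hρg : ∀ x, ρ x ∈ gen L := by
    have htop : (⊤ : Subgroup (SurfGrp L.length)) ≤ (gen L).comap ρ := by
      rw [← PresentedGroup.closure_range_of, Subgroup.closure_le]
      rintro _ ⟨⟨i, s⟩, rfl⟩
      have hp := mem_gen _ (List.get_mem L i)
      cases s
      · change ρ (gb i) ∈ gen L
        rw [(hρ i).2]; exact hp.2
      · change ρ (ga i) ∈ gen L
        rw [(hρ i).1]; exact hp.1
    exact fun x => htop (Subgroup.mem_top x)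
  have hρk : ∀ x, (ρ x : W) ∈ π.ker := fun x => hker _ (hρg x)
  -- the conjugates
  let σ : ι → SurfGrp L.length →* π.ker := fun b =>
    { toFun := fun x => ⟨(r b)⁻¹ * (ρ x : W) * r b, by
        rw [MonoidHom.mem_ker, map_mul, map_mul, MonoidHom.mem_ker.1 (hρk x), mul_one, ← map_mul,
          inv_mul_cancel, map_one]⟩
      map_one' := by
        apply Subtype.ext
        simp
      map_mul' := fun x y => by
        apply Subtype.ext
        simp [mul_assoc] }
  have hσ : ∀ b, Function.Injective (σ b) := by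
    intro b x y hxy
    apply hρi
    apply Subtype.ext
    have h4 := congrArg Subtype.val hxy
    change (r b)⁻¹ * (ρ x : W) * r b = (r b)⁻¹ * (ρ y : W) * r b at h4
    exact mul_left_cancel (mul_right_cancel h4)
  have hlen : 1 ≤ L.length := by
    rcases L with _ | ⟨p, L⟩
    · exact absurd rfl a1
    · simp
  have hpull : ∀ {G H : Type} [Group G] [Group H] (φ : G →* H) (u : H → H → ℚ) (z : C2 G),
      lin u (c2 φ z) = lin (fun x y => u (φ x) (φ y)) z := by
    intro G H _ _ φ u z
    have : (lin u).comp (c2 φ) = lin (fun x y => u (φ x) (φ y)) := by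
      apply Finsupp.lhom_ext
      rintro ⟨a, b⟩ q
      rw [LinearMap.comp_apply, c2_single, lin_single, lin_single]
    exact LinearMap.congr_fun this z
  have hsum : ∀ z : C2 (SurfGrp L.length), lin (fun x y => d (ρ x) (ρ y)) z =
      ∑ b ∈ s, lin (fun x y => c (σ b x) (σ b y)) z := by
    intro z
    have : lin (fun x y => d (ρ x) (ρ y)) = ∑ b ∈ s, lin (fun x y => c (σ b x) (σ b y)) := by
      apply Finsupp.lhom_ext
      rintro ⟨x, y⟩ q
      rw [LinearMap.sum_apply, lin_single]
      simp only [lin_single]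
      rw [← Finset.smul_sum]
      congr 1
      exact hres ⟨ρ x, hρk x⟩ ⟨ρ y, hρk y⟩ (ρ x).2 (ρ y).2
    rw [this, LinearMap.sum_apply]
  have h5 : ev d hd L = 0 := by
    rw [ev_lin]
    have h6 : sfc (fun i : Fin L.length => (L.get i).1) (fun i => (L.get i).2) =
        c2 ρ (sfc (fun i => ga i) (fun i => gb i)) := by
      rw [c2_sfc]
      congr 1
      · funext i; exact (hρ i).1.symm
      · funext i; exact (hρ i).2.symm
    rw [h6, hpull, hsum]
    apply Finset.sum_eq_zero
    intro b _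
    rw [← hpull, c2_sfc]
    refine hz L.length (σ b) hlen (hσ b) ⟨r b, fun x => ?_⟩
    have h8 : gen ((std g).map (mp f)) ≤ f.range := by
      rw [gen_le]
      intro p hp
      obtain ⟨q, _, rfl⟩ := List.mem_map.1 hp
      exact ⟨⟨q.1, rfl⟩, ⟨q.2, rfl⟩⟩
    obtain ⟨y, hy⟩ := h8 (a4 (hρg x))
    refine ⟨y, ?_⟩
    change (f y : W) = r b * ((r b)⁻¹ * (ρ x : W) * r b) * (r b)⁻¹
    rw [hy]
    group
  have h6 := a6 d hd
  rw [h5, h3, ev_ofFn] at h6
  have hk0 : (k : ℚ) ≠ 0 := by exact_mod_cast hk.ne'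
  rcases mul_eq_zero.1 h6.symm with h7 | h7
  · exact absurd h7 hk0
  · exact h7

/-- R7: let `N` be the kernel of a homomorphism to `(Z/2)^V`, `c` a cocycle on `N` which vanishes
on all injective surface groups of `N`, `d` a cocycle on a subgroup `K ⊇ N` whose restriction to `N`
is a sum of conjugates of `c`; then `d` vanishes on all injective surface groups of `K`. -/
theorem lin_zero_of_sum {W : Type} [Group W] {V : Type} [Fintype V]
    (π : W →* Multiplicative (V → ZMod 2)) (c : π.ker → π.ker → ℚ) (hc : IsCoc c)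
    (hz : ∀ (g : ℕ) (ρ : SurfGrp g →* π.ker), 1 ≤ g → Function.Injective ρ →
      lin c (sfc (fun i => ρ (ga i)) (fun i => ρ (gb i))) = 0)
    (K : Subgroup W) (hK : π.ker ≤ K) (d : K → K → ℚ) (hd : IsCoc d)
    {ι : Type} (s : Finset ι) (r : ι → W)
    (hres : ∀ (g h : π.ker) (hg : (g : W) ∈ K) (hh : (h : W) ∈ K),
      d ⟨g, hg⟩ ⟨h, hh⟩ = ∑ b ∈ s,
        c ⟨(r b)⁻¹ * g * r b, by
            rw [MonoidHom.mem_ker, map_mul, map_mul, MonoidHom.mem_ker.1 g.2, mul_one, ← map_mul,
              inv_mul_cancel, map_one]⟩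
          ⟨(r b)⁻¹ * h * r b, by
            rw [MonoidHom.mem_ker, map_mul, map_mul, MonoidHom.mem_ker.1 h.2, mul_one, ← map_mul,
              inv_mul_cancel, map_one]⟩)
    (g : ℕ) (hg : 1 ≤ g) (f : SurfGrp g →* K) (hf : Function.Injective f) :
    lin d (sfc (fun i => f (ga i)) (fun i => f (gb i))) = 0 :=
  lin_zero_of_sum' π c hc K hK d hd s r hres g hg f hf fun g ρ h1 h2 _ => hz g ρ h1 h2

end row7

end RC
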