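import Pool.Agent.Helper6.RC.Split3
import Pool.Agent.Helper6.RC.Cor
import Pool.Agent.Helper6.RC.Dual
import Pool.Agent.Helper6.RC.Iter

/-! The second homology of the commutator subgroup of a right-angled Coxeter group. -/

namespace RC

open SH

section polymem

variable {V : Type} {Γ : SimpleGraph V} {n : ℕ} {c : ℕ → V}

/-- the subgroup generated by the vertices of a cycle -/
def cycG (Γ : SimpleGraph V) (n : ℕ) (c : ℕ → V) : Subgroup (RAC Γ) :=
  Subgroup.closure {y | ∃ i, i < n ∧ y = PresentedGroup.of (c i)}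

lemma tt_mem (hn : 4 ≤ n) (i : ℕ) : tt Γ n c i ∈ cycG Γ n c := by
  have h : ∀ j, j < n → sg Γ (c j) ∈ cycG Γ n c := fun j hj =>
    Subgroup.subset_closure ⟨j, hj, rfl⟩
  unfold tt
  split_ifs with h1
  · exact h _ (by omega)
  · exact Subgroup.mul_mem _ (Subgroup.mul_mem _ (h _ (by omega)) (h _ (by omega)))
      (h _ (by omega))

lemma phi_mem (hc : IndCyc Γ n c) (hn : 4 ≤ n) (x : SurfGrp (n - 3)) :
    phi hc hn x ∈ cycG Γ n c := by
  have h : (⊤ : Subgroup (SurfGrp (n - 3))) ≤ (cycG Γ n c).comap (phi hc hn) := by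
    rw [← PresentedGroup.closure_range_of, Subgroup.closure_le]
    rintro _ ⟨⟨i, b⟩, rfl⟩
    cases b with
    | true =>
      show phi hc hn (ga i) ∈ cycG Γ n c
      unfold phi
      rw [mkS_ga]
      unfold hA
      exact Subgroup.mul_mem _ (Subgroup.mul_mem _ (Subgroup.inv_mem _ (tt_mem hn _))
        (tt_mem hn _)) (Subgroup.mul_mem _ (Subgroup.inv_mem _ (tt_mem hn _)) (tt_mem hn _))
    | false =>
      show phi hc hn (gb i) ∈ cycG Γ n c
      unfold phi
      rw [mkS_gb]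
      unfold hB
      exact Subgroup.mul_mem _ (Subgroup.inv_mem _ (tt_mem hn _)) (tt_mem hn _)
  exact h (Subgroup.mem_top x)

end polymem

section main

variable {V : Type} [Fintype V] [DecidableEq V] (Γ : SimpleGraph V)

/-- the abelianization -/
def pi0 : RAC Γ →* Multiplicative (V → ZMod 2) :=
  rlift (fun v => Multiplicative.ofAdd (Pi.single v 1))
    (fun v => by
      rw [← ofAdd_add, ← ofAdd_zero]
      congr 1
      rw [← Pi.single_add]
      exact Pi.single_zero v)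
    (fun u v _ => mul_comm _ _)

lemma pi0_of (v : V) : pi0 Γ (PresentedGroup.of v) = Multiplicative.ofAdd (Pi.single v 1) :=
  rlift_sg _ _ _ v

lemma pi0_surj : Function.Surjective (pi0 Γ) := by
  intro a
  have h : ∀ s : Finset V, ∀ a : V → ZMod 2, ∃ w, pi0 Γ w
      = Multiplicative.ofAdd (∑ v ∈ s, Pi.single v (a v)) := by
    intro s a
    induction s using Finset.induction_on with
    | empty => exact ⟨1, by simp⟩
    | insert v s hv ih =>
      obtain ⟨w, hw⟩ := ih
      rw [Finset.sum_insert hv]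
      rcases (by decide : ∀ x : ZMod 2, x = 0 ∨ x = 1) (a v) with h | h
      · exact ⟨w, by rw [hw, h, Pi.single_zero, zero_add]⟩
      · exact ⟨PresentedGroup.of v * w, by rw [map_mul, hw, h, pi0_of, ofAdd_add]⟩
  obtain ⟨w, hw⟩ := h Finset.univ (Multiplicative.toAdd a)
  refine ⟨w, ?_⟩
  rw [hw, Finset.univ_sum_single]
  rfl

lemma exists_section : ∃ r : Multiplicative (V → ZMod 2) → RAC Γ,
    (∀ a, pi0 Γ (r a) = a) ∧ r 1 = 1 := by
  choose r hr using pi0_surj Γ
  refine ⟨fun a => if a = 1 then 1 else r a, fun a => ?_, if_pos rfl⟩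
  show pi0 Γ (if a = 1 then 1 else r a) = a
  split_ifs with h
  · rw [map_one, h]
  · exact hr a

/-- cocycles on the kernel which vanish on the surfaces in the conjugates of the polygon groups
are coboundaries -/
theorem cob_main (c : (pi0 Γ).ker → (pi0 Γ).ker → ℚ) (hc : IsCoc c)
    (hz : ∀ (g : ℕ) (ρ : SurfGrp g →* (pi0 Γ).ker), 1 ≤ g → Function.Injective ρ →
      (∃ (n : ℕ) (cy : ℕ → V) (w : RAC Γ), 4 ≤ n ∧ IndCyc Γ n cy ∧
        ∀ x, w * (ρ x : RAC Γ) * w⁻¹ ∈ cycG Γ n cy) →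
      lin c (sfc (fun i => ρ (ga i)) (fun i => ρ (gb i))) = 0) : IsCob c := by
  obtain ⟨r, hr, hr1⟩ := exists_section Γ
  apply cob_of_index_two (pi0 Γ) r hr hr1 c hc
  intro J d hd hres
  apply cob_index_two ((chi J).comp (pi0 Γ)) d hd
  intro n cy hcy hn hJ
  have hinj : Function.Injective (phiK ((chi J).comp (pi0 Γ)) hcy hn hJ) := by
    intro x y hxy
    apply phi_inj hcy hn
    exact congrArg Subtype.val hxy
  apply lin_zero_of_sum' (pi0 Γ) c hc ((chi J).comp (pi0 Γ)).ker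
    (fun x hx => by
      rw [MonoidHom.mem_ker, MonoidHom.comp_apply, MonoidHom.mem_ker.1 hx, map_one])
    d hd (Finset.univ.filter (fun b => chi J b = 1)) r hres (n - 3) (by omega)
    (phiK ((chi J).comp (pi0 Γ)) hcy hn hJ) hinj
  intro g ρ hg hρ hw
  obtain ⟨w, hw⟩ := hw
  apply hz g ρ hg hρ
  refine ⟨n, cy, w, hn, hcy, fun x => ?_⟩
  obtain ⟨y, hy⟩ := hw x
  rw [← hy]
  exact phi_mem hcy hn y

/-- the classes of the surface subgroups of `N` which are conjugate in the Coxeter group into the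
subgroup generated by the vertices of an induced cycle of length at least four -/
def cycCl (N : Subgroup (RAC Γ)) : Set (H2 N) :=
  {α | ∃ (g : ℕ) (ρ : SurfGrp g →* N), 1 ≤ g ∧ Function.Injective ρ ∧
    (∃ (n : ℕ) (cy : ℕ → V) (w : RAC Γ), 4 ≤ n ∧ IndCyc Γ n cy ∧
      ∀ x, w * (ρ x : RAC Γ) * w⁻¹ ∈ cycG Γ n cy) ∧ α = h2 ρ (fundCl g)}

theorem span_main (N : Subgroup (RAC Γ)) (hN : N = (pi0 Γ).ker) :
    Submodule.span ℚ (cycCl Γ N) = ⊤ := by
  subst hN
  apply span_of_dual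
  intro c hc h
  apply cob_main Γ c hc
  intro g ρ hg hρ hw
  have h1 := h (z2 ρ ⟨sfc (fun i => ga i) (fun i => gb i), sfc_cycle _ _ (surf_rel g)⟩)
    ⟨g, ρ, hg, hρ, hw, rfl⟩
  rw [z2_val] at h1
  rw [← c2_sfc]
  exact h1

theorem q1_main (N : Subgroup (RAC Γ)) (hN : N = (pi0 Γ).ker) : Q1 N := by
  apply Q1_of_span (J := {x : (g : ℕ) × (SurfGrp g →* N) // Function.Injective x.2})
    (fun j => j.1.1) (fun j => j.1.2) (fun j => j.2)
  rw [eq_top_iff, ← span_main Γ N hN]
  apply Submodule.span_mono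
  rintro α ⟨g, ρ, _, hρ, _, rfl⟩
  exact ⟨⟨⟨g, ρ⟩, hρ⟩, rfl⟩

end main

end RC
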