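import Pool.Agent.Helper6.RC.GDefs

/-! Functors on the cube groupoid of a right-angled Coxeter group. -/

namespace RC

open SH

section act

variable {V : Type} [DecidableEq V] {Γ : SimpleGraph V}

/-- flip of a coordinate -/
def flp (v : V) (b : Finset V) : Finset V := if v ∈ b then b.erase v else insert v b

lemma flp_mem {v : V} {b : Finset V} (h : v ∈ b) : flp v b = b.erase v := if_pos h
lemma flp_not {v : V} {b : Finset V} (h : v ∉ b) : flp v b = insert v b := if_neg h

lemma mem_flp_self (v : V) (b : Finset V) : v ∈ flp v b ↔ v ∉ b := by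
  unfold flp
  split_ifs with h <;> simp [h]

lemma mem_flp_ne {u v : V} (h : u ≠ v) (b : Finset V) : u ∈ flp v b ↔ u ∈ b := by
  unfold flp
  split_ifs with h1 <;> simp [h]

lemma flp_flp (v : V) (b : Finset V) : flp v (flp v b) = b := by
  ext u
  by_cases h : u = v
  · subst h
    rw [mem_flp_self, mem_flp_self, not_not]
  · rw [mem_flp_ne h, mem_flp_ne h]

lemma flp_comm (u v : V) (b : Finset V) : flp u (flp v b) = flp v (flp u b) := by
  ext w
  by_cases h : w = u
  · subst h
    by_cases h' : w = v
    · subst h'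
      rfl
    · rw [mem_flp_self, mem_flp_ne h', mem_flp_ne h', mem_flp_self]
  · rw [mem_flp_ne h]
    by_cases h' : w = v
    · subst h'
      rw [mem_flp_self, mem_flp_self, mem_flp_ne h]
    · rw [mem_flp_ne h', mem_flp_ne h', mem_flp_ne h]

variable (Γ) in
/-- the action on the vertices of the cube -/
def actP : RAC Γ →* Equiv.Perm (Finset V) :=
  rlift (fun v => ⟨flp v, flp v, flp_flp v, flp_flp v⟩)
    (fun v => Equiv.ext fun b => flp_flp v b)
    (fun u v _ => Equiv.ext fun b => flp_comm u v b)

@[simp] lemma actP_sg (v : V) (b : Finset V) : actP Γ (sg Γ v) b = flp v b := by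
  unfold actP
  rw [rlift_sg]
  rfl

variable {H : Type*} [Group H] (A : Finset V → V → H)

/-- the value of the functor on the segment from `b` in the direction `v` -/
def ev1 (b : Finset V) (v : V) : H := if v ∈ b then (A b v)⁻¹ else A (insert v b) v

lemma ev1_mem {v : V} {b : Finset V} (h : v ∈ b) : ev1 A b v = (A b v)⁻¹ := if_pos h
lemma ev1_not {v : V} {b : Finset V} (h : v ∉ b) : ev1 A b v = A (insert v b) v := if_neg h

lemma ev1_flp (v : V) (b : Finset V) : ev1 A (flp v b) v * ev1 A b v = 1 := by
  by_cases h : v ∈ b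
  · rw [ev1_mem A h, flp_mem h, ev1_not A (Finset.notMem_erase v b), Finset.insert_erase h,
      mul_inv_cancel]
  · rw [ev1_not A h, flp_not h, ev1_mem A (Finset.mem_insert_self v b), inv_mul_cancel]

lemma ev1_comm {u v : V} (huv : u ≠ v)
    (hsq : ∀ b : Finset V, u ∈ b → v ∈ b → A b u * A (b.erase u) v = A b v * A (b.erase v) u)
    (b : Finset V) : ev1 A (flp v b) u * ev1 A b v = ev1 A (flp u b) v * ev1 A b u := by
  -- the case `u ∈ b`, `v ∉ b`
  have key : ∀ u v : V, u ≠ v →
      (∀ b : Finset V, u ∈ b → v ∈ b → A b u * A (b.erase u) v = A b v * A (b.erase v) u) →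
      ∀ b : Finset V, u ∈ b → v ∉ b →
      ev1 A (flp v b) u * ev1 A b v = ev1 A (flp u b) v * ev1 A b u := by
    intro u v huv hsq b hu hv
    have h1 := hsq (insert v b) (Finset.mem_insert_of_mem hu) (Finset.mem_insert_self v b)
    rw [Finset.erase_insert hv] at h1
    rw [ev1_mem A hu, ev1_not A hv, flp_mem hu, flp_not hv,
      ev1_mem A (Finset.mem_insert_of_mem hu),
      ev1_not A (fun h => hv (Finset.mem_of_mem_erase h)), inv_mul_eq_iff_eq_mul,
      ← mul_assoc, eq_mul_inv_iff_mul_eq, ← h1, Finset.erase_insert_of_ne huv.symm]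
  by_cases hu : u ∈ b
  · by_cases hv : v ∈ b
    · rw [ev1_mem A hu, ev1_mem A hv, flp_mem hu, flp_mem hv,
        ev1_mem A (Finset.mem_erase.2 ⟨huv, hu⟩), ev1_mem A (Finset.mem_erase.2 ⟨huv.symm, hv⟩),
        ← mul_inv_rev, ← mul_inv_rev, hsq b hu hv]
    · exact key u v huv hsq b hu hv
  · by_cases hv : v ∈ b
    · exact (key v u huv.symm (fun b hv hu => (hsq b hu hv).symm) b hv hu).symm
    · have h1 := hsq (insert u (insert v b)) (Finset.mem_insert_self _ _)
        (Finset.mem_insert_of_mem (Finset.mem_insert_self _ _))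
      have hu' : u ∉ insert v b := by
        rw [Finset.mem_insert, not_or]
        exact ⟨huv, hu⟩
      have hv' : v ∉ insert u b := by
        rw [Finset.mem_insert, not_or]
        exact ⟨huv.symm, hv⟩
      rw [Finset.erase_insert hu', Finset.insert_comm, Finset.erase_insert hv'] at h1
      rw [ev1_not A hu, ev1_not A hv, flp_not hu, flp_not hv, ev1_not A hu', ev1_not A hv',
        Finset.insert_comm, h1]

/-- functors on the cube groupoid -/
theorem rac_functor
    (hsq : ∀ u v, Γ.Adj u v → ∀ b : Finset V, u ∈ b → v ∈ b →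
      A b u * A (b.erase u) v = A b v * A (b.erase v) u) :
    ∃ F : RAC Γ → Finset V → H, (∀ b, F 1 b = 1) ∧
      (∀ w w' b, F (w * w') b = F w (actP Γ w' b) * F w' b) ∧
      ∀ v b, F (sg Γ v) b = ev1 A b v := by
  let f : V → Equiv.Perm (Finset V × H) := fun v =>
    { toFun := fun x => (flp v x.1, ev1 A x.1 v * x.2)
      invFun := fun x => (flp v x.1, ev1 A x.1 v * x.2)
      left_inv := fun x => by
        apply Prod.ext
        · exact flp_flp v x.1
        · show ev1 A (flp v x.1) v * (ev1 A x.1 v * x.2) = x.2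
          rw [← mul_assoc, ev1_flp, one_mul]
      right_inv := fun x => by
        apply Prod.ext
        · exact flp_flp v x.1
        · show ev1 A (flp v x.1) v * (ev1 A x.1 v * x.2) = x.2
          rw [← mul_assoc, ev1_flp, one_mul] }
  have hf : ∀ v b e, f v (b, e) = (flp v b, ev1 A b v * e) := fun v b e => rfl
  let Φ : RAC Γ →* Equiv.Perm (Finset V × H) := rlift f
    (fun v => Equiv.ext fun x => (f v).left_inv x)
    (fun u v huv => Equiv.ext fun x => by
      obtain ⟨b, e⟩ := x
      show f u (f v (b, e)) = f v (f u (b, e))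
      rw [hf, hf, hf, hf, flp_comm, ← mul_assoc, ← mul_assoc,
        ev1_comm A huv.ne (hsq u v huv)])
  have hΦ : ∀ v b e, Φ (sg Γ v) (b, e) = (flp v b, ev1 A b v * e) := by
    intro v b e
    show rlift f _ _ (sg Γ v) (b, e) = _
    rw [rlift_sg, hf]
  have hgood : ∀ w : RAC Γ, ∀ b, ∃ h : H, ∀ e, Φ w (b, e) = (actP Γ w b, h * e) := by
    intro w
    have hw : w ∈ Subgroup.closure (Set.range (sg Γ)) := by
      rw [rac_closure]
      trivial
    induction hw using Subgroup.closure_induction_left with
    | one => exact fun b => ⟨1, fun e => by simp⟩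
    | mul_left x hx y _ ih =>
      obtain ⟨v, rfl⟩ := hx
      intro b
      obtain ⟨h, hh⟩ := ih b
      refine ⟨ev1 A (actP Γ y b) v * h, fun e => ?_⟩
      rw [map_mul, map_mul, Equiv.Perm.mul_apply, Equiv.Perm.mul_apply, hh, hΦ, actP_sg, mul_assoc]
    | inv_mul_cancel x hx y _ ih =>
      obtain ⟨v, rfl⟩ := hx
      intro b
      obtain ⟨h, hh⟩ := ih b
      refine ⟨ev1 A (actP Γ y b) v * h, fun e => ?_⟩
      rw [sg_inv, map_mul, map_mul, Equiv.Perm.mul_apply, Equiv.Perm.mul_apply, hh, hΦ, actP_sg,
        mul_assoc]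
  choose F hF using hgood
  refine ⟨F, ?_, ?_, ?_⟩
  · intro b
    have h := hF 1 b 1
    rw [map_one, map_one, Equiv.Perm.one_apply, Equiv.Perm.one_apply, mul_one] at h
    exact (congrArg Prod.snd h).symm
  · intro w w' b
    have h := hF (w * w') b 1
    rw [map_mul, Equiv.Perm.mul_apply, hF w' b 1, hF w] at h
    have h2 := congrArg Prod.snd h
    simp only [mul_one] at h2
    exact h2.symm
  · intro v b
    have h := hF (sg Γ v) b 1
    rw [hΦ] at h
    have h2 := congrArg Prod.snd h
    simp only [mul_one] at h2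
    exact h2.symm

end act

section ind

variable {V : Type} [Fintype V] [DecidableEq V] {Γ : SimpleGraph V}

/-- indicator function -/
def ind (b : Finset V) : Multiplicative (V → ZMod 2) :=
  Multiplicative.ofAdd fun v => if v ∈ b then 1 else 0

lemma ind_inj {b b' : Finset V} (h : ind b = ind b') : b = b' := by
  ext v
  have h1 : (if v ∈ b then (1 : ZMod 2) else 0) = (if v ∈ b' then 1 else 0) :=
    congrFun (Multiplicative.ofAdd.injective h) v
  by_cases hv : v ∈ b <;> by_cases hv' : v ∈ b' <;> simp_all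

lemma ind_flp (v : V) (b : Finset V) :
    ind (flp v b) = Multiplicative.ofAdd (Pi.single v 1) * ind b := by
  unfold ind
  rw [← ofAdd_add]
  congr 1
  funext u
  rw [Pi.add_apply]
  by_cases h : u = v
  · subst h
    rw [Pi.single_eq_same]
    by_cases hu : u ∈ b
    · rw [if_neg (fun h => (mem_flp_self u b).1 h hu), if_pos hu]
      decide
    · rw [if_pos ((mem_flp_self u b).2 hu), if_neg hu]
      decide
  · rw [Pi.single_eq_of_ne h, zero_add]
    simp only [mem_flp_ne h]

lemma ind_act (w : RAC Γ) : ∀ b, ind (actP Γ w b) = pi0 Γ w * ind b := by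
  have hw : w ∈ Subgroup.closure (Set.range (sg Γ)) := by
    rw [rac_closure]
    trivial
  induction hw using Subgroup.closure_induction_left with
  | one => intro b; simp
  | mul_left x hx y _ ih =>
    obtain ⟨v, rfl⟩ := hx
    intro b
    rw [map_mul, map_mul, Equiv.Perm.mul_apply, actP_sg, ind_flp, ih, ← mul_assoc]
    congr 2
    exact (pi0_of Γ v).symm
  | inv_mul_cancel x hx y _ ih =>
    obtain ⟨v, rfl⟩ := hx
    intro b
    rw [sg_inv, map_mul, map_mul, Equiv.Perm.mul_apply, actP_sg, ind_flp, ih, ← mul_assoc]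
    congr 2
    exact (pi0_of Γ v).symm

lemma act_ker (n : (pi0 Γ).ker) (b : Finset V) : actP Γ n b = b := by
  apply ind_inj
  rw [ind_act, MonoidHom.mem_ker.1 n.2, one_mul]

lemma exists_word (b : Finset V) : ∃ w : RAC Γ, actP Γ w ∅ = b := by
  induction b using Finset.induction_on with
  | empty => exact ⟨1, by simp⟩
  | insert v s hv ih =>
    obtain ⟨w, hw⟩ := ih
    exact ⟨sg Γ v * w, by rw [map_mul, Equiv.Perm.mul_apply, hw, actP_sg, flp_not hv]⟩

lemma pi0_word {w : RAC Γ} {b : Finset V} (h : actP Γ w ∅ = b) : pi0 Γ w = ind b := by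
  have h1 := ind_act w (∅ : Finset V)
  rw [h] at h1
  rw [h1]
  have : ind (∅ : Finset V) = 1 := by
    unfold ind
    simp only [Finset.notMem_empty, if_false]
    rfl
  rw [this, mul_one]

end ind

end RC
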