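import Pool.Agent.Helper6.RC.GDefs

set_option autoImplicit false

/-! Row G1: functors on the cube complex of a graph product, and the section they give. -/

namespace RC
open SH

section g1

variable {V : Type} [DecidableEq V] {Γ : SimpleGraph V} {G : V → Type} [∀ v, Group (G v)]

lemma ms_mul' (v : V) (g h : G v) (x : ∀ v, G v) :
    Pi.mulSingle v g * (Pi.mulSingle v h * x) = Pi.mulSingle v (g * h) * x := by
  rw [← mul_assoc, Pi.mulSingle_mul]

lemma ms_one' (v : V) (x : ∀ v, G v) : Pi.mulSingle v (1 : G v) * x = x := by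
  rw [Pi.mulSingle_one, one_mul]

lemma ms_update (v : V) (g : G v) (x : ∀ v, G v) :
    Function.update (Pi.mulSingle v g * x) v 1 = Function.update x v 1 := by
  funext w
  by_cases h : w = v
  · subst h
    simp
  · rw [Function.update_of_ne h, Function.update_of_ne h, Pi.mul_apply,
      Pi.mulSingle_eq_of_ne h, one_mul]

lemma ms_comm' {u v : V} (h : u ≠ v) (a : G u) (b : G v) (x : ∀ v, G v) :
    Pi.mulSingle u a * (Pi.mulSingle v b * x) = Pi.mulSingle v b * (Pi.mulSingle u a * x) := by
  rw [← mul_assoc, ← mul_assoc]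
  congr 1
  funext w
  simp only [Pi.mul_apply]
  by_cases hu : w = u
  · subst hu
    have : Pi.mulSingle v b w = 1 := Pi.mulSingle_eq_of_ne h b
    rw [this, mul_one, one_mul]
  · have : Pi.mulSingle u a w = 1 := Pi.mulSingle_eq_of_ne hu a
    rw [this, mul_one, one_mul]

/-- action of an element of a vertex group -/
def gact {H : Type*} [Group H] (A : (∀ v, G v) → V → H) (v : V) (g : G v) :
    Equiv.Perm ((∀ v, G v) × H) where
  toFun z := (Pi.mulSingle v g * z.1, A (Pi.mulSingle v g * z.1) v * (A z.1 v)⁻¹ * z.2)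
  invFun z := (Pi.mulSingle v g⁻¹ * z.1, A (Pi.mulSingle v g⁻¹ * z.1) v * (A z.1 v)⁻¹ * z.2)
  left_inv z := by
    have h : Pi.mulSingle v g⁻¹ * (Pi.mulSingle v g * z.1) = z.1 := by
      rw [ms_mul', inv_mul_cancel, ms_one']
    apply Prod.ext
    · exact h
    · show A (Pi.mulSingle v g⁻¹ * (Pi.mulSingle v g * z.1)) v * (A (Pi.mulSingle v g * z.1) v)⁻¹ *
        (A (Pi.mulSingle v g * z.1) v * (A z.1 v)⁻¹ * z.2) = z.2
      rw [h]
      group
  right_inv z := by
    have h : Pi.mulSingle v g * (Pi.mulSingle v g⁻¹ * z.1) = z.1 := by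
      rw [ms_mul', mul_inv_cancel, ms_one']
    apply Prod.ext
    · exact h
    · show A (Pi.mulSingle v g * (Pi.mulSingle v g⁻¹ * z.1)) v *
        (A (Pi.mulSingle v g⁻¹ * z.1) v)⁻¹ *
        (A (Pi.mulSingle v g⁻¹ * z.1) v * (A z.1 v)⁻¹ * z.2) = z.2
      rw [h]
      group

/-- G1a: `A x v` is the value of the functor on the segment from `update x v 1` to `x`.
(Permutation action of the graph product on `(∀ v, G v) × H`:
`og v g` maps `(x, e)` to `(mulSingle v g * x, A (mulSingle v g * x) v * (A x v)⁻¹ * e)`.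
The general commutation square follows from the squares `hsq` with corners `1`.) -/
theorem gp_functor {H : Type*} [Group H] (A : (∀ v, G v) → V → H)
    (hsq : ∀ u v, Γ.Adj u v → ∀ x,
      A x u * A (Function.update x u 1) v = A x v * A (Function.update x v 1) u) :
    ∃ F : GP Γ G → (∀ v, G v) → H,
      (∀ x, F 1 x = 1) ∧ (∀ a b x, F (a * b) x = F a (gpi Γ G b * x) * F b x) ∧
      ∀ v g x, F (og Γ G v g) x = A (Pi.mulSingle v g * x) v * (A x v)⁻¹ := by
  have hmul : ∀ v (g h : G v), gact A v (g * h) = gact A v g * gact A v h := by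
    intro v g h
    apply Equiv.ext
    intro z
    rw [Equiv.Perm.mul_apply]
    apply Prod.ext
    · show Pi.mulSingle v (g * h) * z.1 = Pi.mulSingle v g * (Pi.mulSingle v h * z.1)
      rw [ms_mul']
    · show A (Pi.mulSingle v (g * h) * z.1) v * (A z.1 v)⁻¹ * z.2 =
        A (Pi.mulSingle v g * (Pi.mulSingle v h * z.1)) v * (A (Pi.mulSingle v h * z.1) v)⁻¹ *
          (A (Pi.mulSingle v h * z.1) v * (A z.1 v)⁻¹ * z.2)
      rw [ms_mul']
      group
  -- the value of the functor from the corner with coordinates `u, v` equal to `1`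
  have hD1 : ∀ u v, Γ.Adj u v → ∀ (g : G u) (x : ∀ v, G v),
      A (Pi.mulSingle u g * x) u * (A x u)⁻¹ =
        (A (Pi.mulSingle u g * x) u * A (Function.update (Pi.mulSingle u g * x) u 1) v) *
          (A x u * A (Function.update x u 1) v)⁻¹ := by
    intro u v _ g x
    rw [ms_update]
    group
  have hD2 : ∀ u v, Γ.Adj u v → ∀ (h : G v) (x : ∀ v, G v),
      A (Pi.mulSingle v h * x) v * (A x v)⁻¹ =
        (A (Pi.mulSingle v h * x) u * A (Function.update (Pi.mulSingle v h * x) u 1) v) *
          (A x u * A (Function.update x u 1) v)⁻¹ := by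
    intro u v huv h x
    rw [hsq u v huv, hsq u v huv x, ms_update]
    group
  have hcomm : ∀ u v, Γ.Adj u v → ∀ (g : G u) (h : G v),
      gact A u g * gact A v h = gact A v h * gact A u g := by
    intro u v huv g h
    apply Equiv.ext
    intro z
    rw [Equiv.Perm.mul_apply, Equiv.Perm.mul_apply]
    have hc := ms_comm' (G := G) huv.ne g h z.1
    apply Prod.ext
    · exact hc
    · show A (Pi.mulSingle u g * (Pi.mulSingle v h * z.1)) u * (A (Pi.mulSingle v h * z.1) u)⁻¹ *
          (A (Pi.mulSingle v h * z.1) v * (A z.1 v)⁻¹ * z.2) =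
        A (Pi.mulSingle v h * (Pi.mulSingle u g * z.1)) v * (A (Pi.mulSingle u g * z.1) v)⁻¹ *
          (A (Pi.mulSingle u g * z.1) u * (A z.1 u)⁻¹ * z.2)
      rw [hD1 u v huv g (Pi.mulSingle v h * z.1), hD2 u v huv h z.1,
        hD2 u v huv h (Pi.mulSingle u g * z.1), hD1 u v huv g z.1, hc]
      group
  let φ : GP Γ G →* Equiv.Perm ((∀ v, G v) × H) := glift (fun v g => gact A v g) hmul hcomm
  have hφ : ∀ v g, φ (og Γ G v g) = gact A v g := fun v g => glift_og _ _ _ v g
  have key : ∀ a : GP Γ G, ∀ x e, φ a (x, e) = (gpi Γ G a * x, (φ a (x, 1)).2 * e) := by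
    intro a
    have ha : a ∈ Subgroup.closure {y | ∃ v a, y = og Γ G v a} := by
      rw [gp_closure]; exact Subgroup.mem_top a
    induction ha using Subgroup.closure_induction with
    | mem y hy =>
      obtain ⟨v, g, rfl⟩ := hy
      intro x e
      rw [hφ, gpi_og]
      apply Prod.ext
      · rfl
      · show A (Pi.mulSingle v g * x) v * (A x v)⁻¹ * e =
          A (Pi.mulSingle v g * x) v * (A x v)⁻¹ * 1 * e
        rw [mul_one]
    | one =>
      intro x e
      rw [map_one, map_one, one_mul]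
      simp
    | mul a b _ _ iha ihb =>
      intro x e
      rw [map_mul, map_mul, Equiv.Perm.mul_apply, Equiv.Perm.mul_apply, ihb x e, iha, ihb x 1,
        iha (gpi Γ G b * x) ((φ b (x, 1)).2 * 1), mul_one, mul_assoc, mul_assoc]
    | inv a _ iha =>
      have h1 : ∀ x e, φ a⁻¹ (x, e) =
          (gpi Γ G a⁻¹ * x, (φ a (gpi Γ G a⁻¹ * x, 1)).2⁻¹ * e) := by
        intro x e
        rw [map_inv, Equiv.Perm.inv_eq_iff_eq, iha, map_inv, mul_inv_cancel_left,
          mul_inv_cancel_left]
      intro x e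
      rw [h1, h1, mul_one]
  refine ⟨fun a x => (φ a (x, 1)).2, ?_, ?_, ?_⟩
  · intro x
    simp
  · intro a b x
    show (φ (a * b) (x, 1)).2 = _
    rw [map_mul, Equiv.Perm.mul_apply, key b x 1, key a]
    simp
  · intro v g x
    show (φ (og Γ G v g) (x, 1)).2 = _
    rw [hφ]
    show A (Pi.mulSingle v g * x) v * (A x v)⁻¹ * 1 = _
    rw [mul_one]

/-- G1b: lifts of all segments with the square relations give a section of the extension
(`p` is any section of the projection; the section is `k ↦ F k 1` with `F` from G1a, and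
`(F a x).g = (p (π a * x))⁻¹ * a * p x`) -/
theorem cob_of_A (c : (gpi Γ G).ker → (gpi Γ G).ker → ℚ) (hc : IsCoc c)
    (p : (∀ v, G v) → GP Γ G) (hp : ∀ x, gpi Γ G (p x) = x) (hp1 : p 1 = 1)
    (A : (∀ v, G v) → V → Ex c hc)
    (hA : ∀ x v, (((A x v).g : (gpi Γ G).ker) : GP Γ G)
      = (p x)⁻¹ * og Γ G v (x v) * p (Function.update x v 1))
    (hsq : ∀ u v, Γ.Adj u v → ∀ x,
      A x u * A (Function.update x u 1) v = A x v * A (Function.update x v 1) u) :
    IsCob c := by
  obtain ⟨F, hF1, hFm, hFo⟩ := gp_functor A hsq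
  have hFi : ∀ a x, F a⁻¹ x = (F a (gpi Γ G a⁻¹ * x))⁻¹ := by
    intro a x
    have := hFm a a⁻¹ x
    rw [mul_inv_cancel, hF1] at this
    exact (inv_eq_of_mul_eq_one_right this.symm).symm
  have key : ∀ a : GP Γ G, ∀ x, (((F a x).g : (gpi Γ G).ker) : GP Γ G) =
      (p (gpi Γ G a * x))⁻¹ * a * p x := by
    intro a
    have ha : a ∈ Subgroup.closure {y | ∃ v a, y = og Γ G v a} := by
      rw [gp_closure]; exact Subgroup.mem_top a
    induction ha using Subgroup.closure_induction with
    | mem y hy =>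
      obtain ⟨v, g, rfl⟩ := hy
      intro x
      rw [hFo, gpi_og, Ex.mul_g, Ex.inv_g, Subgroup.coe_mul, Subgroup.coe_inv, hA, hA, ms_update]
      have h1 : (Pi.mulSingle v g * x) v = g * x v := by simp
      rw [h1, og_mul]
      group
    | one =>
      intro x
      rw [hF1, map_one, one_mul]
      show (((1 : Ex c hc).g : (gpi Γ G).ker) : GP Γ G) = _
      rw [Ex.one_g]
      simp
    | mul a b _ _ iha ihb =>
      intro x
      rw [hFm, Ex.mul_g, Subgroup.coe_mul, iha, ihb, map_mul, mul_assoc (gpi Γ G a)]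
      group
    | inv a _ iha =>
      intro x
      rw [hFi, Ex.inv_g, Subgroup.coe_inv, iha, map_inv, mul_inv_cancel_left]
      group
  let σ : (gpi Γ G).ker →* Ex c hc :=
    { toFun := fun k => F k 1
      map_one' := hF1 1
      map_mul' := by
        intro a b
        show F ((a * b : (gpi Γ G).ker) : GP Γ G) 1 = _
        rw [Subgroup.coe_mul, hFm, MonoidHom.mem_ker.1 b.2, one_mul] }
  apply cob_of_section σ
  intro k
  apply Subtype.ext
  show (((F k 1).g : (gpi Γ G).ker) : GP Γ G) = k
  rw [key, MonoidHom.mem_ker.1 k.2, one_mul, hp1, inv_one, one_mul, mul_one]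

end g1

end RC
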