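import Mathlib

/-! # Moebius inversion over the supports of the elements of a product -/

namespace RC

/-- the point of the box of `z` with support `b` -/
def bx {V : Type} [DecidableEq V] {G : V → Type} [∀ v, One (G v)] (z : ∀ v, G v) (b : Finset V) :
    ∀ v, G v := fun v => if v ∈ b then z v else 1

section mobs

variable {V : Type} [DecidableEq V]

/-- alternating sum over the subsets of `I` -/
def mobs (F : Finset V → ℚ) (I : Finset V) : ℚ :=
  ∑ J ∈ I.powerset, (-1) ^ (I \ J).card * F J

lemma mobs_insert (F : Finset V → ℚ) {a : V} {I : Finset V} (ha : a ∉ I) :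
    mobs F (insert a I) = mobs (fun J => F (insert a J) - F J) I := by
  unfold mobs
  rw [Finset.sum_powerset_insert ha, ← Finset.sum_add_distrib]
  apply Finset.sum_congr rfl
  intro J hJ
  rw [Finset.mem_powerset] at hJ
  have haJ : a ∉ J := fun h => ha (hJ h)
  have h1 : insert a I \ J = insert a (I \ J) := Finset.insert_sdiff_of_notMem _ haJ
  have h2 : insert a I \ insert a J = I \ J := by
    rw [Finset.insert_sdiff_insert, Finset.sdiff_insert_of_notMem ha]
  have h3 : a ∉ I \ J := fun h => ha (Finset.mem_sdiff.1 h).1
  rw [h1, h2, Finset.card_insert_of_notMem h3, pow_succ]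
  ring

lemma mobs_congr {F F' : Finset V → ℚ} {I : Finset V} (h : ∀ J, J ⊆ I → F J = F' J) :
    mobs F I = mobs F' I := by
  unfold mobs
  apply Finset.sum_congr rfl
  intro J hJ
  rw [h J (Finset.mem_powerset.1 hJ)]

lemma mobs_zero {F : Finset V → ℚ} {I : Finset V} (h : ∀ J, J ⊆ I → F J = 0) : mobs F I = 0 := by
  unfold mobs
  apply Finset.sum_eq_zero
  intro J hJ
  rw [h J (Finset.mem_powerset.1 hJ), mul_zero]

lemma mobs_sub (F F' : Finset V → ℚ) (I : Finset V) :
    mobs (fun J => F J - F' J) I = mobs F I - mobs F' I := by
  unfold mobs
  rw [← Finset.sum_sub_distrib]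
  exact Finset.sum_congr rfl fun J _ => by ring

/-- inversion -/
lemma mobs_inv (S : Finset V) (F : Finset V → ℚ) : ∑ I ∈ S.powerset, mobs F I = F S := by
  induction S using Finset.induction_on generalizing F with
  | empty => simp [mobs]
  | insert a S ha ih =>
    rw [Finset.sum_powerset_insert ha, ← Finset.sum_add_distrib, ← ih fun J => F (insert a J)]
    apply Finset.sum_congr rfl
    intro I hI
    have haI : a ∉ I := fun h => ha (Finset.mem_powerset.1 hI h)
    rw [mobs_insert F haI, mobs_sub]
    ring

lemma mobs_two (F : Finset V → ℚ) {u v : V} {K : Finset V} (huv : u ≠ v) (hu : u ∉ K)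
    (hv : v ∉ K) : mobs F (insert u (insert v K)) =
      mobs (fun J => F (insert u (insert v J)) - F (insert v J) - (F (insert u J) - F J)) K := by
  have h1 : u ∉ insert v K := by
    rw [Finset.mem_insert]
    rintro (h | h)
    · exact huv h
    · exact hu h
  rw [mobs_insert F h1, mobs_insert _ hv]

lemma sum_two (A : Finset V → ℚ) {u v : V} {K : Finset V} (huv : u ≠ v) (hu : u ∉ K)
    (hv : v ∉ K) : ∑ I ∈ (insert u (insert v K)).powerset, A I =
      ∑ J ∈ K.powerset, (A J + A (insert v J) + (A (insert u J) + A (insert u (insert v J)))) := by
  have h1 : u ∉ insert v K := by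
    rw [Finset.mem_insert]
    rintro (h | h)
    · exact huv h
    · exact hu h
  rw [Finset.sum_powerset_insert h1, Finset.sum_powerset_insert hv, Finset.sum_powerset_insert hv,
    Finset.sum_add_distrib, Finset.sum_add_distrib, Finset.sum_add_distrib]

end mobs

/-- **G2**: potentials on the boxes glue to a potential on the product -/
theorem moebius {V : Type} [Fintype V] [DecidableEq V] (Γ : SimpleGraph V) (G : V → Type)
    [∀ v, One (G v)] [∀ v, Nontrivial (G v)]
    (D : (∀ v, G v) → V → V → ℚ)
    (h0 : ∀ x u v, x u = 1 ∨ x v = 1 → D x u v = 0)
    (hbox : ∀ z : ∀ v, G v, (∀ v, z v ≠ 1) → ∃ t : Finset V → V → ℚ,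
      ∀ u v, Γ.Adj u v → ∀ b : Finset V, u ∈ b → v ∈ b →
        D (bx z b) u v = (t b v - t (b.erase u) v) - (t b u - t (b.erase v) u)) :
    ∃ t : (∀ v, G v) → V → ℚ, (∀ x v, x v = 1 → t x v = 0) ∧
      ∀ u v, Γ.Adj u v → ∀ x, x u ≠ 1 → x v ≠ 1 →
        D x u v = (t x v - t (Function.update x u 1) v) - (t x u - t (Function.update x v 1) u) := by
  classical
  choose nt hnt using fun v => exists_ne (1 : G v)
  let ex : (∀ v, G v) → ∀ v, G v := fun x v => if x v = 1 then nt v else x v
  have hex : ∀ x v, ex x v ≠ 1 := by
    intro x v
    change (if x v = 1 then nt v else x v) ≠ 1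
    split_ifs with h
    · exact hnt v
    · exact h
  choose T hT using fun y : (∀ v, G v) => hbox (ex y) (hex y)
  let supp : (∀ v, G v) → Finset V := fun x => Finset.univ.filter fun v => x v ≠ 1
  have hsupp : ∀ x v, v ∈ supp x ↔ x v ≠ 1 := by
    intro x v
    simp [supp]
  let θ : (∀ v, G v) → V → ℚ := fun y v =>
    mobs (fun J => if v ∈ J then T y J v else 0) (supp y)
  let t : (∀ v, G v) → V → ℚ := fun x v =>
    ∑ I ∈ (supp x).powerset, if v ∈ I then θ (bx x I) v else 0
  refine ⟨t, ?_, ?_⟩
  · intro x v hx
    apply Finset.sum_eq_zero
    intro I hI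
    have h1 : v ∉ I := fun h => (hsupp x v).1 (Finset.mem_powerset.1 hI h) hx
    rw [if_neg h1]
  · intro u v huv x hxu hxv
    have hne : u ≠ v := huv.ne
    set K : Finset V := ((supp x).erase u).erase v with hK
    have huK : u ∉ K := by
      intro h
      exact Finset.notMem_erase u _ (Finset.mem_of_mem_erase h)
    have hvK : v ∉ K := Finset.notMem_erase v _
    have hS : supp x = insert u (insert v K) := by
      rw [hK, Finset.insert_erase, Finset.insert_erase ((hsupp x u).2 hxu)]
      exact Finset.mem_erase.2 ⟨hne.symm, (hsupp x v).2 hxv⟩
    have huvK : u ∉ insert v K := by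
      rw [Finset.mem_insert]
      rintro (h | h)
      · exact hne h
      · exact huK h
    have hvuK : v ∉ insert u K := by
      rw [Finset.mem_insert]
      rintro (h | h)
      · exact hne h.symm
      · exact hvK h
    have hSu : supp (Function.update x u 1) = insert v K := by
      ext w
      rw [hsupp]
      by_cases hw : w = u
      · subst hw
        rw [Function.update_self]
        exact ⟨fun h => absurd rfl h, fun h => absurd h huvK⟩
      · rw [Function.update_of_ne hw, ← hsupp x w, hS, Finset.mem_insert]
        exact ⟨fun h => h.resolve_left hw, fun h => Or.inr h⟩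
    have hSv : supp (Function.update x v 1) = insert u K := by
      ext w
      rw [hsupp]
      by_cases hw : w = v
      · subst hw
        rw [Function.update_self]
        exact ⟨fun h => absurd rfl h, fun h => absurd h hvuK⟩
      · rw [Function.update_of_ne hw, ← hsupp x w, hS, Finset.insert_comm, Finset.mem_insert]
        exact ⟨fun h => h.resolve_left hw, fun h => Or.inr h⟩
    have hbu : ∀ I, u ∉ I → bx (Function.update x u 1) I = bx x I := by
      intro I hI
      funext w
      unfold bx
      split_ifs with h
      · have hw : w ≠ u := by
          rintro rfl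
          exact hI h
        exact Function.update_of_ne hw _ _
      · rfl
    have hbv : ∀ I, v ∉ I → bx (Function.update x v 1) I = bx x I := by
      intro I hI
      funext w
      unfold bx
      split_ifs with h
      · have hw : w ≠ v := by
          rintro rfl
          exact hI h
        exact Function.update_of_ne hw _ _
      · rfl
    -- the differences of `t`
    have e1 : t x v - t (Function.update x u 1) v =
        ∑ J ∈ K.powerset, θ (bx x (insert u (insert v J))) v := by
      change (∑ I ∈ (supp x).powerset, if v ∈ I then θ (bx x I) v else 0) -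
        (∑ I ∈ (supp (Function.update x u 1)).powerset,
          if v ∈ I then θ (bx (Function.update x u 1) I) v else 0) = _
      rw [hS, hSu, sum_two _ hne huK hvK, Finset.sum_powerset_insert hvK, ← Finset.sum_add_distrib,
        ← Finset.sum_sub_distrib]
      apply Finset.sum_congr rfl
      intro J hJ
      have hJK := Finset.mem_powerset.1 hJ
      have a1 : v ∉ J := fun h => hvK (hJK h)
      have a2 : u ∉ J := fun h => huK (hJK h)
      have a3 : v ∉ insert u J := by
        rw [Finset.mem_insert]
        rintro (h | h)
        · exact hne h.symm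
        · exact a1 h
      have a4 : u ∉ insert v J := by
        rw [Finset.mem_insert]
        rintro (h | h)
        · exact hne h
        · exact a2 h
      have a5 : v ∈ insert v J := Finset.mem_insert_self v J
      have a6 : v ∈ insert u (insert v J) := Finset.mem_insert_of_mem a5
      rw [if_neg a1, if_neg a1, if_neg a3, if_pos a5, if_pos a5, if_pos a6, hbu _ a4]
      ring
    have e2 : t x u - t (Function.update x v 1) u =
        ∑ J ∈ K.powerset, θ (bx x (insert u (insert v J))) u := by
      change (∑ I ∈ (supp x).powerset, if u ∈ I then θ (bx x I) u else 0) -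
        (∑ I ∈ (supp (Function.update x v 1)).powerset,
          if u ∈ I then θ (bx (Function.update x v 1) I) u else 0) = _
      rw [hS, hSv, sum_two _ hne huK hvK, Finset.sum_powerset_insert huK, ← Finset.sum_add_distrib,
        ← Finset.sum_sub_distrib]
      apply Finset.sum_congr rfl
      intro J hJ
      have hJK := Finset.mem_powerset.1 hJ
      have a1 : v ∉ J := fun h => hvK (hJK h)
      have a2 : u ∉ J := fun h => huK (hJK h)
      have a3 : v ∉ insert u J := by
        rw [Finset.mem_insert]
        rintro (h | h)
        · exact hne h.symm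
        · exact a1 h
      have a4 : u ∉ insert v J := by
        rw [Finset.mem_insert]
        rintro (h | h)
        · exact hne h
        · exact a2 h
      have a5 : u ∈ insert u J := Finset.mem_insert_self u J
      have a6 : u ∈ insert u (insert v J) := Finset.mem_insert_self u _
      rw [if_neg a2, if_neg a2, if_neg a4, if_pos a5, if_pos a5, if_pos a6, hbv _ a3]
      ring
    -- the transform of `D`
    have e3 : D x u v = ∑ J ∈ K.powerset,
        mobs (fun J => D (bx x J) u v) (insert u (insert v J)) := by
      have h1 : bx x (supp x) = x := by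
        funext w
        unfold bx
        split_ifs with h
        · rfl
        · by_contra hc
          exact h ((hsupp x w).2 fun e => hc e.symm)
      have h2 := mobs_inv (supp x) (fun J => D (bx x J) u v)
      rw [h1, hS, sum_two _ hne huK hvK] at h2
      rw [← h2]
      apply Finset.sum_congr rfl
      intro J hJ
      have hJK := Finset.mem_powerset.1 hJ
      have a1 : v ∉ J := fun h => hvK (hJK h)
      have a2 : u ∉ J := fun h => huK (hJK h)
      have a3 : v ∉ insert u J := by
        rw [Finset.mem_insert]
        rintro (h | h)
        · exact hne h.symm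
        · exact a1 h
      have a4 : u ∉ insert v J := by
        rw [Finset.mem_insert]
        rintro (h | h)
        · exact hne h
        · exact a2 h
      have z1 : ∀ L : Finset V, (u ∉ L ∨ v ∉ L) → mobs (fun J => D (bx x J) u v) L = 0 := by
        intro L hL
        apply mobs_zero
        intro M hM
        apply h0
        rcases hL with hL | hL
        · left
          unfold bx
          rw [if_neg fun h => hL (hM h)]
        · right
          unfold bx
          rw [if_neg fun h => hL (hM h)]
      rw [z1 J (Or.inl a2), z1 (insert v J) (Or.inl a4), z1 (insert u J) (Or.inr a3)]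
      ring
    rw [e1, e2, e3, ← Finset.sum_sub_distrib]
    apply Finset.sum_congr rfl
    intro L hL
    have hLK := Finset.mem_powerset.1 hL
    have a1 : v ∉ L := fun h => hvK (hLK h)
    have a2 : u ∉ L := fun h => huK (hLK h)
    set I : Finset V := insert u (insert v L) with hI
    have hIS : I ⊆ supp x := by
      rw [hS, hI]
      exact Finset.insert_subset_insert _ (Finset.insert_subset_insert _ hLK)
    set y := bx x I with hy
    have hsy : supp y = I := by
      ext w
      rw [hsupp, hy]
      unfold bx
      split_ifs with h
      · exact ⟨fun _ => h, fun _ => (hsupp x w).1 (hIS h)⟩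
      · exact ⟨fun h' => absurd rfl h', fun h' => absurd h' h⟩
    have hbe : ∀ J, J ⊆ I → bx (ex y) J = bx x J := by
      intro J hJ
      funext w
      unfold bx
      split_ifs with h
      · have h1 : y w = x w := by
          rw [hy]
          unfold bx
          rw [if_pos (hJ h)]
        have h2 : x w ≠ 1 := (hsupp x w).1 (hIS (hJ h))
        change (if y w = 1 then nt w else y w) = x w
        rw [h1, if_neg h2]
      · rfl
    change _ = mobs (fun J => if v ∈ J then T y J v else 0) (supp y) -
      mobs (fun J => if u ∈ J then T y J u else 0) (supp y)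
    rw [hsy, hI, mobs_two _ hne a2 a1, mobs_two _ hne a2 a1, mobs_two _ hne a2 a1, ← mobs_sub]
    apply mobs_congr
    intro J hJ
    have b1 : v ∉ J := fun h => a1 (hJ h)
    have b2 : u ∉ J := fun h => a2 (hJ h)
    have b3 : v ∉ insert u J := by
      rw [Finset.mem_insert]
      rintro (h | h)
      · exact hne h.symm
      · exact b1 h
    have b4 : u ∉ insert v J := by
      rw [Finset.mem_insert]
      rintro (h | h)
      · exact hne h
      · exact b2 h
    have b5 : v ∈ insert v J := Finset.mem_insert_self v J
    have b6 : v ∈ insert u (insert v J) := Finset.mem_insert_of_mem b5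
    have b7 : u ∈ insert u J := Finset.mem_insert_self u J
    have b8 : u ∈ insert u (insert v J) := Finset.mem_insert_self u _
    have c1 : D (bx x (insert v J)) u v = 0 := by
      apply h0
      left
      unfold bx
      rw [if_neg b4]
    have c2 : D (bx x (insert u J)) u v = 0 := by
      apply h0
      right
      unfold bx
      rw [if_neg b3]
    have c3 : D (bx x J) u v = 0 := by
      apply h0
      left
      unfold bx
      rw [if_neg b2]
    have hJI : insert u (insert v J) ⊆ I := by
      rw [hI]
      exact Finset.insert_subset_insert _ (Finset.insert_subset_insert _ hJ)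
    have c4 := hT y u v huv (insert u (insert v J)) b8 b6
    rw [hbe _ hJI, Finset.erase_insert b4, Finset.insert_comm u v J, Finset.erase_insert b3,
      Finset.insert_comm v u J] at c4
    simp only [if_pos b5, if_pos b6, if_pos b7, if_pos b8, if_neg b1, if_neg b2, if_neg b3,
      if_neg b4]
    rw [c1, c2, c3, c4]
    ring

end RC
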