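import Pool.Agent.Helper6.RC.GAct
import Pool.Agent.Helper6.RC.GFun
import Pool.Agent.Helper6.RC.Moeb

/-! The boxes of a graph product. -/

namespace RC

open SH

section box

variable {V : Type} [DecidableEq V] {Γ : SimpleGraph V} {G : V → Type} [∀ v, Group (G v)]

lemma bx_mem (z : ∀ v, G v) {b : Finset V} {v : V} (h : v ∈ b) : bx z b v = z v := if_pos h
lemma bx_not (z : ∀ v, G v) {b : Finset V} {v : V} (h : v ∉ b) : bx z b v = 1 := if_neg h

lemma bx_empty (z : ∀ v, G v) : bx z (∅ : Finset V) = 1 := by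
  funext v
  exact bx_not z (Finset.notMem_empty v)

lemma bx_update (z : ∀ v, G v) (b : Finset V) (v : V) :
    Function.update (bx z b) v 1 = bx z (b.erase v) := by
  funext u
  by_cases h : u = v
  · subst h
    rw [Function.update_self, bx_not z (Finset.notMem_erase u b)]
  · rw [Function.update_of_ne h]
    unfold bx
    simp [h]

lemma bx_insert (z : ∀ v, G v) {b : Finset V} {v : V} (h : v ∉ b) :
    Pi.mulSingle v (z v) * bx z b = bx z (insert v b) := by
  funext u
  rw [Pi.mul_apply]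
  by_cases h' : u = v
  · subst h'
    rw [Pi.mulSingle_eq_same, bx_not z h, mul_one, bx_mem z (Finset.mem_insert_self u b)]
  · rw [Pi.mulSingle_eq_of_ne h', one_mul]
    unfold bx
    simp [h']

lemma bx_erase (z : ∀ v, G v) {b : Finset V} {v : V} (h : v ∈ b) :
    Pi.mulSingle v (z v)⁻¹ * bx z b = bx z (b.erase v) := by
  funext u
  rw [Pi.mul_apply]
  by_cases h' : u = v
  · subst h'
    rw [Pi.mulSingle_eq_same, bx_mem z h, inv_mul_cancel, bx_not z (Finset.notMem_erase u b)]
  · rw [Pi.mulSingle_eq_of_ne h', one_mul]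
    unfold bx
    simp [h']

variable [Fintype V]

/-- the subgroup generated by the generators of a set of vertices -/
def sgC (Γ : SimpleGraph V) (C : Set V) : Subgroup (RAC Γ) :=
  Subgroup.closure {y | ∃ v ∈ C, y = sg Γ v}

/-- the subgroup generated by the vertex groups of a set of vertices -/
def ogC (Γ : SimpleGraph V) (G : V → Type) [∀ v, Group (G v)] (C : Set V) : Subgroup (GP Γ G) :=
  Subgroup.closure {y | ∃ v ∈ C, ∃ a : G v, y = og Γ G v a}

/-- **The box of `z`.** -/
theorem exists_box (z : ∀ v, G v) (hz : ∀ v, z v ≠ 1) :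
    ∃ j : (pi0 Γ).ker →* (gpi Γ G).ker, Function.Injective j ∧
      (∀ w : RAC Γ, ∃ g : GP Γ G, ∀ (C : Set V) (n : (pi0 Γ).ker),
        w * (n : RAC Γ) * w⁻¹ ∈ sgC Γ C → g * (j n : GP Γ G) * g⁻¹ ∈ ogC Γ G C) ∧
      ∀ (p : (∀ v, G v) → GP Γ G) (hp : ∀ x, gpi Γ G (p x) = x)
        (c : (gpi Γ G).ker → (gpi Γ G).ker → ℚ) (hc : IsCoc c)
        (S : (pi0 Γ).ker →* Ex c hc) (hS : ∀ n, (S n).g = j n),
        ∃ A : Finset V → V → Ex c hc,
          (∀ b v, v ∈ b → (((A b v).g : (gpi Γ G).ker) : GP Γ G)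
            = (p (bx z b))⁻¹ * og Γ G v (z v) * p (bx z (b.erase v))) ∧
          ∀ u v, Γ.Adj u v → ∀ b : Finset V, u ∈ b → v ∈ b →
            A b u * A (b.erase u) v = A b v * A (b.erase v) u := by
  classical
  obtain ⟨J, hJ1, hJm, hJs⟩ := rac_functor (Γ := Γ) (H := GP Γ G)
    (fun b v => og Γ G v (z v)) (fun u v huv b _ _ => og_comm huv _ _)
  have hJs' : ∀ v b, J (sg Γ v) b = if v ∈ b then (og Γ G v (z v))⁻¹ else og Γ G v (z v) :=
    fun v b => hJs v b
  -- projection
  have hproj : ∀ w b, gpi Γ G (J w b) * bx z b = bx z (actP Γ w b) := by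
    intro w
    have hw : w ∈ Subgroup.closure (Set.range (sg Γ)) := by
      rw [rac_closure]
      trivial
    have hstep : ∀ v b, gpi Γ G (J (sg Γ v) b) * bx z b = bx z (flp v b) := by
      intro v b
      rw [hJs']
      split_ifs with h
      · rw [← og_inv, gpi_og, flp_mem h, bx_erase z h]
      · rw [gpi_og, flp_not h, bx_insert z h]
    induction hw using Subgroup.closure_induction_left with
    | one => intro b; rw [hJ1, map_one, one_mul, map_one, Equiv.Perm.one_apply]
    | mul_left x hx y _ ih =>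
      obtain ⟨v, rfl⟩ := hx
      intro b
      rw [hJm, map_mul, mul_assoc, ih, hstep, map_mul, Equiv.Perm.mul_apply, actP_sg]
    | inv_mul_cancel x hx y _ ih =>
      obtain ⟨v, rfl⟩ := hx
      intro b
      rw [sg_inv, hJm, map_mul, mul_assoc, ih, hstep, map_mul, Equiv.Perm.mul_apply, actP_sg]
  have hker : ∀ n : (pi0 Γ).ker, J n ∅ ∈ (gpi Γ G).ker := by
    intro n
    have h := hproj n ∅
    rw [act_ker, bx_empty, mul_one] at h
    exact MonoidHom.mem_ker.2 h
  let j : (pi0 Γ).ker →* (gpi Γ G).ker :=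
    { toFun := fun n => ⟨J n ∅, hker n⟩
      map_one' := Subtype.ext (hJ1 ∅)
      map_mul' := fun n m => Subtype.ext (by
        show J ((n : RAC Γ) * m) ∅ = J n ∅ * J m ∅
        rw [hJm, act_ker]) }
  have hj : ∀ n : (pi0 Γ).ker, ((j n : (gpi Γ G).ker) : GP Γ G) = J n ∅ := fun n => rfl
  refine ⟨j, ?_, ?_, ?_⟩
  · -- retraction
    obtain ⟨R, hR1, hRm, hRs⟩ := gp_functor (Γ := Γ) (G := G) (H := RAC Γ)
      (fun x v => if x v = z v then sg Γ v else 1) (by
        intro u v huv x
        simp only [Function.update_of_ne huv.ne.symm, Function.update_of_ne huv.ne]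
        split_ifs
        · exact sg_comm huv
        · rw [mul_one, one_mul]
        · rw [mul_one, one_mul]
        · rfl)
    have hret : ∀ w b, R (J w b) (bx z b) = w := by
      intro w
      have hw : w ∈ Subgroup.closure (Set.range (sg Γ)) := by
        rw [rac_closure]
        trivial
      have hstep : ∀ v b, R (J (sg Γ v) b) (bx z b) = sg Γ v := by
        intro v b
        rw [hJs']
        split_ifs with h
        · rw [← og_inv, hRs, bx_erase z h, bx_mem z h, if_pos rfl,
            bx_not z (Finset.notMem_erase v b), if_neg (fun h' => hz v h'.symm), one_mul, sg_inv]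
        · rw [hRs, bx_insert z h, bx_mem z (Finset.mem_insert_self v b), if_pos rfl,
            bx_not z h, if_neg (fun h' => hz v h'.symm), inv_one, mul_one]
      induction hw using Subgroup.closure_induction_left with
      | one => intro b; rw [hJ1, hR1]
      | mul_left x hx y _ ih =>
        obtain ⟨v, rfl⟩ := hx
        intro b
        rw [hJm, hRm, hproj, hstep, ih]
      | inv_mul_cancel x hx y _ ih =>
        obtain ⟨v, rfl⟩ := hx
        intro b
        rw [sg_inv, hJm, hRm, hproj, hstep, ih]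
    intro n m hnm
    apply Subtype.ext
    rw [← hret n ∅, ← hret m ∅]
    congr 1
    exact congrArg Subtype.val hnm
  · intro w
    refine ⟨J w ∅, fun C n hn => ?_⟩
    have hC : ∀ m ∈ sgC Γ C, ∀ b, J m b ∈ ogC Γ G C := by
      intro m hm
      have hstep : ∀ v ∈ C, ∀ b, J (sg Γ v) b ∈ ogC Γ G C := by
        intro v hv b
        rw [hJs']
        have : og Γ G v (z v) ∈ ogC Γ G C := Subgroup.subset_closure ⟨v, hv, z v, rfl⟩
        split_ifs
        · exact Subgroup.inv_mem _ this
        · exact this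
      induction hm using Subgroup.closure_induction_left with
      | one => intro b; rw [hJ1]; exact Subgroup.one_mem _
      | mul_left x hx y _ ih =>
        obtain ⟨v, hv, rfl⟩ := hx
        intro b
        rw [hJm]
        exact Subgroup.mul_mem _ (hstep v hv _) (ih b)
      | inv_mul_cancel x hx y _ ih =>
        obtain ⟨v, hv, rfl⟩ := hx
        intro b
        rw [sg_inv, hJm]
        exact Subgroup.mul_mem _ (hstep v hv _) (ih b)
    have h1 := hC _ hn (actP Γ w ∅)
    have h2 : J (w * (n : RAC Γ) * w⁻¹) (actP Γ w ∅) * J w ∅ = J w ∅ * J n ∅ := by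
      rw [← hJm, inv_mul_cancel_right, hJm, act_ker]
    rw [hj, ← h2, mul_inv_cancel_right]
    exact h1
  · intro p hp c hc S hS
    choose wd hwd using exists_word (Γ := Γ)
    have hn : ∀ b v, v ∈ b → (wd b)⁻¹ * sg Γ v * wd (b.erase v) ∈ (pi0 Γ).ker := by
      intro b v hv
      rw [MonoidHom.mem_ker, map_mul, map_mul, map_inv, pi0_word (hwd b), pi0_word (hwd _),
        mul_assoc, inv_mul_eq_one]
      have h1 := ind_flp v (b.erase v)
      rw [flp_not (Finset.notMem_erase v b), Finset.insert_erase hv] at h1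
      rw [h1]
      congr 1
      exact (pi0_of Γ v).symm
    have hk : ∀ b, (p (bx z b))⁻¹ * J (wd b) ∅ ∈ (gpi Γ G).ker := by
      intro b
      have h := hproj (wd b) ∅
      rw [bx_empty, mul_one, hwd] at h
      rw [MonoidHom.mem_ker, map_mul, map_inv, hp, h, inv_mul_cancel]
    let kt : Finset V → Ex c hc := fun b => ⟨0, ⟨_, hk b⟩⟩
    have hkt : ∀ b, (((kt b).g : (gpi Γ G).ker) : GP Γ G) = (p (bx z b))⁻¹ * J (wd b) ∅ :=
      fun b => rfl
    let A : Finset V → V → Ex c hc := fun b v =>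
      if h : v ∈ b then kt b * S ⟨_, hn b v h⟩ * (kt (b.erase v))⁻¹ else 1
    have hA : ∀ b v (h : v ∈ b), A b v = kt b * S ⟨_, hn b v h⟩ * (kt (b.erase v))⁻¹ :=
      fun b v h => dif_pos h
    refine ⟨A, ?_, ?_⟩
    · intro b v hv
      rw [hA b v hv, Ex.mul_g, Ex.mul_g, Ex.inv_g, hS, Subgroup.coe_mul, Subgroup.coe_mul,
        Subgroup.coe_inv, hkt, hkt, hj]
      have h1 : J (wd b) ∅ * J ((wd b)⁻¹ * sg Γ v * wd (b.erase v)) ∅
          = og Γ G v (z v) * J (wd (b.erase v)) ∅ := by
        have e1 := act_ker ⟨_, hn b v hv⟩ ∅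
        have e2 := hJm (wd b) ((wd b)⁻¹ * sg Γ v * wd (b.erase v)) ∅
        rw [show actP Γ ((wd b)⁻¹ * sg Γ v * wd (b.erase v)) ∅ = ∅ from e1] at e2
        rw [← e2, mul_assoc, mul_inv_cancel_left, hJm, hwd, hJs',
          if_neg (Finset.notMem_erase v b)]
      show (p (bx z b))⁻¹ * J (wd b) ∅ * J ((wd b)⁻¹ * sg Γ v * wd (b.erase v)) ∅ *
        ((p (bx z (b.erase v)))⁻¹ * J (wd (b.erase v)) ∅)⁻¹ = _
      rw [mul_assoc (p (bx z b))⁻¹, h1]
      group
    · intro u v huv b hu hv
      have hv' : v ∈ b.erase u := Finset.mem_erase.2 ⟨huv.ne.symm, hv⟩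
      have hu' : u ∈ b.erase v := Finset.mem_erase.2 ⟨huv.ne, hu⟩
      rw [hA b u hu, hA b v hv, hA _ v hv', hA _ u hu']
      have e1 : kt b * S ⟨_, hn b u hu⟩ * (kt (b.erase u))⁻¹ *
          (kt (b.erase u) * S ⟨_, hn _ v hv'⟩ * (kt ((b.erase u).erase v))⁻¹)
          = kt b * S (⟨_, hn b u hu⟩ * ⟨_, hn _ v hv'⟩) * (kt ((b.erase u).erase v))⁻¹ := by
        rw [map_mul]
        group
      have e2 : kt b * S ⟨_, hn b v hv⟩ * (kt (b.erase v))⁻¹ *
          (kt (b.erase v) * S ⟨_, hn _ u hu'⟩ * (kt ((b.erase v).erase u))⁻¹)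
          = kt b * S (⟨_, hn b v hv⟩ * ⟨_, hn _ u hu'⟩) * (kt ((b.erase v).erase u))⁻¹ := by
        rw [map_mul]
        group
      have e3 : (b.erase u).erase v = (b.erase v).erase u := Finset.erase_right_comm
      have e4 : (⟨_, hn b u hu⟩ * ⟨_, hn _ v hv'⟩ : (pi0 Γ).ker)
          = ⟨_, hn b v hv⟩ * ⟨_, hn _ u hu'⟩ := by
        apply Subtype.ext
        show (wd b)⁻¹ * sg Γ u * wd (b.erase u) * ((wd (b.erase u))⁻¹ * sg Γ v *
          wd ((b.erase u).erase v)) = (wd b)⁻¹ * sg Γ v * wd (b.erase v) * ((wd (b.erase v))⁻¹ *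
          sg Γ u * wd ((b.erase v).erase u))
        rw [e3]
        have hs := sg_comm huv
        generalize sg Γ u = s at hs ⊢
        generalize sg Γ v = t at hs ⊢
        calc (wd b)⁻¹ * s * wd (b.erase u) * ((wd (b.erase u))⁻¹ * t * wd ((b.erase v).erase u))
            = (wd b)⁻¹ * (s * t) * wd ((b.erase v).erase u) := by group
          _ = (wd b)⁻¹ * (t * s) * wd ((b.erase v).erase u) := by rw [hs]
          _ = _ := by group
      rw [e1, e2, e4, e3]

end box

end RC
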