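import Pool.Agent.Helper6.RC.Fin

/-! Graph products of groups. -/

namespace RC

open SH

section gp

variable {V : Type}

/-- relators of the graph product: the multiplication tables of the vertex groups and the
commutators of the elements of adjacent vertex groups -/
def gpRels (Γ : SimpleGraph V) (G : V → Type) [∀ v, Group (G v)] : Set (FreeGroup (Σ v, G v)) :=
  {r | (∃ (v : V) (g h : G v), r = FreeGroup.of ⟨v, g⟩ * FreeGroup.of ⟨v, h⟩ *
      (FreeGroup.of ⟨v, g * h⟩)⁻¹) ∨
    ∃ (u v : V) (g : G u) (h : G v), Γ.Adj u v ∧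
      r = cm (FreeGroup.of ⟨u, g⟩) (FreeGroup.of ⟨v, h⟩)}

/-- the graph product of the groups `G v` over the graph `Γ` -/
abbrev GP (Γ : SimpleGraph V) (G : V → Type) [∀ v, Group (G v)] : Type :=
  PresentedGroup (gpRels Γ G)

variable (Γ : SimpleGraph V) (G : V → Type) [∀ v, Group (G v)]

/-- the elements of the vertex groups -/
def og (v : V) (g : G v) : GP Γ G := PresentedGroup.of ⟨v, g⟩

variable {Γ G}

lemma og_mul (v : V) (g h : G v) : og Γ G v (g * h) = og Γ G v g * og Γ G v h := by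
  have h1 : PresentedGroup.mk (gpRels Γ G) (FreeGroup.of ⟨v, g⟩ * FreeGroup.of ⟨v, h⟩ *
      (FreeGroup.of ⟨v, g * h⟩)⁻¹) = 1 := PresentedGroup.one_of_mem (Or.inl ⟨v, g, h, rfl⟩)
  rw [map_mul, map_mul, map_inv, mul_inv_eq_one] at h1
  exact h1.symm

lemma og_one (v : V) : og Γ G v 1 = 1 := by
  have h := og_mul (Γ := Γ) (G := G) v 1 1
  rw [one_mul] at h
  exact left_eq_mul.1 h

lemma og_inv (v : V) (g : G v) : og Γ G v g⁻¹ = (og Γ G v g)⁻¹ := by
  rw [eq_inv_iff_mul_eq_one, ← og_mul, inv_mul_cancel, og_one]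

lemma og_comm {u v : V} (h : Γ.Adj u v) (a : G u) (b : G v) :
    og Γ G u a * og Γ G v b = og Γ G v b * og Γ G u a := by
  have h1 : PresentedGroup.mk (gpRels Γ G) (cm (FreeGroup.of ⟨u, a⟩) (FreeGroup.of ⟨v, b⟩)) = 1 :=
    PresentedGroup.one_of_mem (Or.inr ⟨u, v, a, b, h, rfl⟩)
  rw [map_cm] at h1
  have h2 : cm (og Γ G u a) (og Γ G v b) = 1 := h1
  unfold cm at h2
  rw [mul_inv_eq_one, mul_inv_eq_iff_eq_mul] at h2
  exact h2

lemma gp_closure : Subgroup.closure {y | ∃ v a, y = og Γ G v a} = ⊤ := by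
  rw [eq_top_iff, ← PresentedGroup.closure_range_of (gpRels Γ G)]
  apply Subgroup.closure_mono
  rintro _ ⟨⟨v, a⟩, rfl⟩
  exact ⟨v, a, rfl⟩

/-- homomorphisms from a graph product -/
def glift {H : Type*} [Group H] (f : ∀ v, G v → H) (h1 : ∀ v g h, f v (g * h) = f v g * f v h)
    (h2 : ∀ u v, Γ.Adj u v → ∀ g h, f u g * f v h = f v h * f u g) : GP Γ G →* H :=
  PresentedGroup.toGroup (f := fun s : Σ v, G v => f s.1 s.2) (by
    rintro r (⟨v, g, h, rfl⟩ | ⟨u, v, g, h, huv, rfl⟩)
    · rw [map_mul, map_mul, map_inv, FreeGroup.lift_apply_of, FreeGroup.lift_apply_of,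
        FreeGroup.lift_apply_of, mul_inv_eq_one]
      exact (h1 v g h).symm
    · rw [map_cm, FreeGroup.lift_apply_of, FreeGroup.lift_apply_of]
      show f u g * f v h * (f u g)⁻¹ * (f v h)⁻¹ = 1
      rw [h2 u v huv, mul_inv_cancel_right, mul_inv_cancel])

@[simp] lemma glift_og {H : Type*} [Group H] (f : ∀ v, G v → H)
    (h1 : ∀ v g h, f v (g * h) = f v g * f v h)
    (h2 : ∀ u v, Γ.Adj u v → ∀ g h, f u g * f v h = f v h * f u g) (v : V) (g : G v) :
    glift (Γ := Γ) f h1 h2 (og Γ G v g) = f v g := by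
  unfold glift og
  rw [PresentedGroup.toGroup.of]

variable (Γ G)

/-- the subgroup generated by the vertex groups of the vertices `cy i`, `i < n` -/
def cycGP (n : ℕ) (cy : ℕ → V) : Subgroup (GP Γ G) :=
  Subgroup.closure {y | ∃ i, i < n ∧ ∃ a : G (cy i), y = PresentedGroup.of ⟨cy i, a⟩}

variable [DecidableEq V]

/-- the projection of the graph product to the product of the vertex groups -/
def gpi : GP Γ G →* ∀ v, G v :=
  glift (fun v g => Pi.mulSingle v g) (fun v g h => Pi.mulSingle_mul v g h)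
    (fun u v huv g h => by
      funext w
      simp only [Pi.mul_apply]
      by_cases hu : w = u
      · subst hu
        have : Pi.mulSingle v h w = 1 := Pi.mulSingle_eq_of_ne huv.ne h
        rw [this, mul_one, one_mul]
      · have : Pi.mulSingle u g w = 1 := Pi.mulSingle_eq_of_ne hu g
        rw [this, mul_one, one_mul])

lemma gpi_og (v : V) (g : G v) : gpi Γ G (og Γ G v g) = Pi.mulSingle v g := glift_og _ _ _ v g

end gp

end RC
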