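import Pool.Agent.Helper6.RC.GBox

/-! The second homology of the kernel of a graph product onto the product of its vertex groups. -/

namespace RC

open SH

lemma lin_pull {G H : Type*} [Group G] [Group H] (f : G →* H) (c : H → H → ℚ) (z : C2 G) :
    lin (fun x y => c (f x) (f y)) z = lin c (c2 f z) := by
  have h : lin (fun x y => c (f x) (f y)) = (lin c).comp (c2 f) := by
    apply Finsupp.lhom_ext
    rintro ⟨g, k⟩ q
    rw [LinearMap.comp_apply, c2_single, lin_single, lin_single]
  rw [h]
  rfl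

/-- a coboundary pulled back gives a lift -/
lemma lift_of_cob {N K : Type*} [Group N] [Group K] (j : N →* K) (c : K → K → ℚ) (hc : IsCoc c)
    (h : IsCob fun x y => c (j x) (j y)) : ∃ S : N →* Ex c hc, ∀ n, (S n).g = j n := by
  obtain ⟨u, hu⟩ := h
  refine ⟨MonoidHom.mk' (fun n => ⟨-u n, j n⟩) fun a b => ?_, fun n => rfl⟩
  apply Ex.ext
  · show -u (a * b) = -u a + -u b + c (j a) (j b)
    rw [show c (j a) (j b) = u b - u (a * b) + u a from hu a b]
    ring
  · show j (a * b) = j a * j b
    exact map_mul j a b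

section main

variable {V : Type} [Fintype V] [DecidableEq V] (Γ : SimpleGraph V) (G : V → Type)
  [∀ v, Group (G v)]

lemma gpi_surj : Function.Surjective (gpi Γ G) := by
  intro x
  have h : ∀ s : Finset V, ∃ w, gpi Γ G w = bx x s := by
    intro s
    induction s using Finset.induction_on with
    | empty => exact ⟨1, by rw [map_one, bx_empty]⟩
    | insert v s hv ih =>
      obtain ⟨w, hw⟩ := ih
      exact ⟨og Γ G v (x v) * w, by rw [map_mul, hw, gpi_og, bx_insert x hv]⟩
  obtain ⟨w, hw⟩ := h Finset.univ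
  refine ⟨w, ?_⟩
  rw [hw]
  funext v
  exact bx_mem x (Finset.mem_univ v)

lemma exists_gsection : ∃ p : (∀ v, G v) → GP Γ G, (∀ x, gpi Γ G (p x) = x) ∧ p 1 = 1 := by
  classical
  choose r hr using gpi_surj Γ G
  refine ⟨fun a => if a = 1 then 1 else r a, fun a => ?_, if_pos rfl⟩
  show gpi Γ G (if a = 1 then 1 else r a) = a
  split_ifs with h
  · rw [map_one, h]
  · exact hr a

lemma ogC_le (n : ℕ) (cy : ℕ → V) : ogC Γ G {v | ∃ i, i < n ∧ v = cy i} ≤ cycGP Γ G n cy := by
  unfold ogC cycGP
  apply Subgroup.closure_mono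
  rintro y ⟨v, ⟨i, hi, rfl⟩, a, rfl⟩
  exact ⟨i, hi, a, rfl⟩

lemma cycG_le (n : ℕ) (cy : ℕ → V) : cycG Γ n cy ≤ sgC Γ {v | ∃ i, i < n ∧ v = cy i} := by
  unfold cycG sgC
  apply Subgroup.closure_mono
  rintro y ⟨i, hi, rfl⟩
  exact ⟨cy i, ⟨i, hi, rfl⟩, rfl⟩

variable [∀ v, Nontrivial (G v)]

/-- cocycles on the kernel which vanish on the surfaces in the conjugates of the cycle groups are
coboundaries -/
theorem gp_cob (c : (gpi Γ G).ker → (gpi Γ G).ker → ℚ) (hc : IsCoc c)
    (hz : ∀ (g : ℕ) (ρ : SurfGrp g →* (gpi Γ G).ker), 1 ≤ g → Function.Injective ρ →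
      (∃ (n : ℕ) (cy : ℕ → V) (w : GP Γ G), 4 ≤ n ∧ IndCyc Γ n cy ∧
        ∀ x, w * (ρ x : GP Γ G) * w⁻¹ ∈ cycGP Γ G n cy) →
      lin c (sfc (fun i => ρ (ga i)) (fun i => ρ (gb i))) = 0) : IsCob c := by
  classical
  obtain ⟨p, hp, hp1⟩ := exists_gsection Γ G
  -- lifts along the boxes
  have hboxes : ∀ z : ∀ v, G v, (∀ v, z v ≠ 1) → ∃ A : Finset V → V → Ex c hc,
      (∀ b v, v ∈ b → (((A b v).g : (gpi Γ G).ker) : GP Γ G)
        = (p (bx z b))⁻¹ * og Γ G v (z v) * p (bx z (b.erase v))) ∧
      ∀ u v, Γ.Adj u v → ∀ b : Finset V, u ∈ b → v ∈ b →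
        A b u * A (b.erase u) v = A b v * A (b.erase v) u := by
    intro z hzz
    obtain ⟨j, hj, hconj, hlift⟩ := exists_box (Γ := Γ) z hzz
    have hcob : IsCob fun x y => c (j x) (j y) := by
      apply cob_main Γ (fun x y => c (j x) (j y))
      · intro x y w
        have h := hc (j x) (j y) (j w)
        rw [← map_mul, ← map_mul] at h
        exact h
      · intro g ρ hg hρ hw
        obtain ⟨n, cy, w, hn, hcy, hw⟩ := hw
        obtain ⟨g0, hg0⟩ := hconj w
        rw [lin_pull, c2_sfc]
        apply hz g (j.comp ρ) hg (hj.comp hρ)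
        refine ⟨n, cy, g0, hn, hcy, fun x => ogC_le Γ G n cy (hg0 _ (ρ x) ?_)⟩
        exact cycG_le Γ n cy (hw x)
    obtain ⟨S, hS⟩ := lift_of_cob j c hc hcob
    exact hlift p hp c hc S hS
  -- arbitrary lifts
  have hA0 : ∀ (x : ∀ v, G v) (v : V), ∃ a : Ex c hc,
      (((a.g : (gpi Γ G).ker)) : GP Γ G)
        = (p x)⁻¹ * og Γ G v (x v) * p (Function.update x v 1) ∧ (x v = 1 → a = 1) := by
    intro x v
    by_cases hx : x v = 1
    · refine ⟨1, ?_, fun _ => rfl⟩
      have h1 : Function.update x v 1 = x := by rw [← hx, Function.update_eq_self]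
      rw [h1, hx, og_one, mul_one, inv_mul_cancel]
      rfl
    · refine ⟨⟨0, ⟨(p x)⁻¹ * og Γ G v (x v) * p (Function.update x v 1), ?_⟩⟩, rfl,
        fun h => absurd h hx⟩
      rw [MonoidHom.mem_ker, map_mul, map_mul, map_inv, hp, hp, gpi_og, mul_assoc,
        inv_mul_eq_one]
      funext u
      rw [Pi.mul_apply]
      by_cases h : u = v
      · subst h
        rw [Pi.mulSingle_eq_same, Function.update_self, mul_one]
      · rw [Pi.mulSingle_eq_of_ne h, Function.update_of_ne h, one_mul]
  choose A0 hA0g hA01 using hA0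
  let X : (∀ v, G v) → V → V → Ex c hc := fun x u v =>
    A0 x u * A0 (Function.update x u 1) v * (A0 x v * A0 (Function.update x v 1) u)⁻¹
  let D : (∀ v, G v) → V → V → ℚ := fun x u v => (X x u v).v + c 1 1
  have hX1 : ∀ x u v, Γ.Adj u v → (X x u v).g = 1 := by
    intro x u v huv
    have h1 : Function.update (Function.update x u 1) v 1
        = Function.update (Function.update x v 1) u 1 := Function.update_comm huv.ne _ _ _
    have h2 : ((A0 x u * A0 (Function.update x u 1) v).g)
        = (A0 x v * A0 (Function.update x v 1) u).g := by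
      apply Subtype.ext
      rw [Ex.mul_g, Ex.mul_g, Subgroup.coe_mul, Subgroup.coe_mul, hA0g, hA0g, hA0g, hA0g,
        Function.update_of_ne huv.ne.symm, Function.update_of_ne huv.ne, h1]
      have hs := og_comm (G := G) huv (x u) (x v)
      generalize og Γ G u (x u) = s at hs ⊢
      generalize og Γ G v (x v) = t at hs ⊢
      generalize p (Function.update (Function.update x v 1) u 1) = q
      calc (p x)⁻¹ * s * p (Function.update x u 1) * ((p (Function.update x u 1))⁻¹ * t * q)
          = (p x)⁻¹ * (s * t) * q := by group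
        _ = (p x)⁻¹ * (t * s) * q := by rw [hs]
        _ = _ := by group
    show (A0 x u * A0 (Function.update x u 1) v * (A0 x v * A0 (Function.update x v 1) u)⁻¹).g = 1
    rw [Ex.mul_g (A0 x u * A0 (Function.update x u 1) v), Ex.inv_g, h2, mul_inv_cancel]
  have hX : ∀ x u v, Γ.Adj u v → A0 x u * A0 (Function.update x u 1) v
      = zz hc (D x u v) * (A0 x v * A0 (Function.update x v 1) u) := by
    intro x u v huv
    have h := exists_zz (hX1 x u v huv)
    show _ = zz hc ((X x u v).v + c 1 1) * _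
    rw [← h]
    show _ = A0 x u * A0 (Function.update x u 1) v * (A0 x v * A0 (Function.update x v 1) u)⁻¹ * _
    rw [inv_mul_cancel_right]
  have hD0 : ∀ x u v, x u = 1 ∨ x v = 1 → D x u v = 0 := by
    intro x u v h
    have h1 : X x u v = 1 := by
      show A0 x u * A0 (Function.update x u 1) v * (A0 x v * A0 (Function.update x v 1) u)⁻¹ = 1
      rw [mul_inv_eq_one]
      rcases h with h | h
      · have e1 : Function.update x u 1 = x := by rw [← h, Function.update_eq_self]
        have e2 : Function.update x v 1 u = 1 := by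
          by_cases huv : u = v
          · subst huv
            exact Function.update_self _ _ _
          · rw [Function.update_of_ne huv, h]
        rw [hA01 x u h, e1, hA01 _ u e2, one_mul, mul_one]
      · have e1 : Function.update x v 1 = x := by rw [← h, Function.update_eq_self]
        have e2 : Function.update x u 1 v = 1 := by
          by_cases huv : v = u
          · subst huv
            exact Function.update_self _ _ _
          · rw [Function.update_of_ne huv, h]
        rw [hA01 x v h, e1, hA01 _ v e2, one_mul, mul_one]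
    show (X x u v).v + c 1 1 = 0
    rw [h1, Ex.one_v, neg_add_cancel]
  obtain ⟨t, ht0, ht⟩ := moebius Γ G D hD0 (by
    intro z hzz
    obtain ⟨A, hA, hsq⟩ := hboxes z hzz
    have h1 : ∀ b v, v ∈ b → ∃ q : ℚ, A0 (bx z b) v = zz hc q * A b v := by
      intro b v hv
      have h2 : (A0 (bx z b) v * (A b v)⁻¹).g = 1 := by
        rw [Ex.mul_g, Ex.inv_g, mul_inv_eq_one]
        apply Subtype.ext
        rw [hA0g, hA b v hv, bx_mem z hv, bx_update]
      have h3 := exists_zz h2
      exact ⟨_, by rw [← h3, inv_mul_cancel_right]⟩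
    have h2 : ∀ b v, ∃ q : ℚ, v ∈ b → A0 (bx z b) v = zz hc q * A b v := by
      intro b v
      by_cases hv : v ∈ b
      · obtain ⟨q, hq⟩ := h1 b v hv
        exact ⟨q, fun _ => hq⟩
      · exact ⟨0, fun h => absurd h hv⟩
    choose q hq using h2
    refine ⟨fun b v => -q b v, fun u v huv b hu hv => ?_⟩
    have e1 := hX (bx z b) u v huv
    rw [bx_update, bx_update, hq b u hu, hq b v hv,
      hq _ v (Finset.mem_erase.2 ⟨huv.ne.symm, hv⟩), hq _ u (Finset.mem_erase.2 ⟨huv.ne, hu⟩)] at e1
    have e2 := hsq u v huv b hu hv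
    have e3 : ∀ (r s : ℚ) (a b : Ex c hc), zz hc r * a * (zz hc s * b) = zz hc (r + s) * (a * b) := by
      intro r s a b
      rw [zz_add, ← mul_assoc (zz hc r * a), mul_assoc (zz hc r) a, ← zz_comm s a]
      simp only [mul_assoc]
    rw [e3, e3, e2, ← mul_assoc (zz hc (D (bx z b) u v)), ← zz_add, mul_left_inj] at e1
    have e4 := zz_inj e1
    show D (bx z b) u v = (-q b v - -q (b.erase u) v) - (-q b u - -q (b.erase v) u)
    linarith)
  apply cob_of_A (Γ := Γ) (G := G) c hc p hp hp1 (fun x v => zz hc (t x v) * A0 x v)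
  · intro x v
    show (((zz hc (t x v) * A0 x v).g : (gpi Γ G).ker) : GP Γ G) = _
    rw [Ex.mul_g]
    show ((1 * (A0 x v).g : (gpi Γ G).ker) : GP Γ G) = _
    rw [one_mul, hA0g]
  · intro u v huv x
    have e3 : ∀ (r s : ℚ) (a b : Ex c hc), zz hc r * a * (zz hc s * b) = zz hc (r + s) * (a * b) := by
      intro r s a b
      rw [zz_add, ← mul_assoc (zz hc r * a), mul_assoc (zz hc r) a, ← zz_comm s a]
      simp only [mul_assoc]
    show zz hc (t x u) * A0 x u * (zz hc (t (Function.update x u 1) v) * A0 (Function.update x u 1) v)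
      = zz hc (t x v) * A0 x v * (zz hc (t (Function.update x v 1) u) * A0 (Function.update x v 1) u)
    rw [e3, e3, hX x u v huv, ← mul_assoc (zz hc (t x u + t (Function.update x u 1) v)), ← zz_add]
    congr 2
    by_cases hu : x u = 1
    · have e1 : Function.update x u 1 = x := by rw [← hu, Function.update_eq_self]
      have e2 : Function.update x v 1 u = 1 := by rw [Function.update_of_ne huv.ne, hu]
      rw [hD0 x u v (Or.inl hu), ht0 x u hu, e1, ht0 _ u e2]
      ring
    · by_cases hv : x v = 1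
      · have e1 : Function.update x v 1 = x := by rw [← hv, Function.update_eq_self]
        have e2 : Function.update x u 1 v = 1 := by rw [Function.update_of_ne huv.ne.symm, hv]
        rw [hD0 x u v (Or.inr hv), ht0 x v hv, e1, ht0 _ v e2]
        ring
      · rw [ht u v huv x hu hv]
        ring

/-- the classes of the surface subgroups of the kernel which are conjugate in the graph product
into the subgroup generated by the vertex groups of an induced cycle of length at least four -/
def cycSurf : Set (H2 (gpi Γ G).ker) :=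
  {α | ∃ (g : ℕ) (ρ : SurfGrp g →* (gpi Γ G).ker), 1 ≤ g ∧ Function.Injective ρ ∧
    (∃ (n : ℕ) (cy : ℕ → V) (w : GP Γ G), 4 ≤ n ∧ IndCyc Γ n cy ∧
      ∀ x, w * (ρ x : GP Γ G) * w⁻¹ ∈ cycGP Γ G n cy) ∧ α = h2 ρ (fundCl g)}

theorem gp_span : Submodule.span ℚ (cycSurf Γ G) = ⊤ := by
  apply span_of_dual
  intro c hc h
  apply gp_cob Γ G c hc
  intro g ρ hg hρ hw
  have h1 := h (z2 ρ ⟨sfc (fun i => ga i) (fun i => gb i), sfc_cycle _ _ (surf_rel g)⟩)
    ⟨g, ρ, hg, hρ, hw, rfl⟩
  rw [z2_val] at h1
  rw [← c2_sfc]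
  exact h1

theorem gp_q1 : Q1 (gpi Γ G).ker := by
  apply Q1_of_span (J := {x : (g : ℕ) × (SurfGrp g →* (gpi Γ G).ker) // Function.Injective x.2})
    (fun j => j.1.1) (fun j => j.1.2) (fun j => j.2)
  rw [eq_top_iff, ← gp_span Γ G]
  apply Submodule.span_mono
  rintro α ⟨g, ρ, _, hρ, _, rfl⟩
  exact ⟨⟨⟨g, ρ⟩, hρ⟩, rfl⟩

end main

end RC
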