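import Pool.Agent.Helper6.RC.GMain

/-! The statement of the theorem on graph products. -/

namespace RC

open SH

section general

variable {P : Type} [Group P]

/-- a conjugate of the image of `ρ` by an element of `P` lies in one of the subgroups in `S` -/
def ConjInto {F : Type} [Group F] {N : Subgroup P} (ρ : F →* N) (S : Set (Subgroup P)) : Prop :=
  ∃ w : P, ∃ C ∈ S, ∀ x, w * (ρ x : P) * w⁻¹ ∈ C

/-- the classes in `H₂(N; ℚ)` of the injective surface groups `ρ` of positive genus in the subgroup
`N` of `P` which are conjugate in `P` into one of the subgroups in `S` -/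
def surfIn (N : Subgroup P) (S : Set (Subgroup P)) : Set (H2 N) :=
  {α | ∃ (g : ℕ) (ρ : SurfGrp g →* N), 1 ≤ g ∧ Function.Injective ρ ∧ ConjInto ρ S ∧
    α = h2 ρ (fundCl g)}

/-- these classes span the second homology -/
def Spanned (N : Subgroup P) (S : Set (Subgroup P)) : Prop := Submodule.span ℚ (surfIn N S) = ⊤

/-- Q1 is true for all groups which contain `N` as a subgroup of finite index -/
def Q1Above (N : Type) [Group N] : Prop :=
  ∀ (H : Type) [Group H] (ι : N →* H), Function.Injective ι → ι.range.FiniteIndex → Q1 H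

end general

section gp

variable {V : Type} [DecidableEq V] (Γ : SimpleGraph V) (G : V → Type) [∀ v, Group (G v)]

/-- the kernel of the projection of the graph product to the product of the vertex groups -/
def KG : Subgroup (GP Γ G) := (gpi Γ G).ker

omit [DecidableEq V] in
/-- the subgroups generated by the vertex groups of the induced cycles of length at least four -/
def cycSub : Set (Subgroup (GP Γ G)) :=
  {C | ∃ (n : ℕ) (cy : ℕ → V), 4 ≤ n ∧ IndCyc Γ n cy ∧ C = cycGP Γ G n cy}

end gp

section main

variable {V : Type} [Fintype V] [DecidableEq V] (Γ : SimpleGraph V) (G : V → Type)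
  [∀ v, Group (G v)] [∀ v, Nontrivial (G v)]

theorem spanned_KG : Spanned (KG Γ G) (cycSub Γ G) := by
  have h := gp_span Γ G
  have h2 : cycSurf Γ G ⊆ surfIn (KG Γ G) (cycSub Γ G) := by
    rintro α ⟨g, ρ, hg, hρ, ⟨n, cy, w, hn, hcy, hw⟩, rfl⟩
    exact ⟨g, ρ, hg, hρ, ⟨w, cycGP Γ G n cy, ⟨n, cy, hn, hcy, rfl⟩, hw⟩, rfl⟩
  show Submodule.span ℚ (surfIn (gpi Γ G).ker (cycSub Γ G)) = ⊤
  rw [eq_top_iff, ← h]
  exact Submodule.span_mono h2

theorem q1Above_KG : Q1Above (KG Γ G) := fun H _ ι hι hf => Q1_of_range ι hι hf (gp_q1 Γ G)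

theorem q1_between (hfin : ∀ v, Finite (G v)) (L : Subgroup (GP Γ G)) (hL : KG Γ G ≤ L) :
    Q1 L := by
  refine q1Above_KG Γ G L (Subgroup.inclusion hL) (Subgroup.inclusion_injective hL) ?_
  have h3 : (gpi Γ G).ker.FiniteIndex := inferInstance
  have h4 : (KG Γ G).FiniteIndex := h3
  rw [Subgroup.inclusion_range]
  infer_instance

end main

end RC
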