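import Pool.Agent.Helper6.RC.Defs

/-! The graph lemma: a function on the oriented edges of a graph which is antisymmetric, additive on
triangles and has sum zero along the induced cycles of length at least four is a coboundary. -/

set_option autoImplicit false

namespace RC

section graph

variable {V : Type}

/-- there is a walk of length `n` from `u` to `v` along which the sum of `q` is `x` -/
inductive Seg (Γ : SimpleGraph V) (q : V → V → ℚ) : V → V → ℕ → ℚ → Prop
  | nil (u : V) : Seg Γ q u u 0 0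
  | cons {u v w : V} {n : ℕ} {x : ℚ} (h : Γ.Adj u v) (s : Seg Γ q v w n x) :
      Seg Γ q u w (n + 1) (q u v + x)

variable {Γ : SimpleGraph V} {q : V → V → ℚ}

theorem Seg.append {u v w : V} {n m : ℕ} {x y : ℚ} (h : Seg Γ q u v n x) (h' : Seg Γ q v w m y) :
    Seg Γ q u w (n + m) (x + y) := by
  induction h with
  | nil u => simpa using h'
  | cons e s ih =>
    have := Seg.cons e (ih h')
    rw [← add_assoc] at this
    convert this using 1
    omega

theorem Seg.edge {u v : V} (h : Γ.Adj u v) : Seg Γ q u v 1 (q u v) := by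
  have := Seg.cons (q := q) h (Seg.nil v)
  simpa using this

theorem Seg.reverse (hanti : ∀ u v, Γ.Adj u v → q v u = -q u v) {u v : V} {n : ℕ} {x : ℚ}
    (h : Seg Γ q u v n x) : Seg Γ q v u n (-x) := by
  induction h with
  | nil u => simpa using Seg.nil (Γ := Γ) (q := q) u
  | cons e s ih =>
    have := ih.append (Seg.edge e.symm)
    rw [hanti _ _ e] at this
    convert this using 1
    ring

/-- sum of `q` along `m` steps of a sequence, starting at `i` -/
def S (q : V → V → ℚ) (c : ℕ → V) (i m : ℕ) : ℚ :=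
  ∑ t ∈ Finset.range m, q (c (i + t)) (c (i + t + 1))

theorem S_add (c : ℕ → V) (i m m' : ℕ) : S q c i (m + m') = S q c i m + S q c (i + m) m' := by
  unfold S
  rw [Finset.sum_range_add]
  congr 1
  refine Finset.sum_congr rfl fun t _ => ?_
  rw [← add_assoc]

theorem seg_of_seq (c : ℕ → V) (m : ℕ) : ∀ i, (∀ t, t < m → Γ.Adj (c (i + t)) (c (i + t + 1))) →
    Seg Γ q (c i) (c (i + m)) m (S q c i m) := by
  induction m with
  | zero => intro i _; simpa [S] using Seg.nil (Γ := Γ) (q := q) (c i)
  | succ m ih =>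
    intro i h
    have h1 := ih i fun t ht => h t (by omega)
    have h2 := h1.append (Seg.edge (h m (Nat.lt_succ_self m)))
    rw [S_add, ← Nat.add_assoc]
    simpa [S] using h2

theorem seq_of_seg {u v : V} {n : ℕ} {x : ℚ} (h : Seg Γ q u v n x) : ∃ c : ℕ → V, c 0 = u ∧
    c n = v ∧ (∀ i, i < n → Γ.Adj (c i) (c (i + 1))) ∧ x = S q c 0 n := by
  induction h with
  | nil u => exact ⟨fun _ => u, rfl, rfl, fun i hi => absurd hi (Nat.not_lt_zero i), by simp [S]⟩
  | @cons u v w n x e s ih =>
    obtain ⟨c, h0, h1, h2, h3⟩ := ih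
    refine ⟨fun i => Nat.casesOn i u c, rfl, h1, ?_, ?_⟩
    · intro i hi
      cases i with
      | zero => show Γ.Adj u (c 0); rw [h0]; exact e
      | succ i => exact h2 i (by omega)
    · rw [h3]
      unfold S
      rw [Finset.sum_range_succ']
      simp only [zero_add]
      show q u v + _ = _ + q u (c 0)
      rw [h0, add_comm]

/-- the sum along every closed walk is zero -/
theorem closed_zero (hanti : ∀ u v, Γ.Adj u v → q v u = -q u v)
    (htri : ∀ u v w, Γ.Adj u v → Γ.Adj v w → Γ.Adj u w → q u w = q u v + q v w)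
    (hcyc : ∀ (n : ℕ) (c : ℕ → V), 4 ≤ n → IndCyc Γ n c →
      ∑ i ∈ Finset.range n, q (c i) (c (i + 1)) = 0) (n : ℕ) :
    ∀ (u : V) (x : ℚ), Seg Γ q u u n x → x = 0 := by
  induction n using Nat.strong_induction_on with
  | _ n ih =>
  intro u x h
  obtain ⟨c, h0, h1, h2, h3⟩ := seq_of_seg h
  -- splitting
  have hsplit : ∀ i j, i < j → j < n →
      Seg Γ q (c 0) (c i) i (S q c 0 i) ∧ Seg Γ q (c i) (c j) (j - i) (S q c i (j - i)) ∧
      Seg Γ q (c j) (c n) (n - j) (S q c j (n - j)) ∧
      x = S q c 0 i + S q c i (j - i) + S q c j (n - j) := by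
    intro i j hij hj
    refine ⟨?_, ?_, ?_, ?_⟩
    · have := seg_of_seq (q := q) c i 0 fun t ht => h2 (0 + t) (by omega)
      simpa using this
    · have := seg_of_seq (q := q) c (j - i) i fun t ht => h2 (i + t) (by omega)
      rwa [show i + (j - i) = j by omega] at this
    · have := seg_of_seq (q := q) c (n - j) j fun t ht => h2 (j + t) (by omega)
      rwa [show j + (n - j) = n by omega] at this
    · rw [h3]
      conv_lhs => rw [show n = i + ((j - i) + (n - j)) by omega]
      rw [S_add, S_add, show 0 + i = i by omega, show i + (j - i) = j by omega]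
      ring
  have hcl : c n = c 0 := h1.trans h0.symm
  -- repeated vertices
  by_cases hrep : ∃ i j, i < j ∧ j < n ∧ c i = c j
  · obtain ⟨i, j, hij, hj, he⟩ := hrep
    obtain ⟨s1, s2, s3, hx⟩ := hsplit i j hij hj
    rw [he] at s2 s1
    have e2 := ih (j - i) (by omega) _ _ s2
    rw [hcl] at s3
    have e3 := ih (i + (n - j)) (by omega) _ _ (s1.append s3)
    linarith
  -- chords
  by_cases hch : ∃ i j, i + 1 < j ∧ j < n ∧ ¬ (i = 0 ∧ j + 1 = n) ∧ Γ.Adj (c i) (c j)
  · obtain ⟨i, j, hij, hj, hnc, he⟩ := hch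
    obtain ⟨s1, s2, s3, hx⟩ := hsplit i j (by omega) hj
    have e2 := ih (j - i + 1) (by omega) _ _ (s2.append (Seg.edge he.symm))
    rw [hcl] at s3
    have e3 := ih (i + 1 + (n - j)) (by omega) _ _ ((s1.append (Seg.edge he)).append s3)
    rw [hanti _ _ he] at e2
    linarith
  push Not at hrep hch
  rcases lt_or_ge n 4 with h4 | h4
  · -- short walks
    obtain rfl | rfl | rfl | rfl : n = 0 ∨ n = 1 ∨ n = 2 ∨ n = 3 := by omega
    · rw [h3]; simp [S]
    · have := h2 0 (by omega)
      rw [zero_add, hcl] at this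
      exact absurd this (Γ.irrefl)
    · rw [h3]
      unfold S
      rw [Finset.sum_range_succ, Finset.sum_range_one]
      have a1 := h2 0 (by omega)
      have hcl' : c (0 + 1 + 1) = c 0 := hcl
      rw [show 0 + 0 + 1 = 0 + 1 by rfl, hcl', hanti _ _ a1]
      simp
    · rw [h3]
      unfold S
      rw [Finset.sum_range_succ, Finset.sum_range_succ, Finset.sum_range_one]
      have a1 : Γ.Adj (c 0) (c 1) := h2 0 (by omega)
      have a2 : Γ.Adj (c 1) (c 2) := h2 1 (by omega)
      have a3 : Γ.Adj (c 2) (c 3) := h2 2 (by omega)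
      rw [hcl] at a3
      have t := htri _ _ _ a1 a2 a3.symm
      have t2 := hanti _ _ a3.symm
      show q (c 0) (c 1) + q (c 1) (c 2) + q (c 2) (c 3) = 0
      rw [hcl]
      linarith
  · -- an induced cycle
    have hind : IndCyc Γ n c := by
      refine ⟨hcl, fun i j hi hj he => ?_, h2, fun i j hi hj ha => ?_⟩
      · rcases lt_trichotomy i j with h5 | h5 | h5
        · exact absurd he (hrep i j h5 hj)
        · exact h5
        · exact absurd he.symm (hrep j i h5 hi)
      · by_contra hcon
        push Not at hcon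
        obtain ⟨c1, c2, c3, c4⟩ := hcon
        rcases lt_trichotomy i j with h5 | h5 | h5
        · exact hch i j (by omega) hj (fun h6 h7 => c3 h6 h7) ha
        · rw [h5] at ha; exact Γ.irrefl ha
        · exact hch j i (by omega) hi (fun h6 h7 => c4 h6 h7) ha.symm
    rw [h3]
    have := hcyc n c h4 hind
    unfold S
    simpa using this

/-- R3, GRAPH LEMMA -/
theorem graph_potential {V : Type} (Γ : SimpleGraph V) (q : V → V → ℚ)
    (hanti : ∀ u v, Γ.Adj u v → q v u = - q u v)
    (htri : ∀ u v w, Γ.Adj u v → Γ.Adj v w → Γ.Adj u w → q u w = q u v + q v w)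
    (hcyc : ∀ (n : ℕ) (c : ℕ → V), 4 ≤ n → IndCyc Γ n c →
      ∑ i ∈ Finset.range n, q (c i) (c (i + 1)) = 0) :
    ∃ b : V → ℚ, ∀ u v, Γ.Adj u v → q u v = b v - b u := by
  classical
  let T : Setoid V :=
    { r := fun u v => ∃ n x, Seg Γ q u v n x
      iseqv := ⟨fun u => ⟨0, 0, Seg.nil u⟩, fun ⟨n, x, h⟩ => ⟨n, -x, h.reverse hanti⟩,
        fun ⟨n, x, h⟩ ⟨m, y, h'⟩ => ⟨n + m, x + y, h.append h'⟩⟩ }
  let r : V → V := fun v => (Quotient.mk T v).out
  have hr : ∀ v, ∃ n x, Seg Γ q (r v) v n x := fun v => Quotient.mk_out (s := T) v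
  choose n b hb using hr
  refine ⟨b, fun u v h => ?_⟩
  have e : r u = r v := by
    show (Quotient.mk T u).out = (Quotient.mk T v).out
    rw [Quotient.sound (s := T) (show T.r u v from ⟨1, _, Seg.edge h⟩)]
  have h1 := (hb u).append (Seg.edge h)
  have h2 := (hb v).reverse hanti
  rw [e] at h1
  have h3 := closed_zero hanti htri hcyc _ _ _ (h1.append h2)
  linarith

end graph

end RC
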