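import Pool.Agent.Helper6.RC.Seq

/-! Polygon surfaces in a right-angled Coxeter group. -/

namespace RC

open SH

section ident

variable {E : Type*} [Group E]

lemma comm_ident (a b d α β : E) (ha : a * a = α) (hb : b * b = β)
    (hα : ∀ x, α * x = x * α) (hβ : ∀ x, β * x = x * β) :
    cm (d⁻¹ * a⁻¹) (b⁻¹ * a⁻¹)
      = (α⁻¹ * β⁻¹) * ((d * d)⁻¹ * ((d * a * b) * (d * a * b))) := by
  have h1 : a⁻¹ = α⁻¹ * a := by rw [← ha]; group
  have h2 : b⁻¹ = β⁻¹ * b := by rw [← hb]; group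
  have hα' : ∀ x, x * α⁻¹ = α⁻¹ * x := fun x => by
    rw [mul_inv_eq_iff_eq_mul, mul_assoc, eq_inv_mul_iff_mul_eq, hα]
  have hβ' : ∀ x, x * β⁻¹ = β⁻¹ * x := fun x => by
    rw [mul_inv_eq_iff_eq_mul, mul_assoc, eq_inv_mul_iff_mul_eq, hβ]
  have e1 : cm (d⁻¹ * a⁻¹) (b⁻¹ * a⁻¹) = d⁻¹ * a⁻¹ * b⁻¹ * (d * a * b) := by
    simp only [cm]
    group
  rw [e1, h1, h2]
  have e2 : d⁻¹ * (α⁻¹ * a) * (β⁻¹ * b) * (d * a * b)
      = (d⁻¹ * α⁻¹) * ((a * β⁻¹) * (b * (d * a * b))) := by simp only [mul_assoc]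
  rw [e2, hα' d⁻¹, hβ' a]
  have e3 : α⁻¹ * d⁻¹ * (β⁻¹ * a * (b * (d * a * b)))
      = α⁻¹ * ((d⁻¹ * β⁻¹) * (a * (b * (d * a * b)))) := by simp only [mul_assoc]
  rw [e3, hβ' d⁻¹]
  group

/-- first entries of the polygon handles, for a sequence `τ_i` -/
def hA (τ : ℕ → E) (j : ℕ) : E :=
  (τ (2 * j + 1))⁻¹ * τ 0 * ((τ (2 * j + 2))⁻¹ * τ (2 * j + 1))
/-- second entries of the polygon handles -/
def hB (τ : ℕ → E) (j : ℕ) : E := (τ (2 * j + 3))⁻¹ * τ (2 * j + 1)

/-- products of the central elements -/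
def zP (z : ℕ → E) : ℕ → E
  | 0 => 1
  | (j + 1) => zP z j * ((z (2 * j + 1))⁻¹ * (z (2 * j + 2))⁻¹)

lemma Rp_handles (g : ℕ) (τ z : ℕ → E) (hz : ∀ i x, z i * x = x * z i)
    (hq : ∀ i, 1 ≤ i → i ≤ 2 * g → (τ i)⁻¹ * τ (i + 1) * ((τ i)⁻¹ * τ (i + 1)) = z i) :
    ∀ j, j ≤ g → Rp (hA τ) (hB τ) j = zP z j *
      (((τ 0)⁻¹ * τ 1 * ((τ 0)⁻¹ * τ 1))⁻¹
        * ((τ 0)⁻¹ * τ (2 * j + 1) * ((τ 0)⁻¹ * τ (2 * j + 1)))) := by
  intro j
  induction j with
  | zero =>
    intro _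
    simp only [Rp, zP, Nat.mul_zero, Nat.zero_add]
    group
  | succ j ih =>
    intro hj
    rw [Rp, ih (by omega), zP]
    have h := comm_ident ((τ (2 * j + 1))⁻¹ * τ (2 * j + 2)) ((τ (2 * j + 2))⁻¹ * τ (2 * j + 3))
      ((τ 0)⁻¹ * τ (2 * j + 1)) (z (2 * j + 1)) (z (2 * j + 2))
      (hq (2 * j + 1) (by omega) (by omega)) (hq (2 * j + 2) (by omega) (by omega))
      (hz _) (hz _)
    have e1 : ((τ 0)⁻¹ * τ (2 * j + 1))⁻¹ * ((τ (2 * j + 1))⁻¹ * τ (2 * j + 2))⁻¹ = hA τ j := by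
      unfold hA; group
    have e2 : ((τ (2 * j + 2))⁻¹ * τ (2 * j + 3))⁻¹ * ((τ (2 * j + 1))⁻¹ * τ (2 * j + 2))⁻¹
        = hB τ j := by
      unfold hB; group
    rw [e1, e2] at h
    rw [h]
    have hz' : ∀ i x, x * (z i)⁻¹ = (z i)⁻¹ * x := fun i x => by
      rw [mul_inv_eq_iff_eq_mul, mul_assoc, eq_inv_mul_iff_mul_eq, hz]
    have hc : ∀ x, x * ((z (2 * j + 1))⁻¹ * (z (2 * j + 2))⁻¹)
        = ((z (2 * j + 1))⁻¹ * (z (2 * j + 2))⁻¹) * x := fun x => by
      rw [← mul_assoc, hz' (2 * j + 1) x, mul_assoc, hz' (2 * j + 2) x, ← mul_assoc]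
    generalize hw : (z (2 * j + 1))⁻¹ * (z (2 * j + 2))⁻¹ = w at hc ⊢
    rw [show 2 * (j + 1) + 1 = 2 * j + 3 by ring]
    generalize zP z j = Zj
    have e4 : (τ 0)⁻¹ * τ (2 * j + 1) * ((τ (2 * j + 1))⁻¹ * τ (2 * j + 2))
        * ((τ (2 * j + 2))⁻¹ * τ (2 * j + 3)) = (τ 0)⁻¹ * τ (2 * j + 3) := by group
    rw [e4]
    generalize (τ 0)⁻¹ * τ (2 * j + 3) = D'
    generalize (τ 0)⁻¹ * τ (2 * j + 1) = D
    generalize (τ 0)⁻¹ * τ 1 = D0
    have e5 : Zj * ((D0 * D0)⁻¹ * (D * D)) * (w * ((D * D)⁻¹ * (D' * D')))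
        = Zj * (((D0 * D0)⁻¹ * (D * D)) * w) * ((D * D)⁻¹ * (D' * D')) := by
      simp only [mul_assoc]
    rw [e5, hc]
    group

lemma zP_one (z : ℕ → E) (h : ∀ i, z i = 1) (j : ℕ) : zP z j = 1 := by
  induction j with
  | zero => rfl
  | succ j ih => rw [zP, ih, h, h]; simp

/-- a closed sequence of `2g+2` involutions with commuting neighbours gives `g` handles -/
lemma Rp_refl (g : ℕ) (t : ℕ → E) (h1 : ∀ i, t i * t i = 1)
    (h2 : ∀ i, i < 2 * g + 2 → t i * t (i + 1) = t (i + 1) * t i)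
    (h3 : t (2 * g + 2) = t 0) : Rp (hA t) (hB t) g = 1 := by
  have hi : ∀ i, (t i)⁻¹ = t i := fun i => inv_eq_of_mul_eq_one_left (h1 i)
  have hsq : ∀ x y : E, x * x = 1 → y * y = 1 → x * y = y * x → x * y * (x * y) = 1 := by
    intro x y hx hy hxy
    calc x * y * (x * y) = x * y * (y * x) := by rw [← hxy]
      _ = x * (y * y) * x := by simp only [mul_assoc]
      _ = 1 := by rw [hy, mul_one, hx]
  rw [Rp_handles g t (fun _ => 1) (fun _ _ => by simp) (by
    intro i _ hi2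
    rw [hi]
    exact hsq _ _ (h1 _) (h1 _) (h2 i (by omega))) g le_rfl, zP_one _ (fun _ => rfl)]
  rw [hi 0, hsq _ _ (h1 _) (h1 _) (h2 0 (by omega))]
  have h4 : t 0 * t (2 * g + 1) = t (2 * g + 1) * t 0 := by
    have := h2 (2 * g + 1) (by omega)
    rw [h3] at this
    exact this.symm
  rw [hsq _ _ (h1 _) (h1 _) h4]
  simp

end ident

section rac

variable {V : Type} {Γ : SimpleGraph V}

/-- the generator of the right-angled Coxeter group -/
def sg (Γ : SimpleGraph V) (v : V) : RAC Γ := PresentedGroup.of v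

lemma sg_sq (v : V) : sg Γ v * sg Γ v = 1 := by
  have h : PresentedGroup.mk (racRels Γ) (FreeGroup.of v * FreeGroup.of v) = 1 :=
    PresentedGroup.one_of_mem (Or.inl ⟨v, rfl⟩)
  rw [map_mul] at h
  exact h

lemma sg_inv (v : V) : (sg Γ v)⁻¹ = sg Γ v := inv_eq_of_mul_eq_one_left (sg_sq v)

lemma sg_comm {u v : V} (h : Γ.Adj u v) : sg Γ u * sg Γ v = sg Γ v * sg Γ u := by
  have h1 : PresentedGroup.mk (racRels Γ)
      ((FreeGroup.of u * FreeGroup.of v) * (FreeGroup.of u * FreeGroup.of v)) = 1 :=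
    PresentedGroup.one_of_mem (Or.inr ⟨u, v, h, rfl⟩)
  rw [map_mul, map_mul] at h1
  have h2 : (sg Γ u * sg Γ v) * (sg Γ u * sg Γ v) = 1 := h1
  have h3 := eq_inv_of_mul_eq_one_left h2
  rw [mul_inv_rev, sg_inv, sg_inv] at h3
  exact h3

/-- homomorphisms from a right-angled Coxeter group -/
def rlift {G : Type*} [Group G] (f : V → G) (h1 : ∀ v, f v * f v = 1)
    (h2 : ∀ u v, Γ.Adj u v → f u * f v = f v * f u) : RAC Γ →* G :=
  PresentedGroup.toGroup (f := f) (by
    rintro r (⟨v, rfl⟩ | ⟨u, v, h, rfl⟩)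
    · rw [map_mul, FreeGroup.lift_apply_of]
      exact h1 v
    · rw [map_mul, map_mul, FreeGroup.lift_apply_of, FreeGroup.lift_apply_of]
      calc f u * f v * (f u * f v) = f u * f v * (f v * f u) := by rw [h2 u v h]
        _ = f u * (f v * f v) * f u := by simp only [mul_assoc]
        _ = 1 := by rw [h1, mul_one, h1])

@[simp] lemma rlift_sg {G : Type*} [Group G] (f : V → G) (h1 : ∀ v, f v * f v = 1)
    (h2 : ∀ u v, Γ.Adj u v → f u * f v = f v * f u) (v : V) :
    rlift f h1 h2 (sg Γ v) = f v := by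
  unfold rlift sg
  rw [PresentedGroup.toGroup.of]

lemma rac_closure : Subgroup.closure (Set.range (sg Γ)) = ⊤ :=
  PresentedGroup.closure_range_of (racRels Γ)

variable (Γ)

/-- the reflections in the sides of the doubled polygon -/
def tt (n : ℕ) (c : ℕ → V) (i : ℕ) : RAC Γ :=
  if i + 1 < n then sg Γ (c i) else sg Γ (c (n - 1)) * sg Γ (c (2 * n - 4 - i)) * sg Γ (c (n - 1))

variable {Γ}

lemma tt_lt {n : ℕ} {c : ℕ → V} {i : ℕ} (h : i + 1 < n) : tt Γ n c i = sg Γ (c i) := by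
  unfold tt
  rw [if_pos h]

lemma conj_sq {G : Type*} [Group G] {x y : G} (hx : x * x = 1) (hy : y * y = 1) :
    x * y * x * (x * y * x) = 1 := by
  calc x * y * x * (x * y * x) = x * y * (x * x) * y * x := by simp only [mul_assoc]
    _ = x * (y * y) * x := by rw [hx]; simp only [mul_assoc, one_mul, mul_one]
    _ = 1 := by rw [hy, mul_one, hx]

lemma tt_sq (n : ℕ) (c : ℕ → V) (i : ℕ) : tt Γ n c i * tt Γ n c i = 1 := by
  unfold tt
  split_ifs
  · exact sg_sq _
  · exact conj_sq (sg_sq _) (sg_sq _)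

lemma conj_of_comm {G : Type*} [Group G] {x y : G} (hx : x * x = 1) (h : x * y = y * x) :
    x * y * x = y := by
  rw [h, mul_assoc, hx, mul_one]

variable {n : ℕ} {c : ℕ → V}

/-- the formula with the conjugate also holds at `n - 2` and at `2 n - 4` -/
lemma tt_ge (hc : IndCyc Γ n c) (hn : 4 ≤ n) {i : ℕ} (h : n ≤ i + 2) (hi : i ≤ 2 * n - 4) :
    tt Γ n c i = sg Γ (c (n - 1)) * sg Γ (c (2 * n - 4 - i)) * sg Γ (c (n - 1)) := by
  rcases Nat.lt_or_ge (i + 1) n with h1 | h1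
  · have hi2 : i = n - 2 := by omega
    rw [tt_lt h1, hi2, show 2 * n - 4 - (n - 2) = n - 2 by omega]
    have ha := hc.adj (n - 2) (by omega)
    rw [show n - 2 + 1 = n - 1 by omega] at ha
    exact (conj_of_comm (sg_sq _) (sg_comm ha.symm)).symm
  · unfold tt
    rw [if_neg (by omega)]

lemma tt_last (hc : IndCyc Γ n c) (hn : 4 ≤ n) : tt Γ n c (2 * n - 4) = tt Γ n c 0 := by
  rw [tt_ge hc hn (by omega) le_rfl, tt_lt (by omega), Nat.sub_self]
  have ha := hc.adj (n - 1) (by omega)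
  rw [show n - 1 + 1 = n by omega, hc.closed] at ha
  exact conj_of_comm (sg_sq _) (sg_comm ha)

lemma tt_comm (hc : IndCyc Γ n c) (hn : 4 ≤ n) (i : ℕ) (hi : i < 2 * n - 4) :
    tt Γ n c i * tt Γ n c (i + 1) = tt Γ n c (i + 1) * tt Γ n c i := by
  rcases Nat.lt_or_ge (i + 2) n with h | h
  · rw [tt_lt (by omega), tt_lt (by omega)]
    exact sg_comm (hc.adj i (by omega))
  · rw [tt_ge hc hn (by omega) (by omega), tt_ge hc hn (by omega) (by omega)]
    have ha := hc.adj (2 * n - 4 - (i + 1)) (by omega)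
    rw [show 2 * n - 4 - (i + 1) + 1 = 2 * n - 4 - i by omega] at ha
    have hs := sg_comm ha
    generalize hl : sg Γ (c (n - 1)) = l
    have hll : l * l = 1 := by rw [← hl]; exact sg_sq _
    generalize sg Γ (c (2 * n - 4 - i)) = x at hs ⊢
    generalize sg Γ (c (2 * n - 4 - (i + 1))) = y at hs ⊢
    calc l * x * l * (l * y * l) = l * x * (l * l) * y * l := by simp only [mul_assoc]
      _ = l * (x * y) * l := by rw [hll]; simp only [mul_assoc, one_mul]
      _ = l * (y * x) * l := by rw [hs]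
      _ = l * y * (l * l) * x * l := by rw [hll]; simp only [mul_assoc, one_mul]
      _ = l * y * l * (l * x * l) := by simp only [mul_assoc]

lemma Rp_tt (hc : IndCyc Γ n c) (hn : 4 ≤ n) : Rp (hA (tt Γ n c)) (hB (tt Γ n c)) (n - 3) = 1 := by
  apply Rp_refl
  · exact tt_sq n c
  · intro i hi
    exact tt_comm hc hn i (by omega)
  · rw [show 2 * (n - 3) + 2 = 2 * n - 4 by omega]
    exact tt_last hc hn

/-- the polygon surface of an induced cycle -/
def phi (hc : IndCyc Γ n c) (hn : 4 ≤ n) : SurfGrp (n - 3) →* RAC Γ :=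
  mkS (n - 3) (hA (tt Γ n c)) (hB (tt Γ n c)) (Rp_tt hc hn)

/-- the action of the generator with index `i` on two copies of the surface group -/
noncomputable def Fp (n : ℕ) (i : ℕ) : Equiv.Perm (SurfGrp (n - 3) ⊕ SurfGrp (n - 3)) :=
  if i + 1 < n then Equiv.Perm.sumCongr (psi (n - 3) i) (psi (n - 3) (2 * n - 4 - i))
  else if i + 1 = n then Equiv.sumComm _ _ else 1

lemma sumComm_sq {α : Type*} :
    (Equiv.sumComm α α : Equiv.Perm (α ⊕ α)) * (Equiv.sumComm α α : Equiv.Perm (α ⊕ α)) = 1 := by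
  apply Equiv.ext
  rintro (x | x) <;> rfl

lemma sumComm_comm {α : Type*} (p : Equiv.Perm α) :
    Equiv.Perm.sumCongr p p * (Equiv.sumComm α α : Equiv.Perm (α ⊕ α))
      = (Equiv.sumComm α α : Equiv.Perm (α ⊕ α)) * Equiv.Perm.sumCongr p p := by
  apply Equiv.ext
  rintro (x | x) <;> rfl

lemma Fp_sq (n i : ℕ) : Fp n i * Fp n i = 1 := by
  unfold Fp
  split_ifs
  · rw [Equiv.Perm.sumCongr_mul, psi_sq, psi_sq, Equiv.Perm.sumCongr_one]
  · exact sumComm_sq
  · exact one_mul _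

lemma Fp_comm (n : ℕ) (hn : 4 ≤ n) (i : ℕ) (hi : i + 1 < n) :
    Fp n i * Fp n (i + 1) = Fp n (i + 1) * Fp n i := by
  unfold Fp
  rw [if_pos hi]
  split_ifs with h1 h2
  · rw [Equiv.Perm.sumCongr_mul, Equiv.Perm.sumCongr_mul, psi_comm]
    congr 1
    have := psi_comm (n - 3) (2 * n - 4 - (i + 1))
    rw [show 2 * n - 4 - (i + 1) + 1 = 2 * n - 4 - i by omega] at this
    exact this.symm
  · rw [show 2 * n - 4 - i = i by omega]
    exact sumComm_comm _
  · omega

lemma Fp_comm0 (n : ℕ) (hn : 4 ≤ n) : Fp n 0 * Fp n (n - 1) = Fp n (n - 1) * Fp n 0 := by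
  unfold Fp
  rw [if_pos (by omega), if_neg (by omega), if_pos (by omega)]
  have h := psi_last (n - 3)
  rw [show 2 * (n - 3) + 2 = 2 * n - 4 - 0 by omega] at h
  rw [h]
  exact sumComm_comm _

open Classical in
/-- the index of a vertex on the cycle, `n` when it is not on the cycle -/
noncomputable def idx (n : ℕ) (c : ℕ → V) (v : V) : ℕ :=
  if h : ∃ i, i < n ∧ c i = v then h.choose else n

lemma idx_spec (n : ℕ) (c : ℕ → V) (v : V) :
    (idx n c v < n ∧ c (idx n c v) = v) ∨ idx n c v = n := by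
  unfold idx
  split_ifs with h
  · exact Or.inl h.choose_spec
  · exact Or.inr rfl

lemma idx_c (hc : IndCyc Γ n c) {i : ℕ} (hi : i < n) : idx n c (c i) = i := by
  have h : ∃ j, j < n ∧ c j = c i := ⟨i, hi, rfl⟩
  unfold idx
  rw [dif_pos h]
  exact hc.inj _ _ h.choose_spec.1 hi h.choose_spec.2

/-- the action of the Coxeter group on two copies of the surface group -/
noncomputable def Psi (hc : IndCyc Γ n c) (hn : 4 ≤ n) :
    RAC Γ →* Equiv.Perm (SurfGrp (n - 3) ⊕ SurfGrp (n - 3)) :=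
  rlift (fun v => Fp n (idx n c v)) (fun v => Fp_sq _ _) (by
    intro u v huv
    rcases idx_spec n c u with ⟨h1, h2⟩ | h1
    · rcases idx_spec n c v with ⟨h3, h4⟩ | h3
      · rw [← h2, ← h4] at huv
        rcases hc.ind _ _ h1 h3 huv with h | h | ⟨h, h'⟩ | ⟨h, h'⟩
        · show Fp n (idx n c u) * Fp n (idx n c v) = _
          rw [h]
          exact Fp_comm n hn _ (by omega)
        · show Fp n (idx n c u) * Fp n (idx n c v) = _
          rw [h]
          exact (Fp_comm n hn _ (by omega)).symm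
        · show Fp n (idx n c u) * Fp n (idx n c v) = _
          rw [h, show idx n c v = n - 1 by omega]
          exact Fp_comm0 n hn
        · show Fp n (idx n c u) * Fp n (idx n c v) = _
          rw [h, show idx n c u = n - 1 by omega]
          exact (Fp_comm0 n hn).symm
      · show Fp n (idx n c u) * Fp n (idx n c v) = Fp n (idx n c v) * Fp n (idx n c u)
        rw [h3]
        have : Fp n n = 1 := by
          unfold Fp
          rw [if_neg (by omega), if_neg (by omega)]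
        rw [this, one_mul, mul_one]
    · show Fp n (idx n c u) * Fp n (idx n c v) = Fp n (idx n c v) * Fp n (idx n c u)
      rw [h1]
      have : Fp n n = 1 := by
        unfold Fp
        rw [if_neg (by omega), if_neg (by omega)]
      rw [this, one_mul, mul_one])

lemma Psi_sg (hc : IndCyc Γ n c) (hn : 4 ≤ n) {i : ℕ} (hi : i < n) :
    Psi hc hn (sg Γ (c i)) = Fp n i := by
  unfold Psi
  rw [rlift_sg, idx_c hc hi]

lemma Psi_tt (hc : IndCyc Γ n c) (hn : 4 ≤ n) {i : ℕ} (hi : i ≤ 2 * n - 4)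
    (x : SurfGrp (n - 3)) : Psi hc hn (tt Γ n c i) (Sum.inl x) = Sum.inl (psi (n - 3) i x) := by
  rcases Nat.lt_or_ge (i + 1) n with h | h
  · rw [tt_lt h, Psi_sg hc hn (by omega)]
    unfold Fp
    rw [if_pos h]
    rfl
  · rw [tt_ge hc hn (by omega) hi, map_mul, map_mul, Psi_sg hc hn (by omega),
      Psi_sg hc hn (by omega)]
    unfold Fp
    rw [if_neg (by omega), if_pos (by omega), if_pos (by omega),
      show 2 * n - 4 - (2 * n - 4 - i) = i by omega]
    rfl

lemma tt_inv (i : ℕ) : (tt Γ n c i)⁻¹ = tt Γ n c i := inv_eq_of_mul_eq_one_left (tt_sq n c i)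

lemma Psi_phi (hc : IndCyc Γ n c) (hn : 4 ≤ n) (k : SurfGrp (n - 3)) :
    ∀ x, Psi hc hn (phi hc hn k) (Sum.inl x) = Sum.inl (k * x) := by
  have hk : k ∈ Subgroup.closure (Set.range (PresentedGroup.of :
      Fin (n - 3) × Bool → SurfGrp (n - 3))) := by
    rw [PresentedGroup.closure_range_of]
    trivial
  induction hk using Subgroup.closure_induction with
  | mem y hy =>
    intro x
    obtain ⟨⟨i, b⟩, rfl⟩ := hy
    have hi := i.2
    cases b with
    | true =>
      have e : phi hc hn (PresentedGroup.of (i, true)) = hA (tt Γ n c) i := mkS_ga _ _ _ _ i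
      rw [e]
      unfold hA
      rw [tt_inv, tt_inv, map_mul, map_mul, map_mul, Equiv.Perm.mul_apply, Equiv.Perm.mul_apply,
        Equiv.Perm.mul_apply, Psi_tt hc hn (by omega), Psi_tt hc hn (by omega),
        Psi_tt hc hn (by omega), Psi_tt hc hn (by omega), psi_A, Aa_fin]
      rfl
    | false =>
      have e : phi hc hn (PresentedGroup.of (i, false)) = hB (tt Γ n c) i := mkS_gb _ _ _ _ i
      rw [e]
      unfold hB
      rw [tt_inv, map_mul, Equiv.Perm.mul_apply, Psi_tt hc hn (by omega),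
        Psi_tt hc hn (by omega), psi_B, Ba_fin]
      rfl
  | one => intro x; simp
  | mul a b _ _ ha hb =>
    intro x
    rw [map_mul, map_mul, Equiv.Perm.mul_apply, hb, ha, mul_assoc]
  | inv a _ ha =>
    intro x
    rw [map_inv, map_inv, Equiv.Perm.inv_eq_iff_eq, ha, mul_inv_cancel_left]

/-- the polygon surface is injective -/
theorem phi_inj (hc : IndCyc Γ n c) (hn : 4 ≤ n) : Function.Injective (phi hc hn) := by
  rw [injective_iff_map_eq_one]
  intro k hk
  have h := Psi_phi hc hn k 1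
  rw [hk, map_one, Equiv.Perm.one_apply, mul_one] at h
  exact (Sum.inl_injective h).symm

end rac

end RC
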