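import Pool.Agent.Helper6.RC.Defs

/-! Partial products of commutators; the two involutions of a surface group and the action of
the reflections of a right-angled polygon on the surface group. -/

namespace RC

open SH

section seq

variable {G : Type*} [Group G]

/-- partial products of commutators -/
def Rp (a b : ℕ → G) : ℕ → G
  | 0 => 1
  | (j + 1) => Rp a b j * cm (a j) (b j)

/-- the products `b_(j-1) ⋯ b_0` -/
def Yp (b : ℕ → G) : ℕ → G
  | 0 => 1
  | (j + 1) => b j * Yp b j

lemma cprod_eq_Rp (a b : ℕ → G) (g : ℕ) :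
    cprod (fun i : Fin g => a i) (fun i : Fin g => b i) = Rp a b g := by
  induction g with
  | zero => simp [cprod, Rp]
  | succ g ih =>
    rw [Rp, ← ih]
    unfold cprod
    rw [List.ofFn_succ', List.concat_eq_append, List.prod_append, List.prod_singleton]
    rfl

lemma map_Rp {H : Type*} [Group H] (f : G →* H) (a b : ℕ → G) (j : ℕ) :
    f (Rp a b j) = Rp (fun i => f (a i)) (fun i => f (b i)) j := by
  induction j with
  | zero => simp [Rp]
  | succ j ih => rw [Rp, Rp, map_mul, ih, map_cm]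

/-- homomorphism from a surface group defined by handles indexed by natural numbers -/
def mkS (g : ℕ) (x y : ℕ → G) (h : Rp x y g = 1) : SurfGrp g →* G :=
  PresentedGroup.toGroup (f := fun p : Fin g × Bool => if p.2 then x p.1 else y p.1) (by
    intro r hr
    rw [Set.mem_singleton_iff] at hr
    rw [hr]
    unfold srel
    rw [map_cprod]
    simp only [FreeGroup.lift_apply_of, if_true, Bool.false_eq_true, if_false]
    rw [cprod_eq_Rp, h])

lemma mkS_ga (g : ℕ) (x y : ℕ → G) (h : Rp x y g = 1) (i : Fin g) :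
    mkS g x y h (ga i) = x i := by
  unfold mkS ga
  rw [PresentedGroup.toGroup.of]
  simp

lemma mkS_gb (g : ℕ) (x y : ℕ → G) (h : Rp x y g = 1) (i : Fin g) :
    mkS g x y h (gb i) = y i := by
  unfold mkS gb
  rw [PresentedGroup.toGroup.of]
  simp

lemma surf_hom_ext {g : ℕ} {f f' : SurfGrp g →* G} (ha : ∀ i, f (ga i) = f' (ga i))
    (hb : ∀ i, f (gb i) = f' (gb i)) : f = f' := by
  apply PresentedGroup.ext
  rintro ⟨i, b⟩
  cases b with
  | true => exact ha i
  | false => exact hb i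

end seq

section surf

/-- the generator `a_j`, and `1` for `j ≥ g` -/
def Aa (g : ℕ) (j : ℕ) : SurfGrp g := if h : j < g then ga ⟨j, h⟩ else 1
/-- the generator `b_j`, and `1` for `j ≥ g` -/
def Ba (g : ℕ) (j : ℕ) : SurfGrp g := if h : j < g then gb ⟨j, h⟩ else 1

variable (g : ℕ)

lemma Aa_ge {j : ℕ} (h : g ≤ j) : Aa g j = 1 := by
  unfold Aa
  rw [dif_neg (by omega)]
lemma Ba_ge {j : ℕ} (h : g ≤ j) : Ba g j = 1 := by
  unfold Ba
  rw [dif_neg (by omega)]
lemma Aa_fin (i : Fin g) : Aa g i = ga i := by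
  unfold Aa
  rw [dif_pos i.2]
lemma Ba_fin (i : Fin g) : Ba g i = gb i := by
  unfold Ba
  rw [dif_pos i.2]

/-- partial products in the surface group -/
def R (j : ℕ) : SurfGrp g := Rp (Aa g) (Ba g) j
/-- products of the `b_j` in the surface group -/
def Y (j : ℕ) : SurfGrp g := Yp (Ba g) j
/-- `Z_0 = 1`, `Z_(j+1) = R_j a_j` -/
def Z : ℕ → SurfGrp g
  | 0 => 1
  | (j + 1) => R g j * Aa g j

lemma R_zero : R g 0 = 1 := rfl
lemma R_succ (j : ℕ) : R g (j + 1) = R g j * cm (Aa g j) (Ba g j) := rfl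
lemma Y_zero : Y g 0 = 1 := rfl
lemma Y_succ (j : ℕ) : Y g (j + 1) = Ba g j * Y g j := rfl

lemma R_self : R g g = 1 := by
  unfold R
  rw [← cprod_eq_Rp]
  simp only [Aa_fin, Ba_fin]
  exact surf_rel g

lemma R_ge {j : ℕ} (h : g ≤ j) : R g j = 1 := by
  induction j, h using Nat.le_induction with
  | base => exact R_self g
  | succ j hj ih => rw [R_succ, ih, Aa_ge g hj, Ba_ge g hj]; simp [cm]

lemma sig_rel (j : ℕ) :
    Rp (fun j => R g j * (Aa g j)⁻¹ * (R g j)⁻¹)
      (fun j => R g j * Aa g j * Ba g j * (Aa g j)⁻¹ * (R g j)⁻¹) j = (R g j)⁻¹ := by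
  induction j with
  | zero => simp [Rp, R_zero]
  | succ j ih =>
    rw [Rp, ih, R_succ]
    simp only [cm]
    group

/-- the involution `σ` -/
def sig : SurfGrp g →* SurfGrp g :=
  mkS g (fun j => R g j * (Aa g j)⁻¹ * (R g j)⁻¹)
      (fun j => R g j * Aa g j * Ba g j * (Aa g j)⁻¹ * (R g j)⁻¹)
      (by rw [sig_rel, R_self, inv_one])

lemma sig_A (j : ℕ) : sig g (Aa g j) = R g j * (Aa g j)⁻¹ * (R g j)⁻¹ := by
  rcases lt_or_ge j g with h | h
  · have := mkS_ga g (fun j => R g j * (Aa g j)⁻¹ * (R g j)⁻¹)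
      (fun j => R g j * Aa g j * Ba g j * (Aa g j)⁻¹ * (R g j)⁻¹)
      (by rw [sig_rel, R_self, inv_one]) ⟨j, h⟩
    rw [← Aa_fin] at this
    exact this
  · rw [Aa_ge g h]; simp

lemma sig_B (j : ℕ) : sig g (Ba g j)
    = R g j * Aa g j * Ba g j * (Aa g j)⁻¹ * (R g j)⁻¹ := by
  rcases lt_or_ge j g with h | h
  · have := mkS_gb g (fun j => R g j * (Aa g j)⁻¹ * (R g j)⁻¹)
      (fun j => R g j * Aa g j * Ba g j * (Aa g j)⁻¹ * (R g j)⁻¹)
      (by rw [sig_rel, R_self, inv_one]) ⟨j, h⟩
    rw [← Ba_fin] at this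
    exact this
  · rw [Aa_ge g h, Ba_ge g h]; simp

lemma sig_R (j : ℕ) : sig g (R g j) = (R g j)⁻¹ := by
  induction j with
  | zero => simp [R_zero]
  | succ j ih =>
    rw [R_succ, map_mul, ih, map_cm, sig_A, sig_B]
    simp only [cm]
    group

lemma sig_Y (j : ℕ) : sig g (Y g j) = R g j * Y g j := by
  induction j with
  | zero => simp [R_zero, Y_zero]
  | succ j ih =>
    rw [Y_succ, map_mul, ih, sig_B, R_succ]
    simp only [cm]
    group

lemma sig_sig (x : SurfGrp g) : sig g (sig g x) = x := by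
  have h : (sig g).comp (sig g) = MonoidHom.id _ := by
    apply surf_hom_ext
    · intro i
      rw [MonoidHom.comp_apply, MonoidHom.id_apply, ← Aa_fin, sig_A]
      simp only [map_mul, map_inv, sig_R, sig_A]
      group
    · intro i
      rw [MonoidHom.comp_apply, MonoidHom.id_apply, ← Ba_fin, sig_B]
      simp only [map_mul, map_inv, sig_R, sig_A, sig_B]
      group
  exact DFunLike.congr_fun h x

lemma tau_rel (j : ℕ) :
    Rp (fun j => (Y g j)⁻¹ * R g j * Aa g j * Y g j)
      (fun j => (Y g j)⁻¹ * (Ba g j)⁻¹ * Y g j) j = (Y g j)⁻¹ * (R g j)⁻¹ * Y g j := by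
  induction j with
  | zero => simp [Rp, R_zero, Y_zero]
  | succ j ih =>
    rw [Rp, ih, R_succ, Y_succ]
    simp only [cm]
    group

/-- the involution `τ` -/
def tau : SurfGrp g →* SurfGrp g :=
  mkS g (fun j => (Y g j)⁻¹ * R g j * Aa g j * Y g j)
      (fun j => (Y g j)⁻¹ * (Ba g j)⁻¹ * Y g j)
      (by rw [tau_rel, R_self]; simp)

lemma tau_A (j : ℕ) : tau g (Aa g j) = (Y g j)⁻¹ * R g j * Aa g j * Y g j := by
  rcases lt_or_ge j g with h | h
  · have := mkS_ga g (fun j => (Y g j)⁻¹ * R g j * Aa g j * Y g j)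
      (fun j => (Y g j)⁻¹ * (Ba g j)⁻¹ * Y g j)
      (by rw [tau_rel, R_self]; simp) ⟨j, h⟩
    rw [← Aa_fin] at this
    exact this
  · rw [Aa_ge g h, R_ge g h]; simp

lemma tau_B (j : ℕ) : tau g (Ba g j) = (Y g j)⁻¹ * (Ba g j)⁻¹ * Y g j := by
  rcases lt_or_ge j g with h | h
  · have := mkS_gb g (fun j => (Y g j)⁻¹ * R g j * Aa g j * Y g j)
      (fun j => (Y g j)⁻¹ * (Ba g j)⁻¹ * Y g j)
      (by rw [tau_rel, R_self]; simp) ⟨j, h⟩
    rw [← Ba_fin] at this
    exact this
  · rw [Ba_ge g h]; simp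

lemma tau_Y (j : ℕ) : tau g (Y g j) = (Y g j)⁻¹ := by
  induction j with
  | zero => simp [Y_zero]
  | succ j ih =>
    rw [Y_succ, map_mul, ih, tau_B]
    group

lemma tau_R (j : ℕ) : tau g (R g j) = (Y g j)⁻¹ * (R g j)⁻¹ * Y g j := by
  induction j with
  | zero => simp [R_zero]
  | succ j ih =>
    rw [R_succ, map_mul, ih, map_cm, tau_A, tau_B, Y_succ]
    simp only [cm]
    group

lemma tau_tau (x : SurfGrp g) : tau g (tau g x) = x := by
  have h : (tau g).comp (tau g) = MonoidHom.id _ := by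
    apply surf_hom_ext
    · intro i
      rw [MonoidHom.comp_apply, MonoidHom.id_apply, ← Aa_fin, tau_A]
      simp only [map_mul, map_inv, tau_R, tau_A, tau_Y]
      group
    · intro i
      rw [MonoidHom.comp_apply, MonoidHom.id_apply, ← Ba_fin, tau_B]
      simp only [map_mul, map_inv, tau_Y, tau_B]
      group
  exact DFunLike.congr_fun h x

lemma sig_tau (x : SurfGrp g) : sig g (tau g x) = tau g (sig g x) := by
  have h : (sig g).comp (tau g) = (tau g).comp (sig g) := by
    apply surf_hom_ext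
    · intro i
      rw [MonoidHom.comp_apply, MonoidHom.comp_apply, ← Aa_fin, tau_A, sig_A]
      simp only [map_mul, map_inv, tau_R, tau_A, sig_R, sig_A, sig_Y]
      group
    · intro i
      rw [MonoidHom.comp_apply, MonoidHom.comp_apply, ← Ba_fin, tau_B, sig_B]
      simp only [map_mul, map_inv, tau_R, tau_A, tau_B, sig_B, sig_Y]
      group
  exact DFunLike.congr_fun h x

lemma sig_Z (j : ℕ) : sig g (Z g j) = (Z g j)⁻¹ := by
  cases j with
  | zero => simp [Z]
  | succ j =>
    simp only [Z, map_mul, sig_R, sig_A]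
    group

lemma tau_Z_succ (j : ℕ) : tau g (Z g (j + 1)) = (Y g j)⁻¹ * Aa g j * Y g j := by
  simp only [Z, map_mul, tau_R, tau_A]
  group

/-- the reflection in an even side -/
def pe (j : ℕ) : Equiv.Perm (SurfGrp g) :=
  Function.Involutive.toPerm (fun x => sig g (Z g j * x)) (by
    intro x
    simp only [map_mul, map_inv, sig_sig, sig_Z, inv_inv]
    group)

/-- the reflection in an odd side -/
def po (j : ℕ) : Equiv.Perm (SurfGrp g) :=
  Function.Involutive.toPerm (fun x => Y g j * tau g x) (by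
    intro x
    simp only [map_mul, tau_tau, tau_Y]
    group)

lemma pe_apply (j : ℕ) (x : SurfGrp g) : pe g j x = sig g (Z g j * x) := rfl
lemma po_apply (j : ℕ) (x : SurfGrp g) : po g j x = Y g j * tau g x := rfl

lemma comm_pe_po (j : ℕ) : pe g j * po g j = po g j * pe g j := by
  apply Equiv.ext
  intro x
  rw [Equiv.Perm.mul_apply, Equiv.Perm.mul_apply, pe_apply, po_apply, po_apply, pe_apply]
  cases j with
  | zero =>
    simp [Z, Y_zero, sig_tau]
  | succ j =>
    rw [map_mul, map_mul, map_mul, map_mul, sig_Z, sig_Y, ← sig_tau g x, map_inv, tau_Z_succ]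
    rw [Z, Y_succ, R_succ]
    simp only [cm]
    group

lemma comm_po_pe (j : ℕ) : po g j * pe g (j + 1) = pe g (j + 1) * po g j := by
  apply Equiv.ext
  intro x
  rw [Equiv.Perm.mul_apply, Equiv.Perm.mul_apply, pe_apply, po_apply, po_apply, pe_apply]
  rw [map_mul, map_mul, map_mul, map_mul, sig_Z, sig_Y, ← sig_tau g x, map_inv, tau_Z_succ]
  rw [Z]
  group

/-- the reflections in the sides of the polygon -/
def psi (i : ℕ) : Equiv.Perm (SurfGrp g) := if i % 2 = 0 then pe g (i / 2) else po g (i / 2)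

lemma psi_even (j : ℕ) : psi g (2 * j) = pe g j := by
  unfold psi
  rw [if_pos (by omega)]
  congr 1
  omega

lemma psi_odd (j : ℕ) : psi g (2 * j + 1) = po g j := by
  unfold psi
  rw [if_neg (by omega)]
  congr 1
  omega

lemma psi_sq (i : ℕ) : psi g i * psi g i = 1 := by
  apply Equiv.ext
  intro x
  rw [Equiv.Perm.mul_apply, Equiv.Perm.one_apply]
  unfold psi
  split_ifs
  · exact Function.Involutive.toPerm_involutive _ x
  · exact Function.Involutive.toPerm_involutive _ x

lemma psi_comm (i : ℕ) : psi g i * psi g (i + 1) = psi g (i + 1) * psi g i := by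
  rcases Nat.even_or_odd' i with ⟨j, rfl | rfl⟩
  · rw [psi_even, psi_odd]
    exact comm_pe_po g j
  · rw [psi_odd, show 2 * j + 1 + 1 = 2 * (j + 1) by ring, psi_even]
    exact comm_po_pe g j

lemma psi_last : psi g (2 * g + 2) = psi g 0 := by
  rw [show 2 * g + 2 = 2 * (g + 1) by ring, psi_even, show (0 : ℕ) = 2 * 0 by rfl, psi_even]
  apply Equiv.ext
  intro x
  rw [pe_apply, pe_apply]
  simp [Z, R_self, Aa_ge g le_rfl]

lemma psi_A (j : ℕ) (x : SurfGrp g) :
    psi g (2 * j + 1) (psi g 0 (psi g (2 * j + 2) (psi g (2 * j + 1) x))) = Aa g j * x := by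
  rw [psi_odd, show 2 * j + 2 = 2 * (j + 1) by ring, psi_even, show (0 : ℕ) = 2 * 0 by rfl, psi_even]
  rw [pe_apply, pe_apply, po_apply, po_apply, show Z g 0 = 1 from rfl, one_mul, sig_sig]
  simp only [map_mul, tau_tau, tau_Y, tau_Z_succ]
  group

lemma psi_B (j : ℕ) (x : SurfGrp g) :
    psi g (2 * j + 3) (psi g (2 * j + 1) x) = Ba g j * x := by
  rw [psi_odd, show 2 * j + 3 = 2 * (j + 1) + 1 by ring, psi_odd, po_apply, po_apply]
  simp only [map_mul, tau_tau, tau_Y, Y_succ]
  group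

end surf

end RC
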