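import Pool.Agent.Helper6.RC.Ev
import Pool.Agent.Helper6.RC.Graph

/-! Cocycles on the subgroups of index at most two. -/

namespace RC

open SH

section central

variable {G : Type*} [Group G] {c : G → G → ℚ} {hc : IsCoc c}

/-- central elements -/
def zz (hc : IsCoc c) (x : ℚ) : Ex c hc := ⟨x - c 1 1, 1⟩

lemma zz_add (x y : ℚ) : zz hc (x + y) = zz hc x * zz hc y := by
  apply Ex.ext
  · simp only [zz, Ex.mul_v]
    ring
  · simp [zz]

lemma zz_comm (x : ℚ) (a : Ex c hc) : zz hc x * a = a * zz hc x := by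
  apply Ex.ext
  · simp only [zz, Ex.mul_v, hc.one_left, hc.one_right]
    ring
  · simp [zz]

lemma zz_inj {x y : ℚ} (h : zz hc x = zz hc y) : x = y := by
  have := congrArg Ex.v h
  simpa [zz] using this

lemma zz_zero : zz hc 0 = 1 := by
  apply Ex.ext <;> simp [zz]

lemma zz_neg (x : ℚ) : zz hc (-x) = (zz hc x)⁻¹ := by
  rw [eq_inv_iff_mul_eq_one, ← zz_add, neg_add_cancel, zz_zero]

lemma exists_zz {a : Ex c hc} (ha : a.g = 1) : a = zz hc (a.v + c 1 1) := by
  apply Ex.ext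
  · simp [zz]
  · exact ha

/-- involutive lift of an involution -/
lemma exists_inv_lift (hc : IsCoc c) (g : G) (hg : g * g = 1) :
    ∃ U : Ex c hc, U.g = g ∧ U * U = 1 := by
  have h1 : ((⟨0, g⟩ : Ex c hc) * ⟨0, g⟩).g = 1 := hg
  have h2 := exists_zz h1
  set t := ((⟨0, g⟩ : Ex c hc) * ⟨0, g⟩).v + c 1 1
  refine ⟨⟨0, g⟩ * zz hc (-t / 2), by simp [zz], ?_⟩
  rw [z_two (zz hc) zz_comm, h2, ← zz_add, ← zz_add, ← zz_zero]
  congr 1
  ring

lemma inv_lift_unique {U U' : Ex c hc} (h : U.g = U'.g) (h1 : U * U = 1) (h2 : U' * U' = 1) :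
    U = U' := by
  have h3 : (U⁻¹ * U').g = 1 := by
    rw [Ex.mul_g, Ex.inv_g, h, inv_mul_cancel]
  have h4 := exists_zz h3
  set t := (U⁻¹ * U').v + c 1 1
  have h5 : U' = U * zz hc t := by rw [← h4]; group
  rw [h5, z_two (zz hc) zz_comm, h1, mul_one, ← zz_add, ← zz_zero] at h2
  have h6 := zz_inj h2
  have h7 : t = 0 := by linarith
  rw [h5, h7, zz_zero, mul_one]

end central

lemma ne_one_mul {a b : Multiplicative (ZMod 2)} (ha : a ≠ 1) (hb : b ≠ 1) : a * b = 1 := by
  revert a b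
  decide

section perm

variable {E : Type*} [Group E]

/-- the action of a generator outside the kernel -/
def PJ (T : E) : Equiv.Perm (E ⊕ E) where
  toFun := Sum.elim (fun x => Sum.inr (T * x)) (fun x => Sum.inl (T⁻¹ * x))
  invFun := Sum.elim (fun x => Sum.inr (T * x)) (fun x => Sum.inl (T⁻¹ * x))
  left_inv := by rintro (x | x) <;> simp
  right_inv := by rintro (x | x) <;> simp

@[simp] lemma PJ_inl (T x : E) : PJ T (Sum.inl x) = Sum.inr (T * x) := rfl
@[simp] lemma PJ_inr (T x : E) : PJ T (Sum.inr x) = Sum.inl (T⁻¹ * x) := rfl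

/-- the action of a generator in the kernel -/
def PN (U U' : E) : Equiv.Perm (E ⊕ E) where
  toFun := Sum.elim (fun x => Sum.inl (U * x)) (fun x => Sum.inr (U' * x))
  invFun := Sum.elim (fun x => Sum.inl (U⁻¹ * x)) (fun x => Sum.inr (U'⁻¹ * x))
  left_inv := by rintro (x | x) <;> simp
  right_inv := by rintro (x | x) <;> simp

@[simp] lemma PN_inl (U U' x : E) : PN U U' (Sum.inl x) = Sum.inl (U * x) := rfl
@[simp] lemma PN_inr (U U' x : E) : PN U U' (Sum.inr x) = Sum.inr (U' * x) := rfl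

lemma PJ_sq (T : E) : PJ T * PJ T = 1 := by
  apply Equiv.ext
  rintro (x | x) <;> simp

lemma PN_sq (U U' : E) (h : U * U = 1) (h' : U' * U' = 1) : PN U U' * PN U U' = 1 := by
  apply Equiv.ext
  rintro (x | x)
  · simp [← mul_assoc, h]
  · simp [← mul_assoc, h']

lemma PN_comm (U U' W W' : E) (h : U * W = W * U) (h' : U' * W' = W' * U') :
    PN U U' * PN W W' = PN W W' * PN U U' := by
  apply Equiv.ext
  rintro (x | x)
  · simp [← mul_assoc, h]
  · simp [← mul_assoc, h']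

lemma PJN_comm (T U U' : E) (h : T * U = U' * T) : PJ T * PN U U' = PN U U' * PJ T := by
  apply Equiv.ext
  rintro (x | x)
  · simp [← mul_assoc, h]
  · have h2 : T⁻¹ * U' = U * T⁻¹ := by
      rw [inv_mul_eq_iff_eq_mul, ← mul_assoc, h, mul_inv_cancel_right]
    simp [← mul_assoc, h2]

lemma PJ_comm (T S : E) (h : T⁻¹ * S * (T⁻¹ * S) = 1) : PJ T * PJ S = PJ S * PJ T := by
  have h1 : T⁻¹ * S = S⁻¹ * T := by
    have := eq_inv_of_mul_eq_one_left h
    rw [this, mul_inv_rev, inv_inv]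
  have h2 : T * S⁻¹ = S * T⁻¹ := by
    have : S = T * S⁻¹ * T := by
      rw [mul_assoc, ← h1, mul_inv_cancel_left]
    calc T * S⁻¹ = T * S⁻¹ * T * T⁻¹ := by group
      _ = S * T⁻¹ := by rw [← this]
  apply Equiv.ext
  rintro (x | x)
  · simp [← mul_assoc, h1]
  · simp [← mul_assoc, h2]

end perm

end RC
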