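import Pool.Agent.Helper6.RC.Split

/-! Cocycles on the subgroups of index at most two: the theorem. -/

namespace RC

open SH

section chi

variable {V : Type} {Γ : SimpleGraph V} (χ : RAC Γ →* Multiplicative (ZMod 2))

lemma dec1 : ∀ a b : Multiplicative (ZMod 2), a ≠ 1 → b ≠ 1 → a * b * a ≠ 1 := by decide
lemma dec2 : ∀ a b d : Multiplicative (ZMod 2), a ≠ 1 → b ≠ 1 → d ≠ 1 →
    a⁻¹ * b * (d⁻¹ * a) = 1 := by decide
lemma dec3 : ∀ a b : Multiplicative (ZMod 2), a ≠ 1 → b ≠ 1 → a⁻¹ * b = 1 := by decide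

variable {n : ℕ} {c : ℕ → V}

lemma tt_chi (hn : 4 ≤ n) (hJ : ∀ i, i < n → χ (sg Γ (c i)) ≠ 1) {i : ℕ} :
    χ (tt Γ n c i) ≠ 1 := by
  unfold tt
  split_ifs with h
  · exact hJ i (by omega)
  · rw [map_mul, map_mul]
    exact dec1 _ _ (hJ _ (by omega)) (hJ _ (by omega))

lemma hA_chi (hn : 4 ≤ n) (hJ : ∀ i, i < n → χ (sg Γ (c i)) ≠ 1) (j : ℕ) :
    χ (hA (tt Γ n c) j) = 1 := by
  unfold hA
  rw [map_mul, map_mul, map_mul, map_inv, map_inv]
  exact dec2 _ _ _ (tt_chi χ hn hJ) (tt_chi χ hn hJ) (tt_chi χ hn hJ)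

lemma hB_chi (hn : 4 ≤ n) (hJ : ∀ i, i < n → χ (sg Γ (c i)) ≠ 1) (j : ℕ) :
    χ (hB (tt Γ n c) j) = 1 := by
  unfold hB
  rw [map_mul, map_inv]
  exact dec3 _ _ (tt_chi χ hn hJ) (tt_chi χ hn hJ)

lemma phi_chi (hcy : IndCyc Γ n c) (hn : 4 ≤ n) (hJ : ∀ i, i < n → χ (sg Γ (c i)) ≠ 1)
    (x : SurfGrp (n - 3)) : χ (phi hcy hn x) = 1 := by
  have h : χ.comp (phi hcy hn) = 1 := by
    apply surf_hom_ext
    · intro i
      rw [MonoidHom.comp_apply]
      unfold phi
      rw [mkS_ga, hA_chi χ hn hJ]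
      rfl
    · intro i
      rw [MonoidHom.comp_apply]
      unfold phi
      rw [mkS_gb, hB_chi χ hn hJ]
      rfl
  exact DFunLike.congr_fun h x

/-- the polygon surface of an induced cycle outside the kernel, as a subgroup of the kernel -/
def phiK (hcy : IndCyc Γ n c) (hn : 4 ≤ n) (hJ : ∀ i, i < n → χ (sg Γ (c i)) ≠ 1) :
    SurfGrp (n - 3) →* χ.ker :=
  (phi hcy hn).codRestrict χ.ker fun x => MonoidHom.mem_ker.2 (phi_chi χ hcy hn hJ x)

lemma phiK_ga (hcy : IndCyc Γ n c) (hn : 4 ≤ n) (hJ : ∀ i, i < n → χ (sg Γ (c i)) ≠ 1)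
    (i : Fin (n - 3)) : ((phiK χ hcy hn hJ (ga i) : χ.ker) : RAC Γ) = hA (tt Γ n c) i := by
  show phi hcy hn (ga i) = _
  unfold phi
  rw [mkS_ga]

lemma phiK_gb (hcy : IndCyc Γ n c) (hn : 4 ≤ n) (hJ : ∀ i, i < n → χ (sg Γ (c i)) ≠ 1)
    (i : Fin (n - 3)) : ((phiK χ hcy hn hJ (gb i) : χ.ker) : RAC Γ) = hB (tt Γ n c) i := by
  show phi hcy hn (gb i) = _
  unfold phi
  rw [mkS_gb]

end chi

section maps

variable {E F : Type*} [Group E] [Group F] (f : E →* F)

lemma map_hA (τ : ℕ → E) (j : ℕ) : f (hA τ j) = hA (fun i => f (τ i)) j := by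
  simp [hA]

lemma map_hB (τ : ℕ → E) (j : ℕ) : f (hB τ j) = hB (fun i => f (τ i)) j := by
  simp [hB]

lemma map_dblT (n : ℕ) (T : ℕ → E) (i : ℕ) : f (dblT n T i) = dblT n (fun i => f (T i)) i := by
  unfold dblT
  split_ifs <;> simp

lemma hA_left (s : E) (τ : ℕ → E) (j : ℕ) : hA (fun i => s * τ i) j = hA τ j := by
  unfold hA
  group

lemma hB_left (s : E) (τ : ℕ → E) (j : ℕ) : hB (fun i => s * τ i) j = hB τ j := by
  unfold hB
  group

end maps

section main

variable {V : Type} {Γ : SimpleGraph V} (χ : RAC Γ →* Multiplicative (ZMod 2))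
  (c : χ.ker → χ.ker → ℚ) (hc : IsCoc c)

/-- projection of the extension to the Coxeter group -/
def pw : Ex c hc →* RAC Γ := χ.ker.subtype.comp (Ex.pr c hc)

lemma pw_apply (a : Ex c hc) : pw χ c hc a = (a.g : RAC Γ) := rfl

include hc in
/-- the case of the trivial character -/
lemma cob_trivial (h : ∀ v, χ (sg Γ v) = 1) : IsCob c := by
  have h1 : ∀ v, ∃ U : Ex c hc, (U.g : RAC Γ) = sg Γ v ∧ U * U = 1 := by
    intro v
    obtain ⟨U, hU, hU2⟩ := exists_inv_lift hc (⟨sg Γ v, MonoidHom.mem_ker.2 (h v)⟩ : χ.ker)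
      (Subtype.ext (sg_sq v))
    exact ⟨U, by rw [hU], hU2⟩
  choose U hU1 hU2 using h1
  let F : RAC Γ →* Ex c hc := rlift U hU2 (by
    intro u v huv
    have h2 : U u * U v * (U u)⁻¹ = U v := by
      apply inv_lift_unique (hc := hc)
      · apply Subtype.ext
        rw [Ex.mul_g, Ex.mul_g, Ex.inv_g, Subgroup.coe_mul, Subgroup.coe_mul, Subgroup.coe_inv,
          hU1, hU1, sg_comm huv, mul_inv_cancel_right]
      · have : U u * U v * (U u)⁻¹ * (U u * U v * (U u)⁻¹) = U u * (U v * U v) * (U u)⁻¹ := by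
          group
        rw [this, hU2, mul_one, mul_inv_cancel]
      · exact hU2 v
    rw [mul_inv_eq_iff_eq_mul] at h2
    exact h2)
  apply cob_of_section (F.comp χ.ker.subtype)
  have h3 : (pw χ c hc).comp F = MonoidHom.id _ := by
    apply PresentedGroup.ext
    intro v
    show pw χ c hc (F (sg Γ v)) = sg Γ v
    rw [show F (sg Γ v) = U v from rlift_sg _ _ _ v, pw_apply, hU1]
  intro x
  apply Subtype.ext
  exact DFunLike.congr_fun h3 (x : RAC Γ)

/-- the statement proved by induction on the elements of the Coxeter group -/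
def Good (s0 : RAC Γ) (Φ : RAC Γ →* Equiv.Perm (Ex c hc ⊕ Ex c hc)) (w : RAC Γ) : Prop :=
  ∃ a b : Ex c hc,
    (χ w = 1 ∧ (∀ x, Φ w (Sum.inl x) = Sum.inl (a * x)) ∧ (∀ x, Φ w (Sum.inr x) = Sum.inr (b * x))
      ∧ (a.g : RAC Γ) = w ∧ (b.g : RAC Γ) = s0 * w * s0) ∨
    (χ w ≠ 1 ∧ (∀ x, Φ w (Sum.inl x) = Sum.inr (a * x)) ∧ (∀ x, Φ w (Sum.inr x) = Sum.inl (b * x))
      ∧ (a.g : RAC Γ) = s0 * w ∧ (b.g : RAC Γ) = w * s0)

lemma dec4 : ∀ a b : Multiplicative (ZMod 2), a = 1 → b ≠ 1 → a * b ≠ 1 := by decide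
lemma dec5 : ∀ a b : Multiplicative (ZMod 2), a ≠ 1 → b = 1 → a * b ≠ 1 := by decide

/-- a family of lifts with trivial squares along the edges gives a section -/
lemma cob_of_lifts (v0 : V) (hv0 : χ (sg Γ v0) ≠ 1) (T : V → Ex c hc)
    (hT : ∀ v, χ (sg Γ v) ≠ 1 → ((T v).g : RAC Γ) = sg Γ v0 * sg Γ v)
    (hT2 : ∀ u v, χ (sg Γ u) ≠ 1 → χ (sg Γ v) ≠ 1 → Γ.Adj u v →
      (T u)⁻¹ * T v * ((T u)⁻¹ * T v) = 1) : IsCob c := by
  classical
  have h1 : ∀ v, ∃ U : Ex c hc, χ (sg Γ v) = 1 → (U.g : RAC Γ) = sg Γ v ∧ U * U = 1 := by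
    intro v
    by_cases h : χ (sg Γ v) = 1
    · obtain ⟨U, hU, hU2⟩ := exists_inv_lift hc (⟨sg Γ v, MonoidHom.mem_ker.2 h⟩ : χ.ker)
        (Subtype.ext (sg_sq v))
      exact ⟨U, fun _ => ⟨by rw [hU], hU2⟩⟩
    · exact ⟨1, fun h' => absurd h' h⟩
  choose U hU using h1
  have h2 : ∀ v, ∃ U' : Ex c hc, χ (sg Γ v) = 1 →
      (U'.g : RAC Γ) = sg Γ v0 * sg Γ v * sg Γ v0 ∧ U' * U' = 1 := by
    intro v
    by_cases h : χ (sg Γ v) = 1
    · obtain ⟨U', hU', hU2⟩ := exists_inv_lift hc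
        (⟨sg Γ v0 * sg Γ v * sg Γ v0, MonoidHom.mem_ker.2 (by
          rw [map_mul, map_mul, h, mul_one, ← map_mul, sg_sq, map_one])⟩ : χ.ker)
        (Subtype.ext (conj_sq (sg_sq v0) (sg_sq v)))
      exact ⟨U', fun _ => ⟨by rw [hU'], hU2⟩⟩
    · exact ⟨1, fun h' => absurd h' h⟩
  choose U' hU' using h2
  let f : V → Equiv.Perm (Ex c hc ⊕ Ex c hc) := fun v =>
    if χ (sg Γ v) = 1 then PN (U v) (U' v) else PJ (T v)
  have hf1 : ∀ v, f v * f v = 1 := by
    intro v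
    show (if χ (sg Γ v) = 1 then PN (U v) (U' v) else PJ (T v))
      * (if χ (sg Γ v) = 1 then PN (U v) (U' v) else PJ (T v)) = 1
    split_ifs with h
    · exact PN_sq _ _ (hU v h).2 (hU' v h).2
    · exact PJ_sq _
  have hf3 : ∀ u v, χ (sg Γ u) ≠ 1 → χ (sg Γ v) = 1 → Γ.Adj u v →
      PJ (T u) * PN (U v) (U' v) = PN (U v) (U' v) * PJ (T u) := by
    intro u v hu hv huv
    apply PJN_comm
    have h3 : T u * U v * (T u)⁻¹ = U' v := by
      apply inv_lift_unique (hc := hc)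
      · apply Subtype.ext
        rw [Ex.mul_g, Ex.mul_g, Ex.inv_g, Subgroup.coe_mul, Subgroup.coe_mul, Subgroup.coe_inv,
          hT u hu, (hU v hv).1, (hU' v hv).1, mul_inv_rev, sg_inv, sg_inv]
        have := sg_comm huv
        calc sg Γ v0 * sg Γ u * sg Γ v * (sg Γ u * sg Γ v0)
            = sg Γ v0 * (sg Γ u * sg Γ v) * sg Γ u * sg Γ v0 := by simp only [mul_assoc]
          _ = sg Γ v0 * sg Γ v * (sg Γ u * sg Γ u) * sg Γ v0 := by
              rw [this]; simp only [mul_assoc]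
          _ = sg Γ v0 * sg Γ v * sg Γ v0 := by rw [sg_sq, mul_one]
      · have : T u * U v * (T u)⁻¹ * (T u * U v * (T u)⁻¹) = T u * (U v * U v) * (T u)⁻¹ := by
          group
        rw [this, (hU v hv).2, mul_one, mul_inv_cancel]
      · exact (hU' v hv).2
    rw [← h3]
    group
  have hf2 : ∀ u v, Γ.Adj u v → f u * f v = f v * f u := by
    intro u v huv
    show (if χ (sg Γ u) = 1 then PN (U u) (U' u) else PJ (T u))
      * (if χ (sg Γ v) = 1 then PN (U v) (U' v) else PJ (T v))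
      = (if χ (sg Γ v) = 1 then PN (U v) (U' v) else PJ (T v))
      * (if χ (sg Γ u) = 1 then PN (U u) (U' u) else PJ (T u))
    split_ifs with h3 h4 h4
    · apply PN_comm
      · have h5 : U u * U v * (U u)⁻¹ = U v := by
          apply inv_lift_unique (hc := hc)
          · apply Subtype.ext
            rw [Ex.mul_g, Ex.mul_g, Ex.inv_g, Subgroup.coe_mul, Subgroup.coe_mul,
              Subgroup.coe_inv, (hU u h3).1, (hU v h4).1, sg_comm huv, mul_inv_cancel_right]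
          · have : U u * U v * (U u)⁻¹ * (U u * U v * (U u)⁻¹) = U u * (U v * U v) * (U u)⁻¹ := by
              group
            rw [this, (hU v h4).2, mul_one, mul_inv_cancel]
          · exact (hU v h4).2
        rw [mul_inv_eq_iff_eq_mul] at h5
        exact h5
      · have h5 : U' u * U' v * (U' u)⁻¹ = U' v := by
          apply inv_lift_unique (hc := hc)
          · apply Subtype.ext
            rw [Ex.mul_g, Ex.mul_g, Ex.inv_g, Subgroup.coe_mul, Subgroup.coe_mul,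
              Subgroup.coe_inv, (hU' u h3).1, (hU' v h4).1]
            have h6 := sg_comm huv
            have h7 : sg Γ v0 * sg Γ u * sg Γ v0 * (sg Γ v0 * sg Γ v * sg Γ v0)
                = sg Γ v0 * sg Γ v * sg Γ v0 * (sg Γ v0 * sg Γ u * sg Γ v0) := by
              calc sg Γ v0 * sg Γ u * sg Γ v0 * (sg Γ v0 * sg Γ v * sg Γ v0)
                  = sg Γ v0 * sg Γ u * (sg Γ v0 * sg Γ v0) * sg Γ v * sg Γ v0 := by
                    simp only [mul_assoc]
                _ = sg Γ v0 * (sg Γ u * sg Γ v) * sg Γ v0 := by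
                    rw [sg_sq]; simp only [mul_assoc, one_mul]
                _ = sg Γ v0 * (sg Γ v * sg Γ u) * sg Γ v0 := by rw [h6]
                _ = sg Γ v0 * sg Γ v * (sg Γ v0 * sg Γ v0) * sg Γ u * sg Γ v0 := by
                    rw [sg_sq]; simp only [mul_assoc, one_mul]
                _ = _ := by simp only [mul_assoc]
            rw [h7, mul_inv_cancel_right]
          · have : U' u * U' v * (U' u)⁻¹ * (U' u * U' v * (U' u)⁻¹)
                = U' u * (U' v * U' v) * (U' u)⁻¹ := by group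
            rw [this, (hU' v h4).2, mul_one, mul_inv_cancel]
          · exact (hU' v h4).2
        rw [mul_inv_eq_iff_eq_mul] at h5
        exact h5
    · exact (hf3 v u h4 h3 huv.symm).symm
    · exact hf3 u v h3 h4 huv
    · exact PJ_comm _ _ (hT2 u v h3 h4 huv)
  let Φ : RAC Γ →* Equiv.Perm (Ex c hc ⊕ Ex c hc) := rlift f hf1 hf2
  have hΦ : ∀ v, Φ (sg Γ v) = f v := fun v => rlift_sg _ _ _ v
  have hs0 : sg Γ v0 * sg Γ v0 = 1 := sg_sq v0
  have hstep : ∀ v w, Good χ c hc (sg Γ v0) Φ w → Good χ c hc (sg Γ v0) Φ (sg Γ v * w) := by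
    intro v w hw
    obtain ⟨a, b, hw⟩ := hw
    by_cases hv : χ (sg Γ v) = 1
    · have hfv : f v = PN (U v) (U' v) := if_pos hv
      rcases hw with ⟨w1, w2, w3, w4, w5⟩ | ⟨w1, w2, w3, w4, w5⟩
      · refine ⟨U v * a, U' v * b, Or.inl ⟨by rw [map_mul, hv, w1, one_mul], ?_, ?_, ?_, ?_⟩⟩
        · intro x
          rw [map_mul, Equiv.Perm.mul_apply, w2, hΦ, hfv, PN_inl, mul_assoc]
        · intro x
          rw [map_mul, Equiv.Perm.mul_apply, w3, hΦ, hfv, PN_inr, mul_assoc]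
        · rw [Ex.mul_g, Subgroup.coe_mul, (hU v hv).1, w4]
        · rw [Ex.mul_g, Subgroup.coe_mul, (hU' v hv).1, w5]
          calc sg Γ v0 * sg Γ v * sg Γ v0 * (sg Γ v0 * w * sg Γ v0)
              = sg Γ v0 * sg Γ v * (sg Γ v0 * sg Γ v0) * w * sg Γ v0 := by simp only [mul_assoc]
            _ = _ := by rw [hs0, mul_one]; simp only [mul_assoc]
      · refine ⟨U' v * a, U v * b, Or.inr ⟨by rw [map_mul]; exact dec4 _ _ hv w1, ?_, ?_, ?_, ?_⟩⟩
        · intro x
          rw [map_mul, Equiv.Perm.mul_apply, w2, hΦ, hfv, PN_inr, mul_assoc]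
        · intro x
          rw [map_mul, Equiv.Perm.mul_apply, w3, hΦ, hfv, PN_inl, mul_assoc]
        · rw [Ex.mul_g, Subgroup.coe_mul, (hU' v hv).1, w4]
          calc sg Γ v0 * sg Γ v * sg Γ v0 * (sg Γ v0 * w)
              = sg Γ v0 * sg Γ v * (sg Γ v0 * sg Γ v0) * w := by simp only [mul_assoc]
            _ = _ := by rw [hs0, mul_one]; simp only [mul_assoc]
        · rw [Ex.mul_g, Subgroup.coe_mul, (hU v hv).1, w5, mul_assoc]
    · have hfv : f v = PJ (T v) := if_neg hv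
      rcases hw with ⟨w1, w2, w3, w4, w5⟩ | ⟨w1, w2, w3, w4, w5⟩
      · refine ⟨T v * a, (T v)⁻¹ * b, Or.inr ⟨by rw [map_mul]; exact dec5 _ _ hv w1, ?_, ?_, ?_, ?_⟩⟩
        · intro x
          rw [map_mul, Equiv.Perm.mul_apply, w2, hΦ, hfv, PJ_inl, mul_assoc]
        · intro x
          rw [map_mul, Equiv.Perm.mul_apply, w3, hΦ, hfv, PJ_inr, mul_assoc]
        · rw [Ex.mul_g, Subgroup.coe_mul, hT v hv, w4, mul_assoc]
        · rw [Ex.mul_g, Ex.inv_g, Subgroup.coe_mul, Subgroup.coe_inv, hT v hv, w5, mul_inv_rev,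
            sg_inv, sg_inv]
          calc sg Γ v * sg Γ v0 * (sg Γ v0 * w * sg Γ v0)
              = sg Γ v * (sg Γ v0 * sg Γ v0) * w * sg Γ v0 := by simp only [mul_assoc]
            _ = _ := by rw [hs0, mul_one]
      · refine ⟨(T v)⁻¹ * a, T v * b, Or.inl ⟨by rw [map_mul]; exact ne_one_mul hv w1, ?_, ?_, ?_, ?_⟩⟩
        · intro x
          rw [map_mul, Equiv.Perm.mul_apply, w2, hΦ, hfv, PJ_inr, mul_assoc]
        · intro x
          rw [map_mul, Equiv.Perm.mul_apply, w3, hΦ, hfv, PJ_inl, mul_assoc]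
        · rw [Ex.mul_g, Ex.inv_g, Subgroup.coe_mul, Subgroup.coe_inv, hT v hv, w4, mul_inv_rev,
            sg_inv, sg_inv]
          calc sg Γ v * sg Γ v0 * (sg Γ v0 * w)
              = sg Γ v * (sg Γ v0 * sg Γ v0) * w := by simp only [mul_assoc]
            _ = _ := by rw [hs0, mul_one]
        · rw [Ex.mul_g, Subgroup.coe_mul, hT v hv, w5]
          simp only [mul_assoc]
  have hgood : ∀ w, Good χ c hc (sg Γ v0) Φ w := by
    intro w
    have hw : w ∈ Subgroup.closure (Set.range (sg Γ)) := by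
      rw [rac_closure]
      trivial
    induction hw using Subgroup.closure_induction_left with
    | one =>
      refine ⟨1, 1, Or.inl ⟨map_one _, fun x => by simp, fun x => by simp, rfl, ?_⟩⟩
      rw [mul_one, hs0]
      rfl
    | mul_left x hx y _ ih =>
      obtain ⟨v, rfl⟩ := hx
      exact hstep v y ih
    | inv_mul_cancel x hx y _ ih =>
      obtain ⟨v, rfl⟩ := hx
      rw [sg_inv]
      exact hstep v y ih
  have hker : ∀ w : χ.ker, ∃ a : Ex c hc, (∀ x, Φ w (Sum.inl x) = Sum.inl (a * x)) ∧ a.g = w := by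
    intro w
    obtain ⟨a, b, ⟨_, h4, _, h5, _⟩ | ⟨h3, _⟩⟩ := hgood w
    · exact ⟨a, h4, Subtype.ext h5⟩
    · exact absurd (MonoidHom.mem_ker.1 w.2) h3
  choose σ hσ1 hσ2 using hker
  let S : χ.ker →* Ex c hc :=
    { toFun := σ
      map_one' := by
        have := hσ1 1 1
        rw [OneMemClass.coe_one, map_one, Equiv.Perm.one_apply, mul_one] at this
        exact (Sum.inl_injective this).symm
      map_mul' := by
        intro x y
        have h3 := hσ1 (x * y) 1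
        rw [Subgroup.coe_mul, map_mul, Equiv.Perm.mul_apply, hσ1 y, hσ1 x, mul_one, mul_one] at h3
        exact (Sum.inl_injective h3).symm }
  exact cob_of_section S hσ2

end main

end RC
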