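import Pool.Agent.Helper6.RC.Split2

/-! Cocycles on the subgroups of index at most two: the polygon surfaces detect coboundaries. -/

namespace RC

open SH

section lem

variable {G : Type*} [Group G] {c : G → G → ℚ} {hc : IsCoc c}

lemma comm_of_sq {f k : Ex c hc} {x : ℚ} (hf : f * f = zz hc x) (h : f.g * k.g = k.g * f.g) :
    f * k = k * f := by
  have h1 : ((k * f)⁻¹ * (f * k)).g = 1 := by
    rw [Ex.mul_g, Ex.inv_g, Ex.mul_g, Ex.mul_g, h, inv_mul_cancel]
  have h2 := exists_zz h1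
  generalize ((k * f)⁻¹ * (f * k)).v + c 1 1 = t at h2
  have h3 : f * k = zz hc t * (k * f) := by
    rw [zz_comm, ← h2]
    group
  have h4 : f * f * k = zz hc (t + t) * (k * (f * f)) := by
    calc f * f * k = f * (f * k) := by rw [mul_assoc]
      _ = f * (zz hc t * (k * f)) := by rw [h3]
      _ = zz hc t * (f * k) * f := by
          rw [← mul_assoc f, ← zz_comm t f]
          simp only [mul_assoc]
      _ = zz hc t * (zz hc t * (k * f)) * f := by rw [h3]
      _ = _ := by
          rw [zz_add]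
          simp only [mul_assoc]
  rw [hf, ← zz_comm x k, ← mul_assoc, ← zz_add, mul_left_inj] at h4
  have h5 := zz_inj h4
  have h6 : t = 0 := by linarith
  rw [h3, h6, zz_zero, one_mul]

lemma sq_mul {f k : Ex c hc} {x y : ℚ} (hf : f * f = zz hc x) (hk : k * k = zz hc y)
    (h : f.g * k.g = k.g * f.g) : f * k * (f * k) = zz hc (x + y) := by
  have h1 := comm_of_sq hf h
  calc f * k * (f * k) = f * k * (k * f) := by rw [h1]
    _ = f * (k * k) * f := by simp only [mul_assoc]
    _ = zz hc y * (f * f) := by rw [hk, ← zz_comm y f, mul_assoc]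
    _ = _ := by rw [hf, ← zz_add, add_comm]

end lem

section main

variable {V : Type} {Γ : SimpleGraph V} (χ : RAC Γ →* Multiplicative (ZMod 2))
  (c : χ.ker → χ.ker → ℚ) (hc : IsCoc c)

include hc in
/-- cocycles on the kernel of a character to `Z/2` which vanish on the polygon surfaces are
coboundaries -/
theorem cob_index_two
    (hs : ∀ (n : ℕ) (cy : ℕ → V) (hcy : IndCyc Γ n cy) (hn : 4 ≤ n)
      (hJ : ∀ i, i < n → χ (sg Γ (cy i)) ≠ 1),
      lin c (sfc (fun i => phiK χ hcy hn hJ (ga i)) (fun i => phiK χ hcy hn hJ (gb i))) = 0) :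
    IsCob c := by
  classical
  by_cases htriv : ∀ v, χ (sg Γ v) = 1
  · exact cob_trivial χ c hc htriv
  push Not at htriv
  obtain ⟨v0, hv0⟩ := htriv
  have hT : ∀ v, ∃ T : Ex c hc, χ (sg Γ v) ≠ 1 → (T.g : RAC Γ) = sg Γ v0 * sg Γ v := by
    intro v
    by_cases h : χ (sg Γ v) = 1
    · exact ⟨1, fun h' => absurd h h'⟩
    · exact ⟨⟨0, ⟨sg Γ v0 * sg Γ v, MonoidHom.mem_ker.2 (by
        rw [map_mul]; exact ne_one_mul hv0 h)⟩⟩, fun _ => rfl⟩
  choose T0 hT0 using hT
  let Γ' : SimpleGraph V :=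
    { Adj := fun u v => Γ.Adj u v ∧ χ (sg Γ u) ≠ 1 ∧ χ (sg Γ v) ≠ 1
      symm := ⟨fun u v h => ⟨h.1.symm, h.2.2, h.2.1⟩⟩
      loopless := ⟨fun v h => Γ.loopless.irrefl v h.1⟩ }
  have hg : ∀ u v, χ (sg Γ u) ≠ 1 → χ (sg Γ v) ≠ 1 →
      ((((T0 u)⁻¹ * T0 v).g : χ.ker) : RAC Γ) = sg Γ u * sg Γ v := by
    intro u v hu hv
    rw [Ex.mul_g, Ex.inv_g, Subgroup.coe_mul, Subgroup.coe_inv, hT0 u hu, hT0 v hv, mul_inv_rev,
      sg_inv, sg_inv]
    calc sg Γ u * sg Γ v0 * (sg Γ v0 * sg Γ v)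
        = sg Γ u * (sg Γ v0 * sg Γ v0) * sg Γ v := by simp only [mul_assoc]
      _ = _ := by rw [sg_sq, mul_one]
  let q : V → V → ℚ := fun u v => ((T0 u)⁻¹ * T0 v * ((T0 u)⁻¹ * T0 v)).v + c 1 1
  have hq : ∀ u v, Γ'.Adj u v → (T0 u)⁻¹ * T0 v * ((T0 u)⁻¹ * T0 v) = zz hc (q u v) := by
    intro u v huv
    apply exists_zz
    apply Subtype.ext
    rw [Ex.mul_g, Subgroup.coe_mul, hg u v huv.2.1 huv.2.2]
    calc sg Γ u * sg Γ v * (sg Γ u * sg Γ v) = sg Γ u * sg Γ v * (sg Γ v * sg Γ u) := by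
          rw [sg_comm huv.1]
      _ = sg Γ u * (sg Γ v * sg Γ v) * sg Γ u := by simp only [mul_assoc]
      _ = 1 := by rw [sg_sq, mul_one, sg_sq]
  obtain ⟨b, hb⟩ := graph_potential Γ' q (by
      intro u v huv
      apply zz_inj (hc := hc)
      rw [← hq v u huv.symm, zz_neg, ← hq u v huv]
      group)
    (by
      intro u v w huv hvw huw
      apply zz_inj (hc := hc)
      rw [← hq u w huw, ← sq_mul (hq u v huv) (hq v w hvw)]
      · have e : (T0 u)⁻¹ * T0 v * ((T0 v)⁻¹ * T0 w) = (T0 u)⁻¹ * T0 w := by group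
        rw [e]
      · apply Subtype.ext
        rw [Subgroup.coe_mul, Subgroup.coe_mul, hg u v huv.2.1 huv.2.2, hg v w hvw.2.1 hvw.2.2]
        have e1 := sg_comm huv.1
        have e2 := sg_comm hvw.1
        have e3 := sg_comm huw.1
        generalize sg Γ u = a at e1 e2 e3 ⊢
        generalize sg Γ v = b at e1 e2 e3 ⊢
        generalize sg Γ w = d at e1 e2 e3 ⊢
        calc a * b * (b * d) = a * b * (d * b) := by rw [e2]
          _ = a * (b * d) * b := by simp only [mul_assoc]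
          _ = a * (d * b) * b := by rw [e2]
          _ = (a * d) * b * b := by simp only [mul_assoc]
          _ = (d * a) * b * b := by rw [e3]
          _ = d * (a * b) * b := by simp only [mul_assoc]
          _ = d * (b * a) * b := by rw [e1]
          _ = (d * b) * (a * b) := by simp only [mul_assoc]
          _ = b * d * (a * b) := by rw [e2])
    (by
      intro n cy hn hcy'
      have hJ : ∀ i, i < n → χ (sg Γ (cy i)) ≠ 1 := fun i hi => (hcy'.adj i hi).2.1
      have hcy : IndCyc Γ n cy := ⟨hcy'.closed, hcy'.inj, fun i hi => (hcy'.adj i hi).1,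
        fun i j hi hj h => hcy'.ind i j hi hj ⟨h, hJ i hi, hJ j hj⟩⟩
      have hR := Rp_dblT (zz hc) zz_add zz_comm n hn (fun i => T0 (cy i))
        (fun i => q (cy i) (cy (i + 1)))
        (fun i hi => hq _ _ (hcy'.adj i (by omega)))
        (by
          have h1 := hq _ _ (hcy'.adj (n - 1) (by omega))
          rw [show n - 1 + 1 = n by omega, hcy.closed] at h1
          show (T0 (cy (n - 1)))⁻¹ * T0 (cy 0) * ((T0 (cy (n - 1)))⁻¹ * T0 (cy 0))
            = zz hc (q (cy (n - 1)) (cy (n - 1 + 1)))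
          rw [show n - 1 + 1 = n by omega, hcy.closed]
          exact h1)
      have hpw : ∀ i, pw χ c hc (dblT n (fun i => T0 (cy i)) i) = sg Γ v0 * tt Γ n cy i := by
        intro i
        unfold dblT tt
        split_ifs with h
        · rw [pw_apply, hT0 _ (hJ _ (by omega))]
        · rw [map_mul, map_mul, map_inv, pw_apply, pw_apply, hT0 _ (hJ _ (by omega)),
            hT0 _ (hJ _ (by omega)), mul_inv_rev, sg_inv, sg_inv]
          calc sg Γ v0 * sg Γ (cy (n - 1)) * (sg Γ (cy (2 * n - 4 - i)) * sg Γ v0)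
              * (sg Γ v0 * sg Γ (cy (n - 1)))
              = sg Γ v0 * sg Γ (cy (n - 1)) * sg Γ (cy (2 * n - 4 - i)) * (sg Γ v0 * sg Γ v0)
                * sg Γ (cy (n - 1)) := by simp only [mul_assoc]
            _ = _ := by rw [sg_sq, mul_one]; simp only [mul_assoc]
      have hgA : ∀ i : Fin (n - 3), (hA (dblT n (fun i => T0 (cy i))) i).g
          = phiK χ hcy hn hJ (ga i) := by
        intro i
        apply Subtype.ext
        rw [phiK_ga, ← pw_apply, map_hA]
        simp only [hpw]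
        exact hA_left _ _ _
      have hgB : ∀ i : Fin (n - 3), (hB (dblT n (fun i => T0 (cy i))) i).g
          = phiK χ hcy hn hJ (gb i) := by
        intro i
        apply Subtype.ext
        rw [phiK_gb, ← pw_apply, map_hB]
        simp only [hpw]
        exact hB_left _ _ _
      have hL := cprod_lift (c := c) (hc := hc)
        (fun i : Fin (n - 3) => hA (dblT n (fun i => T0 (cy i))) i)
        (fun i : Fin (n - 3) => hB (dblT n (fun i => T0 (cy i))) i)
      simp only [hgA, hgB] at hL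
      rw [hs n cy hcy hn hJ, cprod_eq_Rp, hR] at hL
      have h2 : (zz hc (-2 * ∑ i ∈ Finset.range n, q (cy i) (cy (i + 1)))).v
        = -2 * ∑ i ∈ Finset.range n, q (cy i) (cy (i + 1)) - c 1 1 := rfl
      rw [h2] at hL
      linarith)
  refine cob_of_lifts χ c hc v0 hv0 (fun v => T0 v * zz hc (-b v / 2)) ?_ ?_
  · intro v hv
    show (((T0 v * zz hc (-b v / 2)).g : χ.ker) : RAC Γ) = _
    rw [Ex.mul_g]
    show (((T0 v).g * 1 : χ.ker) : RAC Γ) = _
    rw [mul_one]
    exact hT0 v hv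
  · intro u v hu hv huv
    have h1 := hq u v ⟨huv, hu, hv⟩
    have h2 := hb u v ⟨huv, hu, hv⟩
    have h3 : (T0 u * zz hc (-b u / 2))⁻¹ * (T0 v * zz hc (-b v / 2))
        = (T0 u)⁻¹ * T0 v * zz hc (b u / 2 - b v / 2) := by
      rw [mul_inv_rev, ← zz_neg, show b u / 2 - b v / 2 = -(-b u / 2) + (-b v / 2) by ring, zz_add,
        zz_comm (-(-b u / 2)) (T0 u)⁻¹]
      simp only [mul_assoc]
      rw [← mul_assoc (zz hc (-(-b u / 2))), zz_comm (-(-b u / 2)) (T0 v)]
      simp only [mul_assoc]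
    show (T0 u * zz hc (-b u / 2))⁻¹ * (T0 v * zz hc (-b v / 2))
      * ((T0 u * zz hc (-b u / 2))⁻¹ * (T0 v * zz hc (-b v / 2))) = 1
    rw [h3, z_two (zz hc) zz_comm, h1, ← zz_add, ← zz_add, h2, ← zz_zero]
    congr 1
    ring

end main

end RC
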